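import Pool.Agent.Run7.h507.RT.Ran

/-!
From the sets to the dyadic shells.
-/

set_option autoImplicit false

open MeasureTheory ProbabilityTheory Filter Topology

namespace Pool.Agent.Run7.h507.RT

/-- The weight of the local triads. -/
noncomputable def el (loc : Set (K3 × K3)) (Y : Sym2 (Multiset K3) → ℝ) (p q : K3) : ℝ := by
  classical
  exact if (p, q) ∈ loc then Y (lab p q) else 0

theorem el_of_mem {loc : Set (K3 × K3)} {Y : Sym2 (Multiset K3) → ℝ} {p q : K3}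
    (h : (p, q) ∈ loc) : el loc Y p q = Y (lab p q) := by
  unfold el; rw [if_pos h]

theorem el_of_notMem {loc : Set (K3 × K3)} {Y : Sym2 (Multiset K3) → ℝ} {p q : K3}
    (h : (p, q) ∉ loc) : el loc Y p q = 0 := by
  unfold el; rw [if_neg h]

/-- The bound on sets. -/
def FlatB (loc : Set (K3 × K3)) (Y : Sym2 (Multiset K3) → ℝ) (K : ℝ) : Prop :=
  ∀ j : ℕ, ∀ A B C : Finset K3, A ⊆ Bn (2 ^ (j + 1)) →
      B ⊆ Bn (2 ^ (j + 1)) → C ⊆ Bn (2 ^ (j + 1)) →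
      |∑ x ∈ Gs loc A B C, Y (lab x.1 x.2)|
        ≤ K * (j + 1) * (Real.sqrt A.card * Real.sqrt B.card * Real.sqrt C.card)

section

variable {loc : Set (K3 × K3)} {Y : Sym2 (Multiset K3) → ℝ} {K : ℝ}

/-- The kernel. -/
noncomputable def ker (loc : Set (K3 × K3)) (Y : Sym2 (Multiset K3) → ℝ) (p q r : K3) : ℂ := by
  classical
  exact if r = -(p + q) then (el loc Y p q : ℂ) else 0

theorem sum_ker_one (p q : K3) (C : Finset K3) (f : K3 → ℂ) :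
    ∑ r ∈ C, ker loc Y p q r * f r
      = if -(p + q) ∈ C then (el loc Y p q : ℂ) * f (-(p + q)) else 0 := by
  classical
  unfold ker
  simp only [ite_mul, zero_mul]
  rw [Finset.sum_ite_eq' C (-(p + q)) fun r => (el loc Y p q : ℂ) * f r]

theorem sum_ker (A B C : Finset K3) :
    ∑ p ∈ A, ∑ q ∈ B, ∑ r ∈ C, ker loc Y p q r
      = ((∑ x ∈ Gs loc A B C, Y (lab x.1 x.2) : ℝ) : ℂ) := by
  classical
  have h1 : ∀ p q, ∑ r ∈ C, ker loc Y p q r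
      = if -(p + q) ∈ C then (el loc Y p q : ℂ) else 0 := by
    intro p q
    have := sum_ker_one (loc := loc) (Y := Y) p q C (fun _ => 1)
    simpa using this
  simp only [h1]
  rw [← Finset.sum_product' A B (fun p q => if -(p + q) ∈ C then (el loc Y p q : ℂ) else 0)]
  rw [Complex.ofReal_sum]
  unfold Gs
  rw [Finset.sum_filter]
  refine Finset.sum_congr (by congr) fun x _ => ?_
  by_cases h2 : -(x.1 + x.2) ∈ C
  · by_cases h3 : x ∈ loc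
    · rw [if_pos h2, if_pos ⟨h2, h3⟩, el_of_mem h3]
    · rw [if_pos h2, if_neg fun h => h3 h.2, el_of_notMem h3, Complex.ofReal_zero]
  · rw [if_neg h2, if_neg fun h => h2 h.1]

theorem Hl_le (j : ℕ) : Hl (Bn (2 ^ (j + 1))) ≤ 7 * (j + 1) := by
  unfold Hl
  rw [Real.sqrt_le_left (by positivity)]
  have h1 := harmonic_le_one_add_log (Bn (2 ^ (j + 1))).card
  have h2 : Real.log (Bn (2 ^ (j + 1))).card ≤ 3 * (j + 3) := by
    have h4 := le_card_Bn j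
    have h5 : (0 : ℝ) < (Bn (2 ^ (j + 1))).card := lt_of_lt_of_le (by positivity) h4
    calc Real.log (Bn (2 ^ (j + 1))).card ≤ Real.log (2 ^ (3 * (j + 3))) :=
          Real.log_le_log h5 (card_Bn_le j)
      _ = (3 * (j + 3) : ℕ) * Real.log 2 := Real.log_pow _ _
      _ ≤ (3 * (j + 3) : ℕ) * 1 := by
          refine mul_le_mul_of_nonneg_left ?_ (Nat.cast_nonneg _)
          have := Real.log_two_lt_d9
          linarith
      _ = 3 * (j + 3) := by push_cast; ring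
  have hj0 : (0 : ℝ) ≤ j := Nat.cast_nonneg j
  nlinarith

/-- The bound in `ℓ²` on the box. -/
theorem tri_box (hK : 0 ≤ K) (h : FlatB loc Y K) (j : ℕ) (u v w : K3 → ℂ) :
    ‖∑ x ∈ Tr (Bn (2 ^ (j + 1))), (el loc Y x.1 x.2 : ℂ) * (u x.1 * v x.2 * w (-(x.1 + x.2)))‖
      ≤ 343 * K * (j + 1) ^ 4 * (Real.sqrt (∑ k ∈ Bn (2 ^ (j + 1)), ‖u k‖ ^ 2)
        * Real.sqrt (∑ k ∈ Bn (2 ^ (j + 1)), ‖v k‖ ^ 2)
        * Real.sqrt (∑ k ∈ Bn (2 ^ (j + 1)), ‖w k‖ ^ 2)) := by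
  classical
  set Q := Bn (2 ^ (j + 1)) with hQ
  have h1 := flat_tri (t := ker loc Y) (K := K * (j + 1)) (by positivity) Q
    (fun A hA B hB C hC => by
      rw [sum_ker, Complex.norm_real, Real.norm_eq_abs]
      refine (h j A B C hA hB hC).trans (le_of_eq ?_)
      ring) u v w
  have h2 : ∑ i ∈ Q, ∑ j ∈ Q, ∑ k ∈ Q, ker loc Y i j k * u i * v j * w k
      = ∑ x ∈ Tr Q, (el loc Y x.1 x.2 : ℂ) * (u x.1 * v x.2 * w (-(x.1 + x.2))) := by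
    have h3 : ∀ p q, ∑ r ∈ Q, ker loc Y p q r * u p * v q * w r
        = if -(p + q) ∈ Q then (el loc Y p q : ℂ) * (u p * v q * w (-(p + q))) else 0 := by
      intro p q
      rw [← sum_ker_one (loc := loc) (Y := Y) p q Q (fun r => u p * v q * w r)]
      exact Finset.sum_congr rfl fun r _ => by ring
    simp only [h3]
    rw [← Finset.sum_product' Q Q
      (fun p q => if -(p + q) ∈ Q then (el loc Y p q : ℂ) * (u p * v q * w (-(p + q))) else 0)]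
    unfold Tr
    rw [Finset.sum_filter]
  rw [h2] at h1
  refine h1.trans ?_
  have h4 := Hl_le j
  have h5 : 0 ≤ Hl Q := Real.sqrt_nonneg _
  have h6 : Hl Q ^ 3 ≤ (7 * (j + 1)) ^ 3 := pow_le_pow_left₀ h5 h4 3
  set a := Real.sqrt (∑ k ∈ Q, ‖u k‖ ^ 2)
  set b := Real.sqrt (∑ k ∈ Q, ‖v k‖ ^ 2)
  set c := Real.sqrt (∑ k ∈ Q, ‖w k‖ ^ 2)
  have ha : 0 ≤ a := Real.sqrt_nonneg _
  have hb : 0 ≤ b := Real.sqrt_nonneg _
  have hc : 0 ≤ c := Real.sqrt_nonneg _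
  calc K * (j + 1) * Hl Q ^ 3 * a * b * c ≤ K * (j + 1) * (7 * (j + 1)) ^ 3 * a * b * c := by
        gcongr
    _ = _ := by ring

/-- The bound in `ℓ²` for functions with supports in `B` and in the box. -/
theorem tri_supp (hK : 0 ≤ K) (h : FlatB loc Y K) (j : ℕ) (B : Finset K3) {u v w : K3 → ℂ}
    (hu : ∀ k, ¬(k ∈ B ∧ k ∈ Bn (2 ^ (j + 1))) → u k = 0)
    (hv : ∀ k, ¬(k ∈ B ∧ k ∈ Bn (2 ^ (j + 1))) → v k = 0)
    (hw : ∀ k, ¬(k ∈ B ∧ k ∈ Bn (2 ^ (j + 1))) → w k = 0) {U V W : ℝ}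
    (hU : ∑ k ∈ B, ‖u k‖ ^ 2 ≤ U ^ 2) (hV : ∑ k ∈ B, ‖v k‖ ^ 2 ≤ V ^ 2)
    (hW : ∑ k ∈ B, ‖w k‖ ^ 2 ≤ W ^ 2) (hU0 : 0 ≤ U) (hV0 : 0 ≤ V) (hW0 : 0 ≤ W) :
    ‖∑ x ∈ Tr B, (el loc Y x.1 x.2 : ℂ) * (u x.1 * v x.2 * w (-(x.1 + x.2)))‖
      ≤ 343 * K * (j + 1) ^ 4 * (U * V * W) := by
  classical
  set Q := Bn (2 ^ (j + 1)) with hQ
  have h0 : ∀ x : K3 × K3, ¬(x ∈ Tr B ∧ x ∈ Tr Q) →
      (el loc Y x.1 x.2 : ℂ) * (u x.1 * v x.2 * w (-(x.1 + x.2))) = 0 := by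
    intro x hx
    by_cases h1 : x.1 ∈ B ∧ x.1 ∈ Q
    · by_cases h2 : x.2 ∈ B ∧ x.2 ∈ Q
      · by_cases h3 : -(x.1 + x.2) ∈ B ∧ -(x.1 + x.2) ∈ Q
        · exact absurd ⟨mem_Tr.2 ⟨h1.1, h2.1, h3.1⟩, mem_Tr.2 ⟨h1.2, h2.2, h3.2⟩⟩ hx
        · rw [hw _ h3]; ring
      · rw [hv _ h2]; ring
    · rw [hu _ h1]; ring
  have h1 : ∑ x ∈ Tr B, (el loc Y x.1 x.2 : ℂ) * (u x.1 * v x.2 * w (-(x.1 + x.2)))
      = ∑ x ∈ Tr Q, (el loc Y x.1 x.2 : ℂ) * (u x.1 * v x.2 * w (-(x.1 + x.2))) := by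
    rw [← Finset.sum_subset (Finset.inter_subset_left (s₁ := Tr B) (s₂ := Tr Q))
      (fun x hx hx2 => h0 x fun h => hx2 (Finset.mem_inter.2 h)),
      ← Finset.sum_subset (Finset.inter_subset_right (s₁ := Tr B) (s₂ := Tr Q))
      (fun x hx hx2 => h0 x fun h => hx2 (Finset.mem_inter.2 h))]
  rw [h1]
  refine (tri_box hK h j u v w).trans ?_
  have h2 : ∀ {f : K3 → ℂ} {F : ℝ}, (∀ k, ¬(k ∈ B ∧ k ∈ Q) → f k = 0) →
      ∑ k ∈ B, ‖f k‖ ^ 2 ≤ F ^ 2 → 0 ≤ F → Real.sqrt (∑ k ∈ Q, ‖f k‖ ^ 2) ≤ F := by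
    intro f F hf hF hF0
    rw [Real.sqrt_le_left hF0]
    refine le_trans ?_ hF
    rw [← Finset.sum_subset (Finset.inter_subset_right (s₁ := B) (s₂ := Q))
      (fun k hk hk2 => by
        rw [hf k fun h => hk2 (Finset.mem_inter.2 h), norm_zero]; norm_num)]
    exact Finset.sum_le_sum_of_subset_of_nonneg Finset.inter_subset_left
      fun _ _ _ => sq_nonneg _
  have e1 := h2 hu hU hU0
  have e2 := h2 hv hV hV0
  have e3 := h2 hw hW hW0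
  have k1 : Real.sqrt (∑ k ∈ Q, ‖u k‖ ^ 2) * Real.sqrt (∑ k ∈ Q, ‖v k‖ ^ 2) ≤ U * V :=
    mul_le_mul e1 e2 (Real.sqrt_nonneg _) hU0
  exact mul_le_mul_of_nonneg_left (mul_le_mul k1 e3 (Real.sqrt_nonneg _) (by positivity))
    (by positivity)

end

/-! ### Shells -/

/-- The index of the shell. -/
noncomputable def sh (k : K3) : ℕ := Nat.log 2 ⌊len k⌋₊

theorem sh_le {k : K3} (hk : k ≠ 0) : (2 : ℝ) ^ sh k ≤ len k := by
  have h1 : 1 ≤ ⌊len k⌋₊ := Nat.le_floor (by simpa using one_le_len hk)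
  have h2 := Nat.pow_log_le_self 2 (by omega : ⌊len k⌋₊ ≠ 0)
  have h3 : ((2 ^ Nat.log 2 ⌊len k⌋₊ : ℕ) : ℝ) ≤ (⌊len k⌋₊ : ℝ) := by exact_mod_cast h2
  push_cast at h3
  exact h3.trans (Nat.floor_le (len_nonneg k))

theorem lt_sh (k : K3) : len k < (2 : ℝ) ^ (sh k + 1) := by
  have h1 := Nat.lt_pow_succ_log_self (b := 2) (by norm_num) ⌊len k⌋₊
  have h2 := Nat.lt_floor_add_one (len k)
  have h3 : ⌊len k⌋₊ + 1 ≤ 2 ^ (sh k + 1) := h1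
  have h4 : ((⌊len k⌋₊ + 1 : ℕ) : ℝ) ≤ ((2 ^ (sh k + 1) : ℕ) : ℝ) := by exact_mod_cast h3
  push_cast at h4
  linarith

theorem mem_Bn_of_sh {k : K3} {J : ℕ} (h : sh k ≤ J) : k ∈ Bn (2 ^ (J + 1)) := by
  rw [mem_Bn]
  intro i
  have h1 := (abs_le_len k i).trans (lt_sh k).le
  have h2 : (2 : ℝ) ^ (sh k + 1) ≤ 2 ^ (J + 1) := pow_le_pow_right₀ (by norm_num) (by omega)
  have h3 : ((|k i| : ℤ) : ℝ) ≤ ((2 ^ (J + 1) : ℕ) : ℝ) := by
    rw [Int.cast_abs]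
    push_cast
    exact h1.trans h2
  have h4 : |k i| ≤ ((2 ^ (J + 1) : ℕ) : ℤ) := by exact_mod_cast h3
  exact abs_le.1 h4

/-- The energy of the shell `j`. -/
noncomputable def As (B : Finset K3) (a : Cf) (j : ℕ) : ℝ := by
  classical
  exact ∑ k ∈ B.filter (fun k => k ≠ 0 ∧ sh k = j), nsq (a k)

theorem As_nonneg (B : Finset K3) (a : Cf) (j : ℕ) : 0 ≤ As B a j :=
  Finset.sum_nonneg fun _ _ => nsq_nonneg _

theorem As_le (B : Finset K3) (a : Cf) (j : ℕ) : As B a j ≤ ∑ k ∈ B, nsq (a k) := by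
  classical
  exact Finset.sum_le_sum_of_subset_of_nonneg (Finset.filter_subset _ _) fun _ _ _ => nsq_nonneg _

/-- The component of the shell `j`. -/
noncomputable def ac (B : Finset K3) (a : Cf) (j : ℕ) (k : K3) : C3 := by
  classical
  exact if k ∈ B ∧ k ≠ 0 ∧ sh k = j then a k else 0

theorem ac_of {B : Finset K3} {a : Cf} {j : ℕ} {k : K3} (h : k ∈ B ∧ k ≠ 0 ∧ sh k = j) :
    ac B a j k = a k := by
  unfold ac; rw [if_pos h]

theorem ac_of_not {B : Finset K3} {a : Cf} {j : ℕ} {k : K3} (h : ¬(k ∈ B ∧ k ≠ 0 ∧ sh k = j)) :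
    ac B a j k = 0 := by
  unfold ac; rw [if_neg h]

theorem ac_supp {B : Finset K3} {a : Cf} {j J : ℕ} (hj : j ≤ J) {k : K3}
    (h : ¬(k ∈ B ∧ k ∈ Bn (2 ^ (J + 1)))) : ac B a j k = 0 := by
  refine ac_of_not fun h2 => h ⟨h2.1, mem_Bn_of_sh ?_⟩
  rw [h2.2.2]; exact hj

theorem sum_ac (B : Finset K3) (a : Cf) (j : ℕ) (i : Fin 3) {g : K3 → ℝ} {R : ℝ}
    (hg : ∀ k ∈ B, k ≠ 0 → sh k = j → |g k| ≤ R) :
    ∑ k ∈ B, ‖(g k : ℂ) * ac B a j k i‖ ^ 2 ≤ (R * Real.sqrt (As B a j)) ^ 2 := by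
  classical
  rw [mul_pow, Real.sq_sqrt (As_nonneg _ _ _)]
  unfold As
  rw [Finset.mul_sum, Finset.sum_filter]
  refine Finset.sum_le_sum fun k hk => ?_
  by_cases h : k ≠ 0 ∧ sh k = j
  · rw [if_pos h, ac_of ⟨hk, h⟩, norm_mul, mul_pow, Complex.norm_real, Real.norm_eq_abs]
    exact mul_le_mul (pow_le_pow_left₀ (abs_nonneg _) (hg k hk h.1 h.2) 2)
      (norm_apply_sq_le _ _) (sq_nonneg _) (sq_nonneg _)
  · rw [if_neg h, ac_of_not fun h2 => h h2.2]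
    simp

end Pool.Agent.Run7.h507.RT
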