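import Pool.Agent.Run7.h507.RT.Dya

/-!
The sum over the dyadic shells.
-/

set_option autoImplicit false

open MeasureTheory ProbabilityTheory Filter Topology

namespace Pool.Agent.Run7.h507.RT

variable {loc : Set (K3 × K3)} {Y : Sym2 (Multiset K3) → ℝ} {K : ℝ}

/-- The shells of a triad. -/
noncomputable def sh3 (x : K3 × K3) : ℕ × ℕ × ℕ := (sh x.1, sh x.2, sh (-(x.1 + x.2)))

theorem fiber_eq (hloc : ∀ x ∈ loc, x.1 ≠ 0 ∧ x.2 ≠ 0 ∧ -(x.1 + x.2) ≠ 0) (B : Finset K3) (a : Cf)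
    (s : ℝ) (τ : ℕ × ℕ × ℕ) {x : K3 × K3} (hx : x ∈ Tr B) :
    ∑ l : Fin 3, ∑ i : Fin 3, (el loc Y x.1 x.2 : ℂ)
        * ((((1 : ℝ) : ℂ) * ac B a τ.1 x.1 l) * (((1 : ℝ) : ℂ) * ac B a τ.2.1 x.2 i)
          * (((((-(x.1 + x.2)) l : ℝ) * jb (-(x.1 + x.2)) ^ (2 * s) : ℝ) : ℂ)
            * ac B a τ.2.2 (-(x.1 + x.2)) i))
      = if sh3 x = τ then ((jb (-(x.1 + x.2)) ^ (2 * s) : ℝ) : ℂ) * th (el loc Y) a a a x else 0 := by
  classical
  rw [mem_Tr] at hx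
  by_cases h1 : x ∈ loc
  · obtain ⟨n1, n2, n3⟩ := hloc x h1
    by_cases h2 : sh3 x = τ
    · rw [if_pos h2]
      have e1 : sh x.1 = τ.1 := congrArg Prod.fst h2
      have e2 : sh x.2 = τ.2.1 := congrArg (fun y => y.2.1) h2
      have e3 : sh (-(x.1 + x.2)) = τ.2.2 := congrArg (fun y => y.2.2) h2
      rw [ac_of ⟨hx.1, n1, e1⟩, ac_of ⟨hx.2.1, n2, e2⟩, ac_of ⟨hx.2.2, n3, e3⟩]
      simp only [th, kd, dc, Finset.sum_mul, Finset.mul_sum]
      rw [Finset.sum_comm]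
      refine Finset.sum_congr rfl fun l _ => Finset.sum_congr rfl fun i _ => ?_
      push_cast
      ring
    · rw [if_neg h2]
      refine Finset.sum_eq_zero fun l _ => Finset.sum_eq_zero fun i _ => ?_
      by_cases e1 : sh x.1 = τ.1
      · by_cases e2 : sh x.2 = τ.2.1
        · have e3 : sh (-(x.1 + x.2)) ≠ τ.2.2 := fun e3 => h2 (by
            unfold sh3
            rw [e1, e2, e3])
          rw [ac_of_not (k := -(x.1 + x.2)) fun h => e3 h.2.2]
          simp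
        · rw [ac_of_not (k := x.2) fun h => e2 h.2.2]
          simp
      · rw [ac_of_not (k := x.1) fun h => e1 h.2.2]
        simp
  · have h2 : el loc Y x.1 x.2 = 0 := el_of_notMem h1
    have h3 : th (el loc Y) a a a x = 0 := by simp [th, h2]
    rw [h3, h2]
    simp

/-- The bound for one triple of shells. -/
theorem fiber_bound (hK : 0 ≤ K) (h : FlatB loc Y K)
    (hloc : ∀ x ∈ loc, x.1 ≠ 0 ∧ x.2 ≠ 0 ∧ -(x.1 + x.2) ≠ 0) (B : Finset K3) (a : Cf)
    {s : ℝ} (hs : 0 ≤ s) (τ : ℕ × ℕ × ℕ) {J : ℕ} (h1 : τ.1 ≤ J) (h2 : τ.2.1 ≤ J) (h3 : τ.2.2 ≤ J) :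
    ‖∑ x ∈ Tr B, (if sh3 x = τ then
        ((jb (-(x.1 + x.2)) ^ (2 * s) : ℝ) : ℂ) * th (el loc Y) a a a x else 0)‖
      ≤ 9 * (343 * K * (J + 1) ^ 4 * (((2 : ℝ) ^ (J + 1)) ^ (2 * s + 1)
        * (Real.sqrt (As B a τ.1) * Real.sqrt (As B a τ.2.1) * Real.sqrt (As B a τ.2.2)))) := by
  classical
  rw [← Finset.sum_congr rfl fun x hx => fiber_eq (Y := Y) hloc B a s τ hx]
  rw [Finset.sum_comm]
  have hX : (0 : ℝ) < (2 : ℝ) ^ (J + 1) := by positivity
  have hR : 0 ≤ ((2 : ℝ) ^ (J + 1)) ^ (2 * s + 1) := Real.rpow_nonneg hX.le _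
  have hb : ∀ l i : Fin 3, ‖∑ x ∈ Tr B, (el loc Y x.1 x.2 : ℂ)
        * ((((1 : ℝ) : ℂ) * ac B a τ.1 x.1 l) * (((1 : ℝ) : ℂ) * ac B a τ.2.1 x.2 i)
          * (((((-(x.1 + x.2)) l : ℝ) * jb (-(x.1 + x.2)) ^ (2 * s) : ℝ) : ℂ)
            * ac B a τ.2.2 (-(x.1 + x.2)) i))‖
      ≤ 343 * K * (J + 1) ^ 4 * (((2 : ℝ) ^ (J + 1)) ^ (2 * s + 1)
        * (Real.sqrt (As B a τ.1) * Real.sqrt (As B a τ.2.1) * Real.sqrt (As B a τ.2.2))) := by
    intro l i
    have e := tri_supp hK h J B (u := fun k => ((1 : ℝ) : ℂ) * ac B a τ.1 k l)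
      (v := fun k => ((1 : ℝ) : ℂ) * ac B a τ.2.1 k i)
      (w := fun k => (((k l : ℝ) * jb k ^ (2 * s) : ℝ) : ℂ) * ac B a τ.2.2 k i)
      (U := 1 * Real.sqrt (As B a τ.1)) (V := 1 * Real.sqrt (As B a τ.2.1))
      (W := ((2 : ℝ) ^ (J + 1)) ^ (2 * s + 1) * Real.sqrt (As B a τ.2.2))
      (fun k hk => by rw [ac_supp h1 hk]; simp) (fun k hk => by rw [ac_supp h2 hk]; simp)
      (fun k hk => by rw [ac_supp h3 hk]; simp)
      (sum_ac B a τ.1 l (g := fun _ => 1) fun _ _ _ _ => by simp)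
      (sum_ac B a τ.2.1 i (g := fun _ => 1) fun _ _ _ _ => by simp)
      (sum_ac B a τ.2.2 i (g := fun k => (k l : ℝ) * jb k ^ (2 * s)) fun k _ hk hk2 => by
        have e1 : len k ≤ (2 : ℝ) ^ (J + 1) :=
          (lt_sh k).le.trans (pow_le_pow_right₀ (by norm_num) (by omega))
        have e2 : |(k l : ℝ)| ≤ (2 : ℝ) ^ (J + 1) := (abs_le_len k l).trans e1
        have e3 : jb k ≤ (2 : ℝ) ^ (J + 1) := by rw [jb_of_ne hk]; exact e1
        have e4 : jb k ^ (2 * s) ≤ ((2 : ℝ) ^ (J + 1)) ^ (2 * s) :=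
          Real.rpow_le_rpow (jb_pos k).le e3 (by positivity)
        rw [abs_mul, abs_of_nonneg (Real.rpow_nonneg (jb_pos k).le (2 * s)),
          Real.rpow_add_one hX.ne', mul_comm]
        exact mul_le_mul e4 e2 (abs_nonneg _) (Real.rpow_nonneg hX.le _))
      (by positivity) (by positivity) (by positivity)
    refine e.trans (le_of_eq ?_)
    ring
  calc _ ≤ ∑ l : Fin 3, ∑ i : Fin 3, ‖∑ x ∈ Tr B, (el loc Y x.1 x.2 : ℂ)
        * ((((1 : ℝ) : ℂ) * ac B a τ.1 x.1 l) * (((1 : ℝ) : ℂ) * ac B a τ.2.1 x.2 i)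
          * (((((-(x.1 + x.2)) l : ℝ) * jb (-(x.1 + x.2)) ^ (2 * s) : ℝ) : ℂ)
            * ac B a τ.2.2 (-(x.1 + x.2)) i))‖ := by
        refine (norm_sum_le _ _).trans (Finset.sum_le_sum fun l _ => ?_)
        rw [Finset.sum_comm]
        exact norm_sum_le _ _
    _ ≤ ∑ _l : Fin 3, ∑ _i : Fin 3, 343 * K * (J + 1) ^ 4 * (((2 : ℝ) ^ (J + 1)) ^ (2 * s + 1)
        * (Real.sqrt (As B a τ.1) * Real.sqrt (As B a τ.2.1) * Real.sqrt (As B a τ.2.2))) :=
        Finset.sum_le_sum fun l _ => Finset.sum_le_sum fun i _ => hb l i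
    _ = _ := by
        simp only [Finset.sum_const, Finset.card_univ, Fintype.card_fin, nsmul_eq_mul]
        ring

/-- The contribution of one shell. -/
noncomputable def gg (B : Finset K3) (a : Cf) (s : ℝ) (j : ℕ) : ℝ :=
  (j + 2) ^ 4 * ((2 : ℝ) ^ (j + 2)) ^ (2 * s + 1) * As B a j

theorem gg_nonneg (B : Finset K3) (a : Cf) (s : ℝ) (j : ℕ) : 0 ≤ gg B a s j := by
  unfold gg
  have := As_nonneg B a j
  positivity

/-- `j` is up to one the largest. -/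
def top' (j : ℕ) (τ : ℕ × ℕ × ℕ) : Prop := τ.1 ≤ j + 1 ∧ τ.2.1 ≤ j + 1 ∧ τ.2.2 ≤ j + 1

open Classical in
/-- The majorant for a triple of shells. -/
noncomputable def GG (B : Finset K3) (a : Cf) (s : ℝ) (τ : ℕ × ℕ × ℕ) : ℝ :=
  (if top' τ.1 τ then gg B a s τ.1 else 0) + (if top' τ.2.1 τ then gg B a s τ.2.1 else 0)
    + (if top' τ.2.2 τ then gg B a s τ.2.2 else 0)

theorem GG_nonneg (B : Finset K3) (a : Cf) (s : ℝ) (τ : ℕ × ℕ × ℕ) : 0 ≤ GG B a s τ := by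
  unfold GG
  have h := gg_nonneg B a s
  have := h τ.1
  have := h τ.2.1
  have := h τ.2.2
  split_ifs <;> positivity

theorem lev_le {s : ℝ} (hs : 0 ≤ s) {J j : ℕ} (h : J ≤ j + 1) :
    ((J : ℝ) + 1) ^ 4 * ((2 : ℝ) ^ (J + 1)) ^ (2 * s + 1)
      ≤ (j + 2) ^ 4 * ((2 : ℝ) ^ (j + 2)) ^ (2 * s + 1) := by
  have h1 : ((J : ℝ) + 1) ≤ j + 2 := by
    have : (J : ℝ) ≤ j + 1 := by exact_mod_cast h
    linarith
  have h2 : (2 : ℝ) ^ (J + 1) ≤ 2 ^ (j + 2) := pow_le_pow_right₀ (by norm_num) (by omega)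
  have h3 : ((2 : ℝ) ^ (J + 1)) ^ (2 * s + 1) ≤ ((2 : ℝ) ^ (j + 2)) ^ (2 * s + 1) :=
    Real.rpow_le_rpow (by positivity) h2 (by positivity)
  exact mul_le_mul (pow_le_pow_left₀ (by positivity) h1 4) h3 (Real.rpow_nonneg (by positivity) _)
    (by positivity)

theorem three_le {A₁ A₂ A₃ E Lv g₂ g₃ : ℝ} (_h1 : 0 ≤ A₁) (h2 : 0 ≤ A₂) (h3 : 0 ≤ A₃)
    (hE : A₁ ≤ E) (hL : 0 ≤ Lv) (hg2 : Lv * A₂ ≤ g₂) (hg3 : Lv * A₃ ≤ g₃) :
    Lv * (Real.sqrt A₁ * Real.sqrt A₂ * Real.sqrt A₃) ≤ Real.sqrt E * (g₂ + g₃) := by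
  have e1 : Real.sqrt A₁ ≤ Real.sqrt E := Real.sqrt_le_sqrt hE
  have e2 : Real.sqrt A₂ * Real.sqrt A₃ ≤ A₂ + A₃ := by
    have h4 := Real.sq_sqrt h2
    have h5 := Real.sq_sqrt h3
    nlinarith [sq_nonneg (Real.sqrt A₂ - Real.sqrt A₃), Real.sqrt_nonneg A₂, Real.sqrt_nonneg A₃]
  calc Lv * (Real.sqrt A₁ * Real.sqrt A₂ * Real.sqrt A₃)
      = Real.sqrt A₁ * (Lv * (Real.sqrt A₂ * Real.sqrt A₃)) := by ring
    _ ≤ Real.sqrt E * (Lv * (A₂ + A₃)) := by
        refine mul_le_mul e1 (mul_le_mul_of_nonneg_left e2 hL) (by positivity) (Real.sqrt_nonneg _)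
    _ ≤ Real.sqrt E * (g₂ + g₃) := by
        refine mul_le_mul_of_nonneg_left ?_ (Real.sqrt_nonneg _)
        linarith

/-- The shells of a triad are related. -/
theorem sh_tri {p q r : K3} (hp : p ≠ 0) (h : p + q + r = 0) : sh p ≤ max (sh q) (sh r) + 1 := by
  have h1 : len p ≤ len q + len r := by
    have e : p = -q + -r := by
      have : p = -(q + r) := by
        rw [eq_neg_iff_add_eq_zero, ← add_assoc]; exact h
      rw [this]; abel
    calc len p = len (-q + -r) := by rw [← e]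
      _ ≤ len (-q) + len (-r) := len_add_le _ _
      _ = _ := by rw [len_neg, len_neg]
  have h2 := sh_le hp
  have h3 := lt_sh q
  have h4 := lt_sh r
  have h5 : (2 : ℝ) ^ (sh q + 1) ≤ 2 ^ (max (sh q) (sh r) + 1) :=
    pow_le_pow_right₀ (by norm_num) (by omega)
  have h6 : (2 : ℝ) ^ (sh r + 1) ≤ 2 ^ (max (sh q) (sh r) + 1) :=
    pow_le_pow_right₀ (by norm_num) (by omega)
  have h7 : (2 : ℝ) ^ sh p < 2 ^ (max (sh q) (sh r) + 2) := by
    have e : (2 : ℝ) ^ (max (sh q) (sh r) + 2) = 2 * 2 ^ (max (sh q) (sh r) + 1) := by ring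
    rw [e]
    linarith
  have h8 := (pow_lt_pow_iff_right₀ (by norm_num : (1 : ℝ) < 2)).1 h7
  omega

/-- The bound by the majorant. -/
theorem fiber_GG (hK : 0 ≤ K) (h : FlatB loc Y K)
    (hloc : ∀ x ∈ loc, x.1 ≠ 0 ∧ x.2 ≠ 0 ∧ -(x.1 + x.2) ≠ 0) (B : Finset K3) (a : Cf)
    {s : ℝ} (hs : 0 ≤ s) (τ : ℕ × ℕ × ℕ) :
    ‖∑ x ∈ Tr B, (if sh3 x = τ then
        ((jb (-(x.1 + x.2)) ^ (2 * s) : ℝ) : ℂ) * th (el loc Y) a a a x else 0)‖
      ≤ 3087 * K * (Real.sqrt (∑ k ∈ B, nsq (a k)) * GG B a s τ) := by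
  classical
  by_cases hne : ∃ x ∈ loc, sh3 x = τ
  swap
  · have : ∑ x ∈ Tr B, (if sh3 x = τ then
        ((jb (-(x.1 + x.2)) ^ (2 * s) : ℝ) : ℂ) * th (el loc Y) a a a x else 0) = 0 := by
      refine Finset.sum_eq_zero fun x _ => ?_
      by_cases h2 : sh3 x = τ
      · have h3 : x ∉ loc := fun h3 => hne ⟨x, h3, h2⟩
        have h4 : el loc Y x.1 x.2 = 0 := el_of_notMem h3
        simp [th, h4]
      · rw [if_neg h2]
    rw [this, norm_zero]
    have := GG_nonneg B a s τ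
    positivity
  obtain ⟨x, hx, hτ⟩ := hne
  obtain ⟨n1, n2, n3⟩ := hloc x hx
  have e1 : sh x.1 = τ.1 := congrArg Prod.fst hτ
  have e2 : sh x.2 = τ.2.1 := congrArg (fun y => y.2.1) hτ
  have e3 : sh (-(x.1 + x.2)) = τ.2.2 := congrArg (fun y => y.2.2) hτ
  have t1 := sh_tri (q := x.2) (r := -(x.1 + x.2)) n1 (by abel)
  have t2 := sh_tri (q := x.1) (r := -(x.1 + x.2)) n2 (by abel)
  have t3 := sh_tri (q := x.1) (r := x.2) n3 (by abel)
  rw [e1, e2, e3] at t1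
  rw [e2, e1, e3] at t2
  rw [e3, e1, e2] at t3
  have hA := As_nonneg B a
  have hAE := As_le B a
  have hgg := gg_nonneg B a s
  set E := ∑ k ∈ B, nsq (a k) with hE
  set J := max τ.1 (max τ.2.1 τ.2.2) with hJ
  have hb := fiber_bound hK h hloc B a hs τ (J := J) (le_max_left _ _)
    ((le_max_left _ _).trans (le_max_right _ _)) ((le_max_right _ _).trans (le_max_right _ _))
  set Lv : ℝ := ((J : ℝ) + 1) ^ 4 * ((2 : ℝ) ^ (J + 1)) ^ (2 * s + 1) with hLv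
  have hLv0 : 0 ≤ Lv := by positivity
  have hlev : ∀ j : ℕ, J ≤ j + 1 → Lv * As B a j ≤ gg B a s j := by
    intro j hj
    exact mul_le_mul_of_nonneg_right (lev_le hs hj) (hA j)
  have key : Lv * (Real.sqrt (As B a τ.1) * Real.sqrt (As B a τ.2.1) * Real.sqrt (As B a τ.2.2))
      ≤ Real.sqrt E * GG B a s τ := by
    have hsE := Real.sqrt_nonneg E
    by_cases c1 : τ.1 ≤ τ.2.1 ∧ τ.1 ≤ τ.2.2
    · have g2 : J ≤ τ.2.1 + 1 := by omega
      have g3 : J ≤ τ.2.2 + 1 := by omega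
      have k := three_le (hA τ.1) (hA τ.2.1) (hA τ.2.2) (hAE τ.1) hLv0 (hlev _ g2) (hlev _ g3)
      refine k.trans (mul_le_mul_of_nonneg_left ?_ hsE)
      unfold GG
      rw [if_pos (show top' τ.2.1 τ from ⟨by omega, by omega, by omega⟩),
        if_pos (show top' τ.2.2 τ from ⟨by omega, by omega, by omega⟩)]
      have := hgg τ.1
      split_ifs <;> linarith
    · by_cases c2 : τ.2.1 ≤ τ.1 ∧ τ.2.1 ≤ τ.2.2
      · have g2 : J ≤ τ.1 + 1 := by omega
        have g3 : J ≤ τ.2.2 + 1 := by omega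
        have k := three_le (hA τ.2.1) (hA τ.1) (hA τ.2.2) (hAE τ.2.1) hLv0 (hlev _ g2)
          (hlev _ g3)
        rw [mul_comm (Real.sqrt (As B a τ.1))]
        refine k.trans (mul_le_mul_of_nonneg_left ?_ hsE)
        unfold GG
        rw [if_pos (show top' τ.1 τ from ⟨by omega, by omega, by omega⟩),
          if_pos (show top' τ.2.2 τ from ⟨by omega, by omega, by omega⟩)]
        have := hgg τ.2.1
        split_ifs <;> linarith
      · have g2 : J ≤ τ.1 + 1 := by omega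
        have g3 : J ≤ τ.2.1 + 1 := by omega
        have k := three_le (hA τ.2.2) (hA τ.1) (hA τ.2.1) (hAE τ.2.2) hLv0 (hlev _ g2)
          (hlev _ g3)
        have e : Real.sqrt (As B a τ.1) * Real.sqrt (As B a τ.2.1) * Real.sqrt (As B a τ.2.2)
            = Real.sqrt (As B a τ.2.2) * Real.sqrt (As B a τ.1) * Real.sqrt (As B a τ.2.1) := by
          ring
        rw [e]
        refine k.trans (mul_le_mul_of_nonneg_left ?_ hsE)
        unfold GG
        rw [if_pos (show top' τ.1 τ from ⟨by omega, by omega, by omega⟩),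
          if_pos (show top' τ.2.1 τ from ⟨by omega, by omega, by omega⟩)]
        have := hgg τ.2.2
        split_ifs <;> linarith
  calc _ ≤ _ := hb
    _ = 3087 * K * (Lv * (Real.sqrt (As B a τ.1) * Real.sqrt (As B a τ.2.1)
          * Real.sqrt (As B a τ.2.2))) := by rw [hLv]; ring
    _ ≤ _ := mul_le_mul_of_nonneg_left key (by positivity)

open Classical in
/-- The sum of the majorants. -/
theorem sum_GG (B : Finset K3) (a : Cf) (s : ℝ) (M : ℕ) :
    ∑ τ ∈ Finset.range M ×ˢ Finset.range M ×ˢ Finset.range M, GG B a s τ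
      ≤ 3 * ∑ j ∈ Finset.range M, ((j : ℝ) + 2) ^ 2 * gg B a s j := by
  have hgg := gg_nonneg B a s
  have hcnt : ∀ (j : ℕ) (f : ℕ → ℕ → Prop), (∀ x y, f x y → x ≤ j + 1 ∧ y ≤ j + 1) →
      ∑ x ∈ Finset.range M, ∑ y ∈ Finset.range M, (if f x y then gg B a s j else 0)
        ≤ ((j : ℝ) + 2) ^ 2 * gg B a s j := by
    intro j f hf
    rw [← Finset.sum_product' (Finset.range M) (Finset.range M)
      (fun x y => if f x y then gg B a s j else 0), ← Finset.sum_filter, Finset.sum_const,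
      nsmul_eq_mul]
    refine mul_le_mul_of_nonneg_right ?_ (hgg j)
    have h1 : (Finset.range M ×ˢ Finset.range M).filter (fun x => f x.1 x.2)
        ⊆ Finset.range (j + 2) ×ˢ Finset.range (j + 2) := by
      intro x hx
      have h2 := hf _ _ (Finset.mem_filter.1 hx).2
      rw [Finset.mem_product, Finset.mem_range, Finset.mem_range]
      omega
    have h2 := Finset.card_le_card h1
    rw [Finset.card_product, Finset.card_range] at h2
    have h3 : (((Finset.range M ×ˢ Finset.range M).filter (fun x => f x.1 x.2)).card : ℝ)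
        ≤ (((j + 2) * (j + 2) : ℕ) : ℝ) := by exact_mod_cast h2
    push_cast at h3
    rw [pow_two]
    exact h3
  have e1 : ∑ τ ∈ Finset.range M ×ˢ Finset.range M ×ˢ Finset.range M,
      (if top' τ.1 τ then gg B a s τ.1 else 0) ≤ ∑ j ∈ Finset.range M, ((j : ℝ) + 2) ^ 2 * gg B a s j := by
    rw [Finset.sum_product]
    refine Finset.sum_le_sum fun j _ => ?_
    rw [Finset.sum_product]
    exact hcnt j (fun x y => top' j (j, x, y)) fun x y h => ⟨h.2.1, h.2.2⟩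
  have e2 : ∑ τ ∈ Finset.range M ×ˢ Finset.range M ×ˢ Finset.range M,
      (if top' τ.2.1 τ then gg B a s τ.2.1 else 0)
        ≤ ∑ j ∈ Finset.range M, ((j : ℝ) + 2) ^ 2 * gg B a s j := by
    rw [Finset.sum_product, Finset.sum_comm' (t' := Finset.range M ×ˢ Finset.range M)
      (s' := fun _ => Finset.range M) (by intro x y; tauto), Finset.sum_product]
    refine Finset.sum_le_sum fun j _ => ?_
    exact hcnt j (fun y x => top' j (x, j, y)) fun x y h => ⟨h.2.2, h.1⟩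
  have e3 : ∑ τ ∈ Finset.range M ×ˢ Finset.range M ×ˢ Finset.range M,
      (if top' τ.2.2 τ then gg B a s τ.2.2 else 0)
        ≤ ∑ j ∈ Finset.range M, ((j : ℝ) + 2) ^ 2 * gg B a s j := by
    rw [Finset.sum_product, Finset.sum_comm' (t' := Finset.range M ×ˢ Finset.range M)
      (s' := fun _ => Finset.range M) (by intro x y; tauto), Finset.sum_product_right]
    refine Finset.sum_le_sum fun j _ => ?_
    exact hcnt j (fun y x => top' j (x, y, j)) fun x y h => ⟨h.2.1, h.1⟩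
  unfold GG
  rw [Finset.sum_add_distrib, Finset.sum_add_distrib]
  linarith

end Pool.Agent.Run7.h507.RT
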