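import Pool.Agent.Run7.h507.RT.Dya3

/-!
Random local triads and deterministic nonlocal triads.
-/

set_option autoImplicit false

open MeasureTheory ProbabilityTheory Filter Topology

namespace Pool.Agent.Run7.h507.RT

/-- The weight: one for the nonlocal triads, `Y` for the local ones. -/
noncomputable def eta (θ : ℝ) (Y : Sym2 (Multiset K3) → ℝ) (p q : K3) : ℝ := by
  classical
  exact if mn p q ≤ mx p q ^ θ then 1 else Y (lab p q)

/-- The local triads. -/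
def loc (θ : ℝ) : Set (K3 × K3) := {x | mx x.1 x.2 ^ θ < mn x.1 x.2}

theorem mn_symm (p q : K3) : mn q p = mn p q := by
  unfold mn
  rw [add_comm q p]
  rw [← min_assoc, ← min_assoc, min_comm (len q)]

theorem mx_symm (p q : K3) : mx q p = mx p q := by
  unfold mx
  rw [add_comm q p]
  rw [← max_assoc, ← max_assoc, max_comm (len q)]

theorem mn_third (p q : K3) : mn p (-(p + q)) = mn p q := by
  unfold mn
  have e : p + -(p + q) = -q := by abel
  rw [e, len_neg, len_neg, min_comm (len (p + q))]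

theorem mx_third (p q : K3) : mx p (-(p + q)) = mx p q := by
  unfold mx
  have e : p + -(p + q) = -q := by abel
  rw [e, len_neg, len_neg, max_comm (len (p + q))]

theorem mn_neg (p q : K3) : mn (-p) (-q) = mn p q := by
  unfold mn
  have e : -p + -q = -(p + q) := by abel
  rw [e, len_neg, len_neg, len_neg]

theorem mx_neg (p q : K3) : mx (-p) (-q) = mx p q := by
  unfold mx
  have e : -p + -q = -(p + q) := by abel
  rw [e, len_neg, len_neg, len_neg]

theorem isWeight_eta (θ : ℝ) {Y : Sym2 (Multiset K3) → ℝ} (hY : ∀ l, |Y l| ≤ 1) :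
    IsWeight (eta θ Y) := by
  refine ⟨fun p q => ?_, fun p q => ?_, fun p q => ?_, fun p q => ?_⟩
  · unfold eta; rw [mn_symm, mx_symm, lab_symm]
  · unfold eta; rw [mn_third, mx_third, lab_third]
  · unfold eta; rw [mn_neg, mx_neg, lab_neg]
  · unfold eta
    split_ifs
    · simp
    · exact hY _

theorem isWeight_zero (θ : ℝ) : IsWeight (eta θ fun _ => 0) := isWeight_eta θ fun _ => by simp

theorem mx_nonneg (p q : K3) : 0 ≤ mx p q := (len_nonneg p).trans (le_max_left _ _)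

theorem mn_nonneg (p q : K3) : 0 ≤ mn p q :=
  le_min (len_nonneg p) (le_min (len_nonneg q) (len_nonneg _))

theorem eta_eq (θ : ℝ) (Y : Sym2 (Multiset K3) → ℝ) (p q : K3) :
    eta θ Y p q = eta θ (fun _ => 0) p q + el (loc θ) Y p q := by
  unfold eta
  by_cases h : mn p q ≤ mx p q ^ θ
  · have h2 : (p, q) ∉ loc θ := fun h2 => absurd h (not_le.2 h2)
    rw [if_pos h, if_pos h, el_of_notMem h2, add_zero]
  · have h2 : (p, q) ∈ loc θ := not_le.1 h
    rw [if_neg h, if_neg h, el_of_mem h2, zero_add]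

theorem loc_ne {θ : ℝ} : ∀ x ∈ loc θ, x.1 ≠ 0 ∧ x.2 ≠ 0 ∧ -(x.1 + x.2) ≠ 0 := by
  intro x hx
  have h1 : 0 < mn x.1 x.2 := (Real.rpow_nonneg (mx_nonneg _ _) θ).trans_lt hx
  unfold mn at h1
  rw [lt_min_iff, lt_min_iff] at h1
  refine ⟨fun h => ?_, fun h => ?_, fun h => ?_⟩
  · rw [h, len_zero] at h1
    exact lt_irrefl _ h1.1
  · rw [h, len_zero] at h1
    exact lt_irrefl _ h1.2.1
  · have h2 : x.1 + x.2 = 0 := neg_eq_zero.1 h
    rw [h2, len_zero] at h1
    exact lt_irrefl _ h1.2.2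

theorem SubAt.mono {η : K3 → K3 → ℝ} {Ψ Ψ' : K3 → ℝ} {C c s : ℝ} (h : SubAt η Ψ C s) (hC : 0 ≤ C)
    (hΨ : ∀ k, Ψ k ≤ c * Ψ' k) : SubAt η Ψ' (C * c) s := by
  intro B hB a ha hh hd
  refine (h B hB a ha hh hd).trans ?_
  have hE := Real.sqrt_nonneg (∑ k ∈ B, nsq (a k))
  have h1 : ∑ k ∈ B, jb k ^ (2 * s) * Ψ k * nsq (a k)
      ≤ c * ∑ k ∈ B, jb k ^ (2 * s) * Ψ' k * nsq (a k) := by
    rw [Finset.mul_sum]
    refine Finset.sum_le_sum fun k _ => ?_
    have h2 := mul_le_mul_of_nonneg_left (hΨ k) (Real.rpow_nonneg (jb_pos k).le (2 * s))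
    have h3 := mul_le_mul_of_nonneg_right h2 (nsq_nonneg (a k))
    linarith
  calc C * Real.sqrt (∑ k ∈ B, nsq (a k)) * ∑ k ∈ B, jb k ^ (2 * s) * Ψ k * nsq (a k)
      ≤ C * Real.sqrt (∑ k ∈ B, nsq (a k)) * (c * ∑ k ∈ B, jb k ^ (2 * s) * Ψ' k * nsq (a k)) :=
        mul_le_mul_of_nonneg_left h1 (by positivity)
    _ = _ := by ring

theorem SubAt.add {η η' : K3 → K3 → ℝ} {Ψ : K3 → ℝ} {C C' s : ℝ} (h : SubAt η Ψ C s)
    (h' : SubAt η' Ψ C' s) : SubAt (fun p q => η p q + η' p q) Ψ (C + C') s := by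
  intro B hB a ha hh hd
  have e : ∀ x, th (fun p q => η p q + η' p q) a a a x = th η a a a x + th η' a a a x := by
    intro x
    simp only [th]
    push_cast
    ring
  simp only [e, mul_add, Finset.sum_add_distrib]
  refine (norm_add_le _ _).trans ?_
  have h1 := h B hB a ha hh hd
  have h2 := h' B hB a ha hh hd
  linarith

/-- The power function. -/
noncomputable def Ph (θ x : ℝ) : ℝ := (max x 0) ^ (5 / 2 * θ)

theorem Ph_mono {θ : ℝ} (hθ : 0 ≤ θ) : Monotone (Ph θ) := fun x y h =>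
  Real.rpow_le_rpow (le_max_right _ _) (max_le_max h le_rfl) (by positivity)

theorem Ph_nonneg (θ x : ℝ) : 0 ≤ Ph θ x := Real.rpow_nonneg (le_max_right _ _) _

/-- The nonlocal triads. -/
theorem nonlocal_eta {θ : ℝ} (hθ : 0 ≤ θ) {β : ℝ} (hβ : 5 / 2 * θ ≤ β) (S : ℝ) :
    ∃ C : ℝ, 0 ≤ C ∧ ∀ s ∈ Set.Icc 0 S, SubAt (eta θ fun _ => 0) (fun k => jb k ^ β) C s := by
  refine ⟨36 * (9 * max 1 (2 * S) * 4 ^ S) * 2 ^ (5 / 2 * θ), by positivity, fun s hs => ?_⟩
  have h1 := nonlocal (isWeight_zero θ) (Ph_mono hθ) (Ph_nonneg θ) (fun p q h => by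
    have h2 : mn p q ≤ mx p q ^ θ := by
      by_contra hcon
      apply h
      unfold eta
      rw [if_neg hcon]
    unfold Ph
    rw [max_eq_left (mx_nonneg p q)]
    have h3 := Real.rpow_le_rpow (mn_nonneg p q) h2 (by norm_num : (0 : ℝ) ≤ 5 / 2)
    rw [← Real.rpow_mul (mx_nonneg p q), mul_comm θ] at h3
    exact h3) hs.1
  have h2 : ∀ k, Ph θ (2 * jb k) ≤ 2 ^ (5 / 2 * θ) * jb k ^ β := by
    intro k
    have h3 := jb_pos k
    unfold Ph
    rw [max_eq_left (by positivity), Real.mul_rpow (by norm_num) h3.le]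
    exact mul_le_mul_of_nonneg_left (Real.rpow_le_rpow_of_exponent_le (one_le_jb k) hβ)
      (by positivity)
  have h3 := h1.mono (by have := cs_nonneg s; positivity) h2
  have h4 : cs s ≤ 9 * max 1 (2 * S) * 4 ^ S := by
    unfold cs
    have e1 : (4 : ℝ) ^ s ≤ 4 ^ S := Real.rpow_le_rpow_of_exponent_le (by norm_num) hs.2
    have e2 : max 1 (2 * s) ≤ max 1 (2 * S) := max_le_max le_rfl (by linarith [hs.2])
    gcongr
  intro B hB a ha hh hd
  refine (h3 B hB a ha hh hd).trans ?_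
  have h5 : 0 ≤ ∑ k ∈ B, jb k ^ (2 * s) * jb k ^ β * nsq (a k) :=
    Finset.sum_nonneg fun k _ => mul_nonneg (mul_nonneg (Real.rpow_nonneg (jb_pos k).le _)
      (Real.rpow_nonneg (jb_pos k).le _)) (nsq_nonneg _)
  gcongr

/-- The mixed weight is subordinate. -/
theorem sub_eta {θ : ℝ} (hθ : 0 ≤ θ) {Y : Sym2 (Multiset K3) → ℝ} {K : ℝ} (hK : 0 ≤ K)
    (h : FlatB (loc θ) Y K) {β : ℝ} (hβ1 : 1 < β) (hβ : 5 / 2 * θ ≤ β) :
    Sub (eta θ Y) (fun k => jb k ^ β) := by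
  intro S
  obtain ⟨C₁, hC₁, h₁⟩ := nonlocal_eta hθ hβ S
  obtain ⟨C₂, hC₂, h₂⟩ := local_sub hK h loc_ne (by linarith : 0 < β - 1) S
  refine ⟨C₁ + C₂, by positivity, fun s hs => ?_⟩
  have e : (1 : ℝ) + (β - 1) = β := by ring
  rw [e] at h₂
  have e2 : eta θ Y = fun p q => eta θ (fun _ => 0) p q + el (loc θ) Y p q := by
    funext p q
    exact eta_eq θ Y p q
  rw [e2]
  exact (h₁ s hs).add (h₂ s hs)

/-- Almost surely. -/
theorem ae_sub {Ω : Type*} [MeasurableSpace Ω] {P : Measure Ω} [IsProbabilityMeasure P]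
    {X : Sym2 (Multiset K3) → Ω → ℝ} (hX : Signs P X) {θ : ℝ} (hθ : 0 ≤ θ) :
    ∀ᵐ ω ∂P, ∀ β : ℝ, 1 < β → 5 / 2 * θ ≤ β →
      Sub (eta θ fun l => X l ω) (fun k => jb k ^ β) := by
  filter_upwards [ae_flat hX (loc θ)] with ω hω β h1 h2
  obtain ⟨K, hK, hK2⟩ := hω
  have hF : FlatB (loc θ) (fun l => X l ω) K := fun j A B C hA hB hC => hK2 j A B C hA hB hC
  exact sub_eta hθ hK hF h1 h2

end Pool.Agent.Run7.h507.RT
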