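import Pool.Agent.Run7.h507.RT.Uni2
import Pool.Agent.Run7.h507.RT.Mix

/-!
The energy equality and the continuity at time zero.
-/

set_option autoImplicit false

open MeasureTheory Set Filter Topology
open scoped ContDiff ComplexConjugate NNReal

namespace Pool.Agent.Run7.h507.RT

variable {η : K3 → K3 → ℝ}

/-- The nonlinear term does not change the energy. -/
theorem tsum_ip_zero (hη : IsWeight η) {a : Cf} {A : ℝ} (ha : ∀ k, jb k ^ 8 * ‖a k‖ ≤ A)
    (hd : Dv a) (hh : Herm a) (hs : Summable fun k => ip (nl η a a k) (a k)) :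
    ∑' k, ip (nl η a a k) (a k) = 0 := by
  have h1 : Tendsto (fun n => ∑ k ∈ Bn n, ip (nl η a a k) (a k)) atTop
      (𝓝 (∑' k, ip (nl η a a k) (a k))) := by
    refine hs.hasSum.comp ?_
    refine tendsto_atTop.2 fun F => ?_
    choose N hN using exists_Bn
    filter_upwards [eventually_ge_atTop (F.sup N)] with n hn k hk
    exact hN k n ((Finset.le_sup hk).trans hn)
  have h2 : Tendsto (fun n => ∑ k ∈ Bn n, ip (nl η a a k) (a k)) atTop (𝓝 0) := by
    refine squeeze_zero_norm' ?_ (tendsto_const_div_atTop_nhds_zero_nat (144 * A ^ 3 * Z6 ^ 2))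
    filter_upwards [eventually_gt_atTop 0] with n hn
    rw [Real.norm_eq_abs]
    exact transport_small hη ha ha hd hd hh hn
  exact tendsto_nhds_unique h1 h2

/-- The energy equality. -/
theorem energy_deriv (hη : IsWeight η) {ν α : ℝ} (hν : 0 ≤ ν) (hα : 0 ≤ α) {a : ℝ → Cf}
    (ha : Sol η ν α (Ioi 0) a) {t : ℝ} (ht : 0 < t) :
    HasDerivAt (fun s => ∑' k, nsq (a s k)) (-(2 * ∑' k, lam ν α k * nsq (a t k))) t := by
  have hI : ∀ τ ∈ Ioo (t / 2) (t + 1), τ ∈ Ioi (0 : ℝ) := fun τ hτ => by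
    have := hτ.1
    show (0 : ℝ) < τ
    linarith
  have h1 : t / 2 ∈ Ioi (0 : ℝ) := by show (0 : ℝ) < t / 2; linarith
  have h2 : t + 1 ∈ Ioi (0 : ℝ) := by show (0 : ℝ) < t + 1; linarith
  obtain ⟨M, hM⟩ := rhs_bound hη.bdd hν hα 0
  obtain ⟨A1, hA1⟩ := ha.bound h1 h2 M
  obtain ⟨C, hC⟩ := hM A1
  obtain ⟨A, hA⟩ := ha.bound h1 h2 8
  have hmem : ∀ τ ∈ Ioo (t / 2) (t + 1), τ ∈ Icc (t / 2) (t + 1) := fun τ hτ => ⟨hτ.1.le, hτ.2.le⟩
  have htm : t ∈ Ioo (t / 2) (t + 1) := ⟨by linarith, by linarith⟩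
  have hA8 := hA t (hmem t htm)
  have hder : ∀ k, ∀ τ ∈ Ioo (t / 2) (t + 1), HasDerivAt (fun s => nsq (a s k))
      (2 * ip (rhs η ν α (a τ) k) (a τ k)) τ := by
    intro k τ hτ
    exact hasDerivAt_nsq ((ha.der τ (hI τ hτ) k).hasDerivAt (Ioi_mem_nhds (hI τ hτ)))
  have hbd : ∀ k, ∀ τ ∈ Ioo (t / 2) (t + 1), ‖2 * ip (rhs η ν α (a τ) k) (a τ k)‖
      ≤ 6 * C * A * (jb k ^ 6)⁻¹ := by
    intro k τ hτ
    have e1 := hC (a τ) (hA1 τ (hmem τ hτ)) k
    rw [pow_zero, one_mul] at e1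
    have e2 : jb k ^ 6 * ‖a τ k‖ ≤ A := (pow_mono (by omega)).trans (hA τ (hmem τ hτ) k)
    have h0 := jb_pos k
    have e3 := abs_ip_le (rhs η ν α (a τ) k) (a τ k)
    have hC0 : 0 ≤ C := (norm_nonneg _).trans e1
    rw [Real.norm_eq_abs, abs_mul, abs_two, ← div_eq_mul_inv, le_div_iff₀ (by positivity)]
    calc 2 * |ip (rhs η ν α (a τ) k) (a τ k)| * jb k ^ 6
        ≤ 2 * (3 * (C * ‖a τ k‖)) * jb k ^ 6 := by
          refine mul_le_mul_of_nonneg_right (mul_le_mul_of_nonneg_left (e3.trans ?_) (by norm_num))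
            (by positivity)
          refine mul_le_mul_of_nonneg_left (mul_le_mul_of_nonneg_right e1 (norm_nonneg _))
            (by norm_num)
      _ = 6 * C * (jb k ^ 6 * ‖a τ k‖) := by ring
      _ ≤ 6 * C * A := mul_le_mul_of_nonneg_left e2 (by positivity)
  have hsum : Summable fun k => 6 * C * A * (jb k ^ 6)⁻¹ := summable_jb.mul_left _
  have hd := hasDerivAt_tsum_of_isPreconnected hsum isOpen_Ioo isPreconnected_Ioo hder hbd htm
    (summable_nsq_of hA8) htm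
  have e : ∑' k, 2 * ip (rhs η ν α (a t) k) (a t k) = -(2 * ∑' k, lam ν α k * nsq (a t k)) := by
    have s1 : Summable fun k => 2 * ip (rhs η ν α (a t) k) (a t k) :=
      Summable.of_norm_bounded hsum fun k => hbd k t htm
    have s2 : Summable fun k => lam ν α k * nsq (a t k) := by
      obtain ⟨n, hn⟩ := exists_nat_ge (2 * α)
      obtain ⟨A3, hA3⟩ := ha.bound h1 h2 (n + 3)
      have hA3' := hA3 t (hmem t htm)
      refine Summable.of_nonneg_of_le (fun k => mul_nonneg (lam_nonneg hν α k) (nsq_nonneg _))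
        (fun k => ?_) (summable_jb.mul_left (3 * ν * A3 ^ 2))
      have h0 := jb_pos k
      rw [← div_eq_mul_inv, le_div_iff₀ (by positivity)]
      have e1 : lam ν α k ≤ ν * jb k ^ n := mul_le_mul_of_nonneg_left (sq_rpow_le hα hn k) hν
      calc lam ν α k * nsq (a t k) * jb k ^ 6
          ≤ ν * jb k ^ n * (3 * ‖a t k‖ ^ 2) * jb k ^ 6 := by
            refine mul_le_mul_of_nonneg_right ?_ (by positivity)
            exact mul_le_mul e1 (nsq_le _) (nsq_nonneg _) (by positivity)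
        _ ≤ ν * jb k ^ (2 * n) * (3 * ‖a t k‖ ^ 2) * jb k ^ 6 := by
            have : jb k ^ n ≤ jb k ^ (2 * n) := pow_le_pow_right₀ (one_le_jb k) (by omega)
            gcongr
        _ = 3 * ν * (jb k ^ (n + 3) * ‖a t k‖) ^ 2 := by ring
        _ ≤ 3 * ν * A3 ^ 2 := by
            have := pow_le_pow_left₀ (by positivity) (hA3' k) 2
            gcongr
    have s3 : Summable fun k => ip (nl η (a t) (a t) k) (a t k) := by
      have : (fun k => ip (nl η (a t) (a t) k) (a t k))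
          = fun k => -(lam ν α k * nsq (a t k)) - 1 / 2 * (2 * ip (rhs η ν α (a t) k) (a t k)) := by
        funext k
        rw [ip_rhs]
        ring
      rw [this]
      exact s2.neg.sub (s1.mul_left _)
    have h3 := tsum_ip_zero hη hA8 (ha.div t (hI t htm)) (ha.herm t (hI t htm)) s3
    have h4 : (fun k => 2 * ip (rhs η ν α (a t) k) (a t k))
        = fun k => -(2 * (lam ν α k * nsq (a t k))) - 2 * ip (nl η (a t) (a t) k) (a t k) := by
      funext k
      rw [ip_rhs]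
      ring
    rw [h4, (s2.mul_left 2).neg.tsum_sub (s3.mul_left 2), tsum_neg, tsum_mul_left, tsum_mul_left,
      h3, mul_zero, sub_zero]
  rw [e] at hd
  exact hd

theorem nsq_add_le (v w : C3) : nsq (v - w) ≤ 2 * nsq v + 2 * nsq w := by
  unfold nsq
  rw [Finset.mul_sum, Finset.mul_sum, ← Finset.sum_add_distrib]
  refine Finset.sum_le_sum fun i _ => ?_
  have h1 := norm_sub_le (v i) (w i)
  have h2 := norm_nonneg (v i - w i)
  rw [Pi.sub_apply]
  nlinarith [sq_nonneg (‖v i‖ - ‖w i‖)]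

/-- Strong continuity at time zero. -/
theorem tendsto_zero {L : ℝ → Cf} {c : Cf} (hc : Summable fun k => nsq (c k))
    (hE : ∀ t, 0 ≤ t → ∀ F : Finset K3, ∑ k ∈ F, nsq (L t k) ≤ ∑' k, nsq (c k))
    (hk : ∀ k, ∃ C : ℝ, ∀ t, 0 ≤ t → ‖L t k - c k‖ ≤ C * t) :
    Tendsto (fun t => ∑' k, nsq (L t k - c k)) (𝓝[>] 0) (𝓝 0) := by
  classical
  set E := ∑' k, nsq (c k) with hEd
  have hcf : ∀ k, Tendsto (fun t => L t k) (𝓝[>] 0) (𝓝 (c k)) := by
    intro k
    obtain ⟨C, hC⟩ := hk k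
    rw [tendsto_iff_norm_sub_tendsto_zero]
    have h1 : Tendsto (fun t : ℝ => C * t) (𝓝[>] 0) (𝓝 0) := by
      have : Tendsto (fun t : ℝ => C * t) (𝓝 0) (𝓝 (C * 0)) :=
        (continuous_const.mul continuous_id).tendsto 0
      rw [mul_zero] at this
      exact this.mono_left nhdsWithin_le_nhds
    refine squeeze_zero' (Eventually.of_forall fun _ => norm_nonneg _) ?_ h1
    filter_upwards [self_mem_nhdsWithin] with t ht
    exact hC t (le_of_lt ht)
  rw [Metric.tendsto_nhds]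
  intro ε hε
  obtain ⟨F, hF⟩ : ∃ F : Finset K3, E - ε / 8 < ∑ k ∈ F, nsq (c k) := by
    have h1 : Tendsto (fun F : Finset K3 => ∑ k ∈ F, nsq (c k)) atTop (𝓝 E) := hc.hasSum
    obtain ⟨F, hF⟩ := (h1.eventually (lt_mem_nhds (by linarith : E - ε / 8 < E))).exists
    exact ⟨F, hF⟩
  have h1 : Tendsto (fun t => ∑ k ∈ F, nsq (L t k)) (𝓝[>] 0) (𝓝 (∑ k ∈ F, nsq (c k))) :=
    tendsto_finsetSum _ fun k _ => (nsq_continuous.tendsto _).comp (hcf k)
  have h2 : Tendsto (fun t => ∑ k ∈ F, nsq (L t k - c k)) (𝓝[>] 0) (𝓝 0) := by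
    have h3 : Tendsto (fun t => ∑ k ∈ F, nsq (L t k - c k)) (𝓝[>] 0)
        (𝓝 (∑ k ∈ F, nsq (c k - c k))) :=
      tendsto_finsetSum _ fun k _ => (nsq_continuous.tendsto _).comp ((hcf k).sub tendsto_const_nhds)
    simpa [nsq_zero] using h3
  filter_upwards [h1.eventually (lt_mem_nhds (by linarith : ∑ k ∈ F, nsq (c k) - ε / 8
    < ∑ k ∈ F, nsq (c k))), h2.eventually (gt_mem_nhds (by linarith : 0 < ε / 8)),
    self_mem_nhdsWithin] with t h3 h4 ht
  have ht0 : 0 ≤ t := le_of_lt ht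
  have hle : ∀ G : Finset K3, ∑ k ∈ G, nsq (L t k - c k) ≤ 7 / 8 * ε := by
    intro G
    have e1 : ∑ k ∈ G, nsq (L t k - c k)
        ≤ ∑ k ∈ F, nsq (L t k - c k) + ∑ k ∈ G \ F, nsq (L t k - c k) := by
      rw [← Finset.sum_union Finset.disjoint_sdiff]
      refine Finset.sum_le_sum_of_subset_of_nonneg (fun k hk => ?_) fun _ _ _ => nsq_nonneg _
      by_cases h : k ∈ F
      · exact Finset.mem_union_left _ h
      · exact Finset.mem_union_right _ (Finset.mem_sdiff.2 ⟨hk, h⟩)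
    have e2 : ∑ k ∈ G \ F, nsq (L t k - c k)
        ≤ 2 * ∑ k ∈ G \ F, nsq (L t k) + 2 * ∑ k ∈ G \ F, nsq (c k) := by
      rw [Finset.mul_sum, Finset.mul_sum, ← Finset.sum_add_distrib]
      exact Finset.sum_le_sum fun k _ => nsq_add_le _ _
    have e3 : ∑ k ∈ G \ F, nsq (L t k) + ∑ k ∈ F, nsq (L t k) ≤ E := by
      rw [add_comm, ← Finset.sum_union Finset.disjoint_sdiff]
      exact hE t ht0 _
    have e4 : ∑ k ∈ G \ F, nsq (c k) + ∑ k ∈ F, nsq (c k) ≤ E := by
      rw [add_comm, ← Finset.sum_union Finset.disjoint_sdiff]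
      exact hc.sum_le_tsum _ fun _ _ => nsq_nonneg _
    linarith
  have hs : Summable fun k => nsq (L t k - c k) :=
    summable_of_sum_le (fun k => nsq_nonneg _) hle
  have h5 := hs.tsum_le_of_sum_le hle
  have h6 : 0 ≤ ∑' k, nsq (L t k - c k) := tsum_nonneg fun _ => nsq_nonneg _
  rw [Real.dist_eq, sub_zero, abs_of_nonneg h6]
  linarith

end Pool.Agent.Run7.h507.RT
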