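import Pool.Agent.Run7.h507.RT.Gal

/-!
The weighted energy estimate for the Galerkin approximations.
-/

set_option autoImplicit false

open MeasureTheory Set Filter Topology
open scoped ContDiff ComplexConjugate NNReal

namespace Pool.Agent.Run7.h507.RT

variable {B : Finset K3}

/-- The bound of the weighted contributions of the triads, for the exponent `s`. -/
def SubAt (η : K3 → K3 → ℝ) (Ψ : K3 → ℝ) (C s : ℝ) : Prop :=
  ∀ (B : Finset K3), (∀ k ∈ B, -k ∈ B) → ∀ a : Cf, (∀ k ∉ B, a k = 0) → Herm a → Dv a →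
    ‖∑ x ∈ Tr B, ((jb (-(x.1 + x.2)) ^ (2 * s) : ℝ) : ℂ) * th η a a a x‖
      ≤ C * Real.sqrt (∑ k ∈ B, nsq (a k)) * ∑ k ∈ B, jb k ^ (2 * s) * Ψ k * nsq (a k)

theorem hasDerivAt_nsq {a : ℝ → C3} {v : C3} {t : ℝ} (h : HasDerivAt a v t) :
    HasDerivAt (fun s => nsq (a s)) (2 * ip v (a t)) t := by
  unfold nsq ip
  rw [Finset.mul_sum]
  refine HasDerivAt.fun_sum fun i _ => ?_
  have h1 : HasDerivAt (fun s => a s i) (v i) t := (hasDerivAt_pi (φ := a)).1 h i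
  have h2 := h1.norm_sq
  rw [Complex.inner] at h2
  exact h2

theorem hasDerivWithinAt_nsq {a : ℝ → C3} {v : C3} {t : ℝ} {I : Set ℝ}
    (h : HasDerivWithinAt a v I t) :
    HasDerivWithinAt (fun s => nsq (a s)) (2 * ip v (a t)) I t := by
  unfold nsq ip
  rw [Finset.mul_sum]
  refine HasDerivWithinAt.fun_sum fun i _ => ?_
  have h1 : HasDerivWithinAt (fun s => a s i) (v i) I t := (hasDerivWithinAt_pi (φ := a)).1 h i
  have h2 := h1.norm_sq
  rw [Complex.inner] at h2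
  exact h2

theorem ip_rhs (η : K3 → K3 → ℝ) (ν α : ℝ) (a : Cf) (k : K3) :
    ip (rhs η ν α a k) (a k) = -(lam ν α k * nsq (a k)) - ip (nl η a a k) (a k) := by
  rw [rhs, Pi.sub_apply, ip_sub_left, Pi.neg_apply, ip_neg_left, dis, ip_smul_left, ip_self]

/-- The weighted energy estimate. -/
theorem apriori {η : K3 → K3 → ℝ} {ν α T : ℝ} {a : ℝ → Cf} (hG : Gal η ν α B T a)
    (hB : ∀ k ∈ B, -k ∈ B) {Ψ : K3 → ℝ} (hΨ : ∀ k, 0 ≤ Ψ k) {C S s₀ σ R M : ℝ} (hC : 0 ≤ C)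
    (hsub : ∀ s ∈ Icc 0 S, SubAt η Ψ C s) (hs : ∀ t ∈ Icc 0 T, s₀ + σ * t ∈ Icc 0 S)
    (hR : Real.sqrt (∑ k ∈ B, nsq (a 0 k)) ≤ R)
    (hM : ∀ k, 2 * σ * Real.log (jb k) - 2 * lam ν α k + 2 * (C * R) * Ψ k ≤ M) :
    ∀ t ∈ Icc 0 T, ∑ k ∈ B, jb k ^ (2 * (s₀ + σ * t)) * nsq (a t k)
      ≤ Real.exp (M * t) * ∑ k ∈ B, jb k ^ (2 * s₀) * nsq (a 0 k) := by
  intro t ht
  set F : ℝ → ℝ := fun t => ∑ k ∈ B, jb k ^ (2 * (s₀ + σ * t)) * nsq (a t k) with hF
  set F' : ℝ → ℝ := fun t => ∑ k ∈ B, (Real.log (jb k) * (2 * σ) * jb k ^ (2 * (s₀ + σ * t))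
    * nsq (a t k) + jb k ^ (2 * (s₀ + σ * t)) * (2 * ip (rhs η ν α (a t) k) (a t k))) with hF'
  have hder : ∀ τ ∈ Icc 0 T, HasDerivAt F (F' τ) τ := by
    intro τ hτ
    rw [hF, hF']
    refine HasDerivAt.fun_sum fun k hk => ?_
    have e1 : HasDerivAt (fun t : ℝ => 2 * (s₀ + σ * t)) (2 * σ) τ := by
      have := (((hasDerivAt_id τ).const_mul σ).const_add s₀).const_mul 2
      simpa using this
    have e2 : HasDerivAt (fun t : ℝ => jb k ^ (2 * (s₀ + σ * t)))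
        (Real.log (jb k) * (2 * σ) * jb k ^ (2 * (s₀ + σ * τ))) τ := by
      have := e1.const_rpow (jb_pos k)
      exact this
    exact e2.mul (hasDerivAt_nsq (hG.der τ hτ k hk))
  have hle : ∀ τ ∈ Icc 0 T, F' τ ≤ M * F τ := by
    intro τ hτ
    have h1 := hsub (s₀ + σ * τ) (hs τ hτ) B hB (a τ) (hG.supp τ) (hG.herm τ) (hG.div τ)
    have h2 := sum_ip_nl η (hG.supp τ) (hG.supp τ) hB (hG.div τ) (hG.herm τ)
      (fun k => jb k ^ (2 * (s₀ + σ * τ))) (fun k => by rw [jb_neg])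
    have h3 : |∑ k ∈ B, jb k ^ (2 * (s₀ + σ * τ)) * ip (nl η (a τ) (a τ) k) (a τ k)|
        ≤ C * R * ∑ k ∈ B, jb k ^ (2 * (s₀ + σ * τ)) * Ψ k * nsq (a τ k) := by
      rw [h2, abs_neg]
      refine (Complex.abs_re_le_norm _).trans ?_
      rw [norm_mul, Complex.norm_I, one_mul]
      refine h1.trans ?_
      refine mul_le_mul_of_nonneg_right (mul_le_mul_of_nonneg_left ?_ hC)
        (Finset.sum_nonneg fun k _ => mul_nonneg (mul_nonneg
          (Real.rpow_nonneg (jb_pos k).le _) (hΨ k)) (nsq_nonneg _))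
      exact (Real.sqrt_le_sqrt (hG.energy τ hτ)).trans hR
    have h4 : F' τ = ∑ k ∈ B, jb k ^ (2 * (s₀ + σ * τ)) * nsq (a τ k)
          * (2 * σ * Real.log (jb k) - 2 * lam ν α k)
        - 2 * ∑ k ∈ B, jb k ^ (2 * (s₀ + σ * τ)) * ip (nl η (a τ) (a τ) k) (a τ k) := by
      rw [hF', Finset.mul_sum, ← Finset.sum_sub_distrib]
      refine Finset.sum_congr rfl fun k _ => ?_
      rw [ip_rhs]
      ring
    have h5 : F' τ ≤ ∑ k ∈ B, jb k ^ (2 * (s₀ + σ * τ)) * nsq (a τ k)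
          * (2 * σ * Real.log (jb k) - 2 * lam ν α k)
        + 2 * (C * R * ∑ k ∈ B, jb k ^ (2 * (s₀ + σ * τ)) * Ψ k * nsq (a τ k)) := by
      rw [h4]
      have := (abs_le.1 h3).1
      linarith
    refine h5.trans ?_
    rw [hF, Finset.mul_sum, Finset.mul_sum, Finset.mul_sum, ← Finset.sum_add_distrib]
    refine Finset.sum_le_sum fun k _ => ?_
    have h6 : 0 ≤ jb k ^ (2 * (s₀ + σ * τ)) * nsq (a τ k) :=
      mul_nonneg (Real.rpow_nonneg (jb_pos k).le _) (nsq_nonneg _)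
    have h7 := mul_le_mul_of_nonneg_left (hM k) h6
    linarith
  have hmono := le_of_deriv_nonneg (f := fun τ => -(Real.exp (-(M * τ)) * F τ))
    (f' := fun τ => -(-M * Real.exp (-(M * τ)) * F τ + Real.exp (-(M * τ)) * F' τ)) ht.1
    (fun τ hτ => by
      have e1 : HasDerivAt (fun τ : ℝ => Real.exp (-(M * τ))) (-M * Real.exp (-(M * τ))) τ := by
        have := (((hasDerivAt_id τ).const_mul M).neg).exp
        simp only [id, mul_one] at this
        rw [mul_comm] at this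
        exact this
      exact (e1.mul (hder τ ⟨hτ.1, hτ.2.trans ht.2⟩)).neg)
    (fun τ hτ => by
      have := hle τ ⟨hτ.1.le, hτ.2.le.trans ht.2⟩
      have h8 := Real.exp_pos (-(M * τ))
      nlinarith)
  simp only [mul_zero, neg_zero, Real.exp_zero, one_mul] at hmono
  have h9 : Real.exp (-(M * t)) * F t ≤ F 0 := by linarith
  have h10 : F t ≤ Real.exp (M * t) * F 0 := by
    have h11 := mul_le_mul_of_nonneg_left h9 (Real.exp_pos (M * t)).le
    rw [← mul_assoc, ← Real.exp_add] at h11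
    simpa using h11
  have h12 : F 0 = ∑ k ∈ B, jb k ^ (2 * s₀) * nsq (a 0 k) := by
    rw [hF]
    simp
  rw [← h12]
  exact h10

end Pool.Agent.Run7.h507.RT
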