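import Pool.Agent.Run7.h507.RT.Defs

/-!
Basic facts: lengths, the projection, the weighted nonlinear term.
-/

set_option autoImplicit false

open MeasureTheory Set Filter Topology
open scoped ContDiff ComplexConjugate

namespace Pool.Agent.Run7.h507.RT

/-! ### Lengths -/

theorem sq_nonneg' (k : K3) : 0 ≤ sq k := Finset.sum_nonneg fun _ _ => sq_nonneg _

theorem len_nonneg (k : K3) : 0 ≤ len k := Real.sqrt_nonneg _

theorem len_sq (k : K3) : len k ^ 2 = sq k := Real.sq_sqrt (sq_nonneg' k)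

theorem sq_neg (k : K3) : sq (-k) = sq k := by simp [sq]

theorem len_neg (k : K3) : len (-k) = len k := by rw [len, len, sq_neg]

@[simp] theorem sq_zero' : sq 0 = 0 := by simp [sq]

@[simp] theorem len_zero : len 0 = 0 := by simp [len]

theorem one_le_sq {k : K3} (hk : k ≠ 0) : 1 ≤ sq k := by
  obtain ⟨j, hj⟩ := Function.ne_iff.mp hk
  have h1 : (1 : ℝ) ≤ (k j : ℝ) ^ 2 := by
    have h2 : (1 : ℤ) ≤ (k j) ^ 2 := by
      have : 0 < (k j) ^ 2 := by
        have : k j ≠ 0 := by simpa using hj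
        positivity
      omega
    exact_mod_cast h2
  exact h1.trans (Finset.single_le_sum (f := fun j => (k j : ℝ) ^ 2) (fun _ _ => sq_nonneg _)
    (Finset.mem_univ j))

theorem one_le_len {k : K3} (hk : k ≠ 0) : 1 ≤ len k := by
  rw [len]
  exact Real.one_le_sqrt.mpr (one_le_sq hk)

theorem len_pos {k : K3} (hk : k ≠ 0) : 0 < len k := zero_lt_one.trans_le (one_le_len hk)

theorem sq_pos' {k : K3} (hk : k ≠ 0) : 0 < sq k := zero_lt_one.trans_le (one_le_sq hk)

theorem abs_le_len (k : K3) (j : Fin 3) : |(k j : ℝ)| ≤ len k := by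
  rw [len]
  refine Real.abs_le_sqrt ?_
  exact Finset.single_le_sum (f := fun j => (k j : ℝ) ^ 2) (fun _ _ => sq_nonneg _)
    (Finset.mem_univ j)

theorem dot_le_len (k l : K3) : ∑ j, (k j : ℝ) * (l j : ℝ) ≤ len k * len l := by
  have h := Finset.sum_mul_sq_le_sq_mul_sq Finset.univ (fun j => (k j : ℝ)) (fun j => (l j : ℝ))
  have h2 : (∑ j, (k j : ℝ) * (l j : ℝ)) ^ 2 ≤ (len k * len l) ^ 2 := by
    rw [mul_pow, len_sq, len_sq]
    exact h
  exact (abs_le_of_sq_le_sq' h2 (mul_nonneg (len_nonneg _) (len_nonneg _))).2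

theorem len_add_le (k l : K3) : len (k + l) ≤ len k + len l := by
  have h : len (k + l) ^ 2 ≤ (len k + len l) ^ 2 := by
    have h1 : len (k + l) ^ 2 = len k ^ 2 + 2 * (∑ j, (k j : ℝ) * (l j : ℝ)) + len l ^ 2 := by
      rw [len_sq, len_sq, len_sq]
      simp only [sq, Finset.mul_sum, ← Finset.sum_add_distrib]
      refine Finset.sum_congr rfl fun j _ => ?_
      push_cast [Pi.add_apply]
      ring
    have h2 := dot_le_len k l
    rw [h1]
    nlinarith
  exact (abs_le_of_sq_le_sq' h (add_nonneg (len_nonneg _) (len_nonneg _))).2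

theorem len_le_add (k p : K3) : len k ≤ len p + len (k - p) := by
  have := len_add_le p (k - p)
  rwa [add_sub_cancel] at this

/-- `max 1 |k|`. -/
noncomputable def jb (k : K3) : ℝ := max 1 (len k)

theorem one_le_jb (k : K3) : 1 ≤ jb k := le_max_left _ _

theorem jb_pos (k : K3) : 0 < jb k := zero_lt_one.trans_le (one_le_jb k)

theorem len_le_jb (k : K3) : len k ≤ jb k := le_max_right _ _

theorem jb_neg (k : K3) : jb (-k) = jb k := by rw [jb, jb, len_neg]

theorem jb_of_ne {k : K3} (hk : k ≠ 0) : jb k = len k := max_eq_right (one_le_len hk)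

theorem jb_zero : jb 0 = 1 := by rw [jb, len_zero]; norm_num

theorem abs_jb_sub_le (k l : K3) : |jb k - jb l| ≤ |len k - len l| := by
  rw [jb, jb]
  refine (abs_max_sub_max_le_max _ _ _ _).trans ?_
  rw [sub_self, abs_zero]
  exact max_le (abs_nonneg _) le_rfl

/-! ### The projection -/

theorem kd_add (k : K3) (v w : C3) : kd k (v + w) = kd k v + kd k w := by
  simp [kd, mul_add, Finset.sum_add_distrib]

theorem kd_smul (k : K3) (c : ℂ) (v : C3) : kd k (c • v) = c * kd k v := by
  simp only [kd, Pi.smul_apply, smul_eq_mul, Finset.mul_sum]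
  exact Finset.sum_congr rfl fun _ _ => by ring

theorem kd_rsmul (k : K3) (c : ℝ) (v : C3) : kd k (c • v) = c * kd k v := by
  have : c • v = (c : ℂ) • v := by funext i; simp
  rw [this, kd_smul]

theorem kd_zero_right (k : K3) : kd k 0 = 0 := by simp [kd]

theorem kd_zero_left (v : C3) : kd 0 v = 0 := by simp [kd]

theorem kd_neg_left (k : K3) (v : C3) : kd (-k) v = -kd k v := by
  simp [kd]

theorem kd_neg_right (k : K3) (v : C3) : kd k (-v) = -kd k v := by
  simp [kd]

theorem kd_sub (k : K3) (v w : C3) : kd k (v - w) = kd k v - kd k w := by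
  rw [sub_eq_add_neg, kd_add, kd_neg_right, ← sub_eq_add_neg]

theorem kd_add_left (k l : K3) (v : C3) : kd (k + l) v = kd k v + kd l v := by
  simp [kd, add_mul, Finset.sum_add_distrib]

theorem kd_sub_left (k l : K3) (v : C3) : kd (k - l) v = kd k v - kd l v := by
  rw [sub_eq_add_neg, kd_add_left, kd_neg_left, ← sub_eq_add_neg]

theorem kd_conj (k : K3) (v : C3) : kd k (fun i => conj (v i)) = conj (kd k v) := by
  simp [kd, map_sum]

theorem kd_continuous (k : K3) : Continuous (kd k) := by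
  unfold kd
  fun_prop

/-- The projection as a linear map. -/
noncomputable def prjL (k : K3) : C3 →ₗ[ℂ] C3 where
  toFun := prj k
  map_add' v w := by
    funext i
    simp only [prj, kd_add, Pi.add_apply]
    ring
  map_smul' c v := by
    funext i
    simp only [prj, kd_smul, Pi.smul_apply, smul_eq_mul, RingHom.id_apply]
    ring

theorem prjL_apply (k : K3) (v : C3) : prjL k v = prj k v := rfl

/-- The projection as a continuous linear map. -/
noncomputable def prjC (k : K3) : C3 →L[ℂ] C3 := LinearMap.toContinuousLinearMap (prjL k)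

theorem prjC_apply (k : K3) (v : C3) : prjC k v = prj k v := rfl

theorem prj_add (k : K3) (v w : C3) : prj k (v + w) = prj k v + prj k w := (prjL k).map_add v w

theorem prj_smul (k : K3) (c : ℂ) (v : C3) : prj k (c • v) = c • prj k v := (prjL k).map_smul c v

theorem prj_zero (k : K3) : prj k 0 = 0 := (prjL k).map_zero

theorem prj_sub (k : K3) (v w : C3) : prj k (v - w) = prj k v - prj k w := (prjL k).map_sub v w

theorem norm_intCast (n : ℤ) : ‖(n : ℂ)‖ = |(n : ℝ)| := by
  rw [← Complex.ofReal_intCast, Complex.norm_real, Real.norm_eq_abs]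

theorem norm_kd_le (k : K3) (v : C3) : ‖kd k v‖ ≤ 3 * len k * ‖v‖ := by
  refine (norm_sum_le _ _).trans ?_
  have : ∀ j ∈ Finset.univ, ‖(k j : ℂ) * v j‖ ≤ len k * ‖v‖ := by
    intro j _
    rw [norm_mul]
    refine mul_le_mul ?_ (norm_le_pi_norm v j) (norm_nonneg _) (len_nonneg _)
    rw [norm_intCast]
    exact abs_le_len k j
  refine (Finset.sum_le_sum this).trans (le_of_eq ?_)
  simp
  ring

theorem norm_prj_le (k : K3) (v : C3) : ‖prj k v‖ ≤ 4 * ‖v‖ := by
  refine (pi_norm_le_iff_of_nonneg (by positivity)).mpr fun i => ?_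
  by_cases hk : k = 0
  · subst hk
    simp only [prj, Pi.zero_apply, Int.cast_zero, zero_mul, sub_zero]
    exact (norm_le_pi_norm v i).trans (by linarith [norm_nonneg v])
  have hq := sq_pos' hk
  have h1 : ‖(k i : ℂ) * (kd k v / (sq k : ℂ))‖ ≤ 3 * ‖v‖ := by
    rw [norm_mul, norm_div, Complex.norm_real, Real.norm_eq_abs, abs_of_pos hq, norm_intCast]
    calc |(k i : ℝ)| * (‖kd k v‖ / sq k) ≤ len k * (3 * len k * ‖v‖ / sq k) := by
          refine mul_le_mul (abs_le_len k i) ?_ (by positivity) (len_nonneg _)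
          exact div_le_div_of_nonneg_right (norm_kd_le k v) hq.le
      _ = 3 * ‖v‖ := by
          rw [← len_sq]
          have := (len_pos hk).ne'
          field_simp
  calc ‖prj k v i‖ ≤ ‖v i‖ + ‖(k i : ℂ) * (kd k v / (sq k : ℂ))‖ := norm_sub_le _ _
    _ ≤ ‖v‖ + 3 * ‖v‖ := add_le_add (norm_le_pi_norm v i) h1
    _ = 4 * ‖v‖ := by ring

theorem kd_prj (k : K3) (v : C3) : kd k (prj k v) = 0 := by
  by_cases hk : k = 0
  · subst hk; exact kd_zero_left _
  have hq : (sq k : ℂ) ≠ 0 := by exact_mod_cast (sq_pos' hk).ne'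
  have h1 : kd k (prj k v) = kd k v - (∑ j, (k j : ℂ) * (k j : ℂ)) * (kd k v / (sq k : ℂ)) := by
    simp only [kd, prj, mul_sub, Finset.sum_sub_distrib, Finset.sum_mul]
    congr 1
    exact Finset.sum_congr rfl fun _ _ => by ring
  have h2 : (∑ j, (k j : ℂ) * (k j : ℂ)) = (sq k : ℂ) := by
    simp only [sq]
    push_cast
    exact Finset.sum_congr rfl fun _ _ => by ring
  rw [h1, h2, mul_div_cancel₀ _ hq, sub_self]

theorem prj_of_kd_eq_zero {k : K3} {v : C3} (h : kd k v = 0) : prj k v = v := by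
  funext i
  simp [prj, h]

theorem prj_neg_conj (k : K3) (v : C3) :
    prj (-k) (fun i => conj (v i)) = fun i => conj (prj k v i) := by
  funext i
  simp only [prj, kd_neg_left, kd_conj, sq_neg, Pi.neg_apply, Int.cast_neg, map_sub, map_mul,
    map_div₀, map_neg, Complex.conj_ofReal]
  have : conj ((k i : ℂ)) = (k i : ℂ) := by
    rw [← Complex.ofReal_intCast, Complex.conj_ofReal]
  rw [this]
  ring

/-! ### The nonlinear term -/

/-- Absolutely summable families. -/
def L1 (a : Cf) : Prop := Summable fun k => ‖a k‖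

theorem L1.of_supp {a : Cf} {B : Finset K3} (h : ∀ k ∉ B, a k = 0) : L1 a :=
  summable_of_ne_finset_zero (s := B) fun k hk => by rw [h k hk, norm_zero]

theorem L1.add {a b : Cf} (ha : L1 a) (hb : L1 b) : L1 (a + b) :=
  Summable.of_nonneg_of_le (fun _ => norm_nonneg _) (fun k => norm_add_le (a k) (b k))
    (Summable.add ha hb)

theorem L1.neg {a : Cf} (ha : L1 a) : L1 (-a) := by
  refine Summable.congr ha fun k => ?_
  rw [Pi.neg_apply, norm_neg]

theorem L1.sub {a b : Cf} (ha : L1 a) (hb : L1 b) : L1 (a - b) := by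
  rw [sub_eq_add_neg]
  exact ha.add hb.neg

theorem norm_term_le {η : K3 → K3 → ℝ} (hη : ∀ p q, |η p q| ≤ 1) (p q k : K3) (v w : C3) :
    ‖((η p q : ℂ) * kd k v) • w‖ ≤ 3 * len k * (‖v‖ * ‖w‖) := by
  rw [norm_smul, norm_mul, Complex.norm_real, Real.norm_eq_abs]
  calc |η p q| * ‖kd k v‖ * ‖w‖ ≤ 1 * (3 * len k * ‖v‖) * ‖w‖ := by
        refine mul_le_mul_of_nonneg_right ?_ (norm_nonneg _)
        exact mul_le_mul (hη p q) (norm_kd_le k v) (norm_nonneg _) zero_le_one
    _ = _ := by ring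

theorem summable_conv {f g : K3 → ℝ} (hf0 : ∀ k, 0 ≤ f k) (hg0 : ∀ k, 0 ≤ g k) (hf : Summable f)
    (hg : Summable g) (k : K3) : Summable fun p => f p * g (k - p) := by
  refine Summable.of_nonneg_of_le (fun p => mul_nonneg (hf0 p) (hg0 _)) (fun p => ?_)
    (hf.mul_right (∑' q, g q))
  exact mul_le_mul_of_nonneg_left (hg.le_tsum (k - p) fun q _ => hg0 q) (hf0 p)

theorem summable_nl {η : K3 → K3 → ℝ} (hη : ∀ p q, |η p q| ≤ 1) {a b : Cf} (ha : L1 a)
    (hb : L1 b) (k l : K3) : Summable fun p => ((η p (k - p) : ℂ) * kd l (a p)) • b (k - p) := by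
  refine Summable.of_norm_bounded
    (((summable_conv (fun _ => norm_nonneg _) (fun _ => norm_nonneg _) ha hb k).mul_left
      (3 * len l))) fun p => ?_
  exact norm_term_le hη p (k - p) l (a p) (b (k - p))

theorem norm_nl_le {η : K3 → K3 → ℝ} (hη : ∀ p q, |η p q| ≤ 1) {a b : Cf} (k : K3)
    (hc : Summable fun p => ‖a p‖ * ‖b (k - p)‖) :
    ‖nl η a b k‖ ≤ 12 * len k * ∑' p, ‖a p‖ * ‖b (k - p)‖ := by
  have h1 : ‖∑' p, ((η p (k - p) : ℂ) * kd k (a p)) • b (k - p)‖
      ≤ 3 * len k * ∑' p, ‖a p‖ * ‖b (k - p)‖ := by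
    rw [← tsum_mul_left]
    refine tsum_of_norm_bounded ((hc.mul_left (3 * len k)).hasSum) fun p => ?_
    exact norm_term_le hη p (k - p) k (a p) (b (k - p))
  rw [nl, norm_smul, Complex.norm_I, one_mul]
  refine (norm_prj_le k _).trans ?_
  linarith

theorem dv_nl (η : K3 → K3 → ℝ) (a b : Cf) : Dv (nl η a b) := fun k => by
  rw [nl, kd_smul, kd_prj, mul_zero]

theorem herm_nl {η : K3 → K3 → ℝ} (hη : ∀ p q, η (-p) (-q) = η p q) {a b : Cf} (ha : Herm a)
    (hb : Herm b) : Herm (nl η a b) := by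
  intro k i
  have ha' : ∀ p, a (-p) = fun i => conj (a p i) := fun p => funext fun i => ha p i
  have hb' : ∀ p, b (-p) = fun i => conj (b p i) := fun p => funext fun i => hb p i
  have h1 : (∑' p : K3, ((η p (-k - p) : ℂ) * kd (-k) (a p)) • b (-k - p))
      = fun i => conj ((-(∑' p : K3, ((η p (k - p) : ℂ) * kd k (a p)) • b (k - p))) i) := by
    have h2 : (∑' p : K3, ((η p (-k - p) : ℂ) * kd (-k) (a p)) • b (-k - p))
        = ∑' p : K3, ((η (-p) (-k - -p) : ℂ) * kd (-k) (a (-p))) • b (-k - -p) :=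
      ((Equiv.neg K3).tsum_eq fun p => ((η p (-k - p) : ℂ) * kd (-k) (a p)) • b (-k - p)).symm
    have h3 : ∀ p : K3, ((η (-p) (-k - -p) : ℂ) * kd (-k) (a (-p))) • b (-k - -p)
        = star (-(((η p (k - p) : ℂ) * kd k (a p)) • b (k - p))) := by
      intro p
      have e1 : -k - -p = -(k - p) := by abel
      rw [e1, hη, ha', hb', kd_neg_left, kd_conj]
      funext i
      simp [mul_comm, mul_left_comm]
    rw [h2]
    simp_rw [h3]
    rw [← tsum_star, tsum_neg]
    rfl
  rw [nl, h1, prj_neg_conj]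
  simp only [Pi.smul_apply, nl, smul_eq_mul, map_mul, Complex.conj_I]
  have h4 : prj k (-(∑' p : K3, ((η p (k - p) : ℂ) * kd k (a p)) • b (k - p)))
      = -prj k (∑' p : K3, ((η p (k - p) : ℂ) * kd k (a p)) • b (k - p)) := (prjL k).map_neg _
  rw [h4, Pi.neg_apply, map_neg]
  ring

/-- For finitely many modes the nonlinear term is a finite sum. -/
theorem nl_eq_sum (η : K3 → K3 → ℝ) {a : Cf} {B : Finset K3} (ha : ∀ k ∉ B, a k = 0) (b : Cf)
    (k : K3) : nl η a b k = Complex.I • prj k (∑ p ∈ B, ((η p (k - p) : ℂ) * kd k (a p)) • b (k - p)) := by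
  rw [nl, tsum_eq_sum fun p hp => by rw [ha p hp, kd_zero_right, mul_zero, zero_smul]]

end Pool.Agent.Run7.h507.RT
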