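import Pool.Agent.Run7.h507.RT.Apr

/-!
Bounds for the right hand side in terms of the decay of the coefficients.
-/

set_option autoImplicit false

open MeasureTheory Set Filter Topology
open scoped ContDiff ComplexConjugate NNReal

namespace Pool.Agent.Run7.h507.RT

/-- Frequencies as triples. -/
def e3 : K3 ≃ ℤ × ℤ × ℤ where
  toFun k := (k 0, k 1, k 2)
  invFun p := ![p.1, p.2.1, p.2.2]
  left_inv k := by funext i; fin_cases i <;> rfl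
  right_inv p := rfl

theorem summable_int : Summable fun n : ℤ => ((max 1 |(n : ℝ)|) ^ 2)⁻¹ := by
  have h0 : Summable fun n : ℕ => 4 * (1 / ((n + 1 : ℕ) : ℝ) ^ 2) :=
    ((summable_nat_add_iff 1).2 (Real.summable_one_div_nat_pow.2 (by norm_num : 1 < 2))).mul_left 4
  have h1 : Summable fun n : ℕ => ((max 1 |((n : ℤ) : ℝ)|) ^ 2)⁻¹ := by
    refine Summable.of_nonneg_of_le (fun n => by positivity) (fun n => ?_) h0
    have e : |((n : ℤ) : ℝ)| = n := by simp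
    rw [e]
    have h2 : ((n + 1 : ℕ) : ℝ) / 2 ≤ max 1 (n : ℝ) := by
      push_cast
      rcases le_total (1 : ℝ) n with h | h
      · rw [max_eq_right h]; linarith
      · rw [max_eq_left h]; linarith
    have h3 : (0 : ℝ) < ((n + 1 : ℕ) : ℝ) / 2 := by positivity
    calc ((max 1 (n : ℝ)) ^ 2)⁻¹ ≤ ((((n + 1 : ℕ) : ℝ) / 2) ^ 2)⁻¹ :=
          inv_anti₀ (by positivity) (pow_le_pow_left₀ h3.le h2 2)
      _ = 4 * (1 / ((n + 1 : ℕ) : ℝ) ^ 2) := by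
          field_simp
          norm_num
  refine Summable.of_nat_of_neg h1 (h1.congr fun n => ?_)
  push_cast
  rw [abs_neg]

theorem summable_jb : Summable fun k : K3 => (jb k ^ 6)⁻¹ := by
  have h1 := summable_int
  have h2 := h1.mul_of_nonneg (h1.mul_of_nonneg h1 (fun n => by positivity)
    (fun n => by positivity)) (fun n => by positivity) (fun p => by positivity)
  have h3 := (e3.summable_iff (f := fun p : ℤ × ℤ × ℤ => ((max 1 |(p.1 : ℝ)|) ^ 2)⁻¹ *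
    (((max 1 |(p.2.1 : ℝ)|) ^ 2)⁻¹ * ((max 1 |(p.2.2 : ℝ)|) ^ 2)⁻¹))).2 h2
  refine Summable.of_nonneg_of_le (fun k => by have := jb_pos k; positivity) (fun k => ?_) h3
  have e5 : ((fun p : ℤ × ℤ × ℤ => ((max 1 |(p.1 : ℝ)|) ^ 2)⁻¹ *
    (((max 1 |(p.2.1 : ℝ)|) ^ 2)⁻¹ * ((max 1 |(p.2.2 : ℝ)|) ^ 2)⁻¹)) ∘ e3) k
    = ((max 1 |(k 0 : ℝ)|) ^ 2)⁻¹ *
    (((max 1 |(k 1 : ℝ)|) ^ 2)⁻¹ * ((max 1 |(k 2 : ℝ)|) ^ 2)⁻¹) := rfl
  rw [e5, ← mul_inv, ← mul_inv]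
  refine inv_anti₀ (by positivity) ?_
  have h : ∀ j : Fin 3, (max 1 |(k j : ℝ)|) ^ 2 ≤ jb k ^ 2 := fun j =>
    pow_le_pow_left₀ (by positivity) (max_le_max le_rfl (abs_le_len k j)) 2
  calc (max 1 |(k 0 : ℝ)|) ^ 2 * ((max 1 |(k 1 : ℝ)|) ^ 2 * (max 1 |(k 2 : ℝ)|) ^ 2)
      ≤ jb k ^ 2 * (jb k ^ 2 * jb k ^ 2) := by
        refine mul_le_mul (h 0) (mul_le_mul (h 1) (h 2) (by positivity) (by positivity))
          (by positivity) (by positivity)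
    _ = jb k ^ 6 := by ring

/-- The sum of `|k|^{-6}`. -/
noncomputable def Z6 : ℝ := ∑' k : K3, (jb k ^ 6)⁻¹

theorem Z6_nonneg : 0 ≤ Z6 := tsum_nonneg fun k => by have := jb_pos k; positivity

theorem jb_le (k p : K3) : jb k ≤ 2 * (jb p * jb (k - p)) := by
  have h1 : len k ≤ jb p + jb (k - p) :=
    (len_le_add k p).trans (add_le_add (len_le_jb p) (len_le_jb _))
  have h2 := one_le_jb p
  have h3 := one_le_jb (k - p)
  have h4 : jb k ≤ jb p + jb (k - p) := max_le (by linarith) h1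
  nlinarith

theorem jb_pow_le (m : ℕ) (k p : K3) : jb k ^ m ≤ 2 ^ m * (jb p ^ m * jb (k - p) ^ m) := by
  have := pow_le_pow_left₀ (jb_pos k).le (jb_le k p) m
  rwa [mul_pow, mul_pow] at this

theorem term_conv {m : ℕ} {a b : Cf} {A A' : ℝ} (ha : ∀ k, jb k ^ (m + 6) * ‖a k‖ ≤ A)
    (hb : ∀ k, jb k ^ m * ‖b k‖ ≤ A') (k p : K3) :
    ‖a p‖ * ‖b (k - p)‖ ≤ 2 ^ m * (A * A') * (jb k ^ m)⁻¹ * (jb p ^ 6)⁻¹ := by
  have h0 := jb_pos k
  have h1 := jb_pos p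
  have h2 := jb_pos (k - p)
  have hA : 0 ≤ A := le_trans (mul_nonneg (pow_nonneg (jb_pos 0).le _) (norm_nonneg _)) (ha 0)
  have h3 : jb k ^ m * jb p ^ 6 * (‖a p‖ * ‖b (k - p)‖) ≤ 2 ^ m * (A * A') := by
    calc jb k ^ m * jb p ^ 6 * (‖a p‖ * ‖b (k - p)‖)
        ≤ (2 ^ m * (jb p ^ m * jb (k - p) ^ m)) * jb p ^ 6 * (‖a p‖ * ‖b (k - p)‖) := by
          have := jb_pow_le m k p
          gcongr
      _ = 2 ^ m * ((jb p ^ (m + 6) * ‖a p‖) * (jb (k - p) ^ m * ‖b (k - p)‖)) := by ring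
      _ ≤ 2 ^ m * (A * A') := by
          refine mul_le_mul_of_nonneg_left ?_ (by positivity)
          exact mul_le_mul (ha p) (hb _) (by positivity) hA
  rw [mul_assoc (2 ^ m * (A * A')), ← mul_inv, ← div_eq_mul_inv, le_div_iff₀ (by positivity)]
  linarith

theorem summable_conv' {m : ℕ} {a b : Cf} {A A' : ℝ} (ha : ∀ k, jb k ^ (m + 6) * ‖a k‖ ≤ A)
    (hb : ∀ k, jb k ^ m * ‖b k‖ ≤ A') (k : K3) : Summable fun p => ‖a p‖ * ‖b (k - p)‖ :=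
  Summable.of_nonneg_of_le (fun p => by positivity) (fun p => term_conv ha hb k p)
    (summable_jb.mul_left _)

theorem tsum_conv_le {m : ℕ} {a b : Cf} {A A' : ℝ} (ha : ∀ k, jb k ^ (m + 6) * ‖a k‖ ≤ A)
    (hb : ∀ k, jb k ^ m * ‖b k‖ ≤ A') (k : K3) :
    jb k ^ m * ∑' p, ‖a p‖ * ‖b (k - p)‖ ≤ 2 ^ m * (A * A') * Z6 := by
  have h := (summable_conv' ha hb k).tsum_le_tsum (fun p => term_conv ha hb k p)
    (summable_jb.mul_left _)
  rw [tsum_mul_left] at h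
  have h0 := jb_pos k
  calc jb k ^ m * ∑' p, ‖a p‖ * ‖b (k - p)‖
      ≤ jb k ^ m * (2 ^ m * (A * A') * (jb k ^ m)⁻¹ * Z6) :=
        mul_le_mul_of_nonneg_left h (by positivity)
    _ = 2 ^ m * (A * A') * Z6 * (jb k ^ m * (jb k ^ m)⁻¹) := by ring
    _ = _ := by rw [mul_inv_cancel₀ (by positivity), mul_one]

theorem nl_bound {η : K3 → K3 → ℝ} (hη : ∀ p q, |η p q| ≤ 1) {m : ℕ} {a b : Cf} {A A' : ℝ}
    (ha : ∀ k, jb k ^ (m + 1 + 6) * ‖a k‖ ≤ A) (hb : ∀ k, jb k ^ (m + 1) * ‖b k‖ ≤ A') (k : K3) :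
    jb k ^ m * ‖nl η a b k‖ ≤ 12 * (2 ^ (m + 1) * (A * A') * Z6) := by
  have h1 := norm_nl_le hη k (summable_conv' ha hb k)
  have h2 := tsum_conv_le ha hb k
  have h0 := jb_pos k
  have h3 : 0 ≤ ∑' p, ‖a p‖ * ‖b (k - p)‖ := tsum_nonneg fun p => by positivity
  calc jb k ^ m * ‖nl η a b k‖ ≤ jb k ^ m * (12 * len k * ∑' p, ‖a p‖ * ‖b (k - p)‖) :=
        mul_le_mul_of_nonneg_left h1 (by positivity)
    _ ≤ jb k ^ m * (12 * jb k * ∑' p, ‖a p‖ * ‖b (k - p)‖) := by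
        have := len_le_jb k
        gcongr
    _ = 12 * (jb k ^ (m + 1) * ∑' p, ‖a p‖ * ‖b (k - p)‖) := by ring
    _ ≤ _ := mul_le_mul_of_nonneg_left h2 (by norm_num)

/-- A lower bound of the length in terms of the dissipation. -/
theorem sq_rpow_le {α : ℝ} (hα : 0 ≤ α) {n : ℕ} (hn : 2 * α ≤ n) (k : K3) :
    sq k ^ α ≤ jb k ^ n := by
  have h1 : sq k ≤ jb k ^ 2 := by
    rw [← len_sq]
    exact pow_le_pow_left₀ (len_nonneg k) (len_le_jb k) 2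
  calc sq k ^ α ≤ (jb k ^ 2) ^ α := Real.rpow_le_rpow (sq_nonneg' k) h1 hα
    _ = jb k ^ (2 * α) := by
        rw [← Real.rpow_natCast, ← Real.rpow_mul (jb_pos k).le]
        norm_num
    _ ≤ jb k ^ (n : ℝ) := Real.rpow_le_rpow_of_exponent_le (one_le_jb k) hn
    _ = jb k ^ n := Real.rpow_natCast _ _

theorem pow_mono {k : K3} {v : C3} {m n : ℕ} (h : m ≤ n) : jb k ^ m * ‖v‖ ≤ jb k ^ n * ‖v‖ :=
  mul_le_mul_of_nonneg_right (pow_le_pow_right₀ (one_le_jb k) h) (norm_nonneg _)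

theorem rhs_bound {η : K3 → K3 → ℝ} (hη : ∀ p q, |η p q| ≤ 1) {ν α : ℝ} (hν : 0 ≤ ν)
    (hα : 0 ≤ α) (m : ℕ) : ∃ M : ℕ, ∀ A : ℝ, ∃ C : ℝ, ∀ a : Cf,
      (∀ k, jb k ^ M * ‖a k‖ ≤ A) → ∀ k, jb k ^ m * ‖rhs η ν α a k‖ ≤ C := by
  obtain ⟨n, hn⟩ := exists_nat_ge (2 * α)
  refine ⟨m + n + 7, fun A => ⟨ν * A + 12 * (2 ^ (m + 1) * (A * A) * Z6), fun a ha k => ?_⟩⟩
  have h0 := jb_pos k
  have h1 : ‖rhs η ν α a k‖ ≤ ν * jb k ^ n * ‖a k‖ + ‖nl η a a k‖ := by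
    rw [rhs_apply]
    refine (norm_sub_le _ _).trans (add_le_add ?_ le_rfl)
    rw [norm_neg, norm_smul, Real.norm_eq_abs,
      abs_of_nonneg (show 0 ≤ ν * sq k ^ α from lam_nonneg hν α k)]
    exact mul_le_mul_of_nonneg_right (mul_le_mul_of_nonneg_left (sq_rpow_le hα hn k) hν)
      (norm_nonneg _)
  have h2 := nl_bound hη (m := m) (a := a) (b := a) (A := A) (A' := A)
    (fun k => (pow_mono (by omega)).trans (ha k)) (fun k => (pow_mono (by omega)).trans (ha k)) k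
  have h3 : jb k ^ (m + n) * ‖a k‖ ≤ A := (pow_mono (by omega)).trans (ha k)
  calc jb k ^ m * ‖rhs η ν α a k‖ ≤ jb k ^ m * (ν * jb k ^ n * ‖a k‖ + ‖nl η a a k‖) :=
        mul_le_mul_of_nonneg_left h1 (by positivity)
    _ = ν * (jb k ^ (m + n) * ‖a k‖) + jb k ^ m * ‖nl η a a k‖ := by ring
    _ ≤ _ := add_le_add (mul_le_mul_of_nonneg_left h3 hν) h2

theorem L1_of {a : Cf} {A : ℝ} (ha : ∀ k, jb k ^ 6 * ‖a k‖ ≤ A) : L1 a := by
  refine Summable.of_nonneg_of_le (fun _ => norm_nonneg _) (fun k => ?_) (summable_jb.mul_left A)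
  have h0 := jb_pos k
  rw [← div_eq_mul_inv, le_div_iff₀ (by positivity), mul_comm]
  exact ha k

theorem nl_sub_left {η : K3 → K3 → ℝ} (hη : ∀ p q, |η p q| ≤ 1) {a a' b : Cf} (ha : L1 a)
    (ha' : L1 a') (hb : L1 b) (k : K3) : nl η (a - a') b k = nl η a b k - nl η a' b k := by
  rw [nl, nl, nl, ← smul_sub, ← prj_sub,
    ← (summable_nl hη ha hb k k).tsum_sub (summable_nl hη ha' hb k k)]
  congr 2
  exact tsum_congr fun p => by rw [Pi.sub_apply, kd_sub, mul_sub, sub_smul]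

theorem nl_sub_right {η : K3 → K3 → ℝ} (hη : ∀ p q, |η p q| ≤ 1) {a b b' : Cf} (ha : L1 a)
    (hb : L1 b) (hb' : L1 b') (k : K3) : nl η a (b - b') k = nl η a b k - nl η a b' k := by
  rw [nl, nl, nl, ← smul_sub, ← prj_sub,
    ← (summable_nl hη ha hb k k).tsum_sub (summable_nl hη ha hb' k k)]
  congr 2
  exact tsum_congr fun p => by rw [Pi.sub_apply, smul_sub]

theorem nl_sub_self {η : K3 → K3 → ℝ} (hη : ∀ p q, |η p q| ≤ 1) {a b : Cf} (ha : L1 a)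
    (hb : L1 b) (k : K3) :
    nl η a a k - nl η b b k = nl η (a - b) a k + nl η b (a - b) k := by
  rw [nl_sub_left hη ha hb ha, nl_sub_right hη hb ha hb]
  abel

/-- The right hand side is Lipschitz, mode by mode. -/
theorem rhs_lip {η : K3 → K3 → ℝ} (hη : ∀ p q, |η p q| ≤ 1) {ν : ℝ} (hν : 0 ≤ ν) (α : ℝ)
    (k : K3) (A : ℝ) : ∃ C : ℝ, 0 ≤ C ∧ ∀ (a b : Cf) (d : ℝ), (∀ k, jb k ^ 7 * ‖a k‖ ≤ A) →
      (∀ k, jb k ^ 7 * ‖b k‖ ≤ A) → (∀ k, jb k ^ 7 * ‖a k - b k‖ ≤ d) →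
      ‖rhs η ν α a k - rhs η ν α b k‖ ≤ C * d := by
  have hZ := Z6_nonneg
  refine ⟨lam ν α k + 48 * |A| * Z6, by have := lam_nonneg hν α k; positivity,
    fun a b d ha hb hd => ?_⟩
  have h6 : ∀ (c : Cf) (D : ℝ), (∀ k, jb k ^ 7 * ‖c k‖ ≤ D) → ∀ k, jb k ^ 6 * ‖c k‖ ≤ D :=
    fun c D h k => (pow_mono (by omega)).trans (h k)
  have h1' : ∀ (c : Cf) (D : ℝ), (∀ k, jb k ^ 7 * ‖c k‖ ≤ D) → ∀ k, jb k ^ 1 * ‖c k‖ ≤ D :=
    fun c D h k => (pow_mono (by omega)).trans (h k)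
  have hd' : ∀ k, jb k ^ 7 * ‖(a - b) k‖ ≤ d := hd
  have hd0 : 0 ≤ d := le_trans (by have := jb_pos 0; positivity) (hd 0)
  have hA0 : 0 ≤ A := le_trans (by have := jb_pos 0; positivity) (ha 0)
  have hn1 := nl_bound hη (m := 0) (a := a - b) (b := a) hd' (h1' a A ha) k
  have hn2 := nl_bound hη (m := 0) (a := b) (b := a - b) hb (h1' (a - b) d hd') k
  simp only [pow_zero, one_mul, zero_add, pow_one] at hn1 hn2
  have h3 : ‖a k - b k‖ ≤ d := by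
    have := (pow_mono (k := k) (v := a k - b k) (Nat.zero_le 7)).trans (hd k)
    simpa using this
  have e : rhs η ν α a k - rhs η ν α b k
      = -(lam ν α k • (a k - b k)) - (nl η (a - b) a k + nl η b (a - b) k) := by
    rw [← nl_sub_self hη (L1_of (h6 a A ha)) (L1_of (h6 b A hb))]
    simp only [rhs, Pi.sub_apply, Pi.neg_apply, dis, smul_sub]
    abel
  rw [e]
  refine (norm_sub_le _ _).trans ?_
  rw [norm_neg, norm_smul, Real.norm_eq_abs, abs_of_nonneg (lam_nonneg hν α k), abs_of_nonneg hA0]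
  have h4 := norm_add_le (nl η (a - b) a k) (nl η b (a - b) k)
  have h5 := mul_le_mul_of_nonneg_left h3 (lam_nonneg hν α k)
  calc lam ν α k * ‖a k - b k‖ + ‖nl η (a - b) a k + nl η b (a - b) k‖
      ≤ lam ν α k * d + (12 * (2 * (d * A) * Z6) + 12 * (2 * (A * d) * Z6)) := by linarith
    _ = _ := by ring

end Pool.Agent.Run7.h507.RT
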