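import Mathlib

/-!
The Navier-Stokes equations on the torus, in terms of the Fourier coefficients, with the
interaction in each triad multiplied by a weight.
-/

set_option autoImplicit false

open Set

namespace Pool.Agent.Run7.h507.RT

/-- Frequencies. -/
abbrev K3 := Fin 3 → ℤ

/-- Complex vectors, with the maximum norm. -/
abbrev C3 := Fin 3 → ℂ

/-- Families of coefficients. -/
abbrev Cf := K3 → C3

/-- The squared Euclidean length of a frequency. -/
noncomputable def sq (k : K3) : ℝ := ∑ j, (k j : ℝ) ^ 2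

/-- The Euclidean length of a frequency. -/
noncomputable def len (k : K3) : ℝ := Real.sqrt (sq k)

/-- The scalar product of a frequency and a complex vector. -/
noncomputable def kd (k : K3) (v : C3) : ℂ := ∑ j, (k j : ℂ) * v j

/-- The projection to the orthogonal complement of `k` (the identity for `k = 0`). -/
noncomputable def prj (k : K3) (v : C3) : C3 := fun i => v i - (k i : ℂ) * (kd k v / (sq k : ℂ))

/-- The Fourier coefficients of the divergence free part of `(a·∇) b`, for the divergence free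
field with coefficients `a`, with the interaction of `p` and `q` multiplied by `η p q`. -/
noncomputable def nl (η : K3 → K3 → ℝ) (a b : Cf) (k : K3) : C3 :=
  Complex.I • prj k (∑' p : K3, ((η p (k - p) : ℂ) * kd k (a p)) • b (k - p))

/-- Coefficients of real fields. -/
def Herm (a : Cf) : Prop := ∀ k i, a (-k) i = (starRingEnd ℂ) (a k i)

/-- Coefficients of divergence free fields. -/
def Dv (a : Cf) : Prop := ∀ k, kd k (a k) = 0

/-- Coefficients of smooth fields. -/
def Rapid (a : Cf) : Prop := ∀ m : ℕ, ∃ C : ℝ, ∀ k, len k ^ m * ‖a k‖ ≤ C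

/-- Smooth solutions for the times in `I`. -/
structure Sol (η : K3 → K3 → ℝ) (ν α : ℝ) (I : Set ℝ) (a : ℝ → Cf) : Prop where
  herm : ∀ t ∈ I, Herm (a t)
  div : ∀ t ∈ I, Dv (a t)
  rapid : ∀ s ∈ I, ∀ t ∈ I, ∀ m : ℕ, ∃ C : ℝ, ∀ τ ∈ Icc s t, ∀ k, len k ^ m * ‖a τ k‖ ≤ C
  der : ∀ t ∈ I, ∀ k, HasDerivWithinAt (fun s => a s k)
    (-((ν * sq k ^ α : ℝ) • a t k) - nl η (a t) (a t) k) I t

/-- A weight on the triads. -/
structure IsWeight (η : K3 → K3 → ℝ) : Prop where
  symm : ∀ p q, η q p = η p q
  third : ∀ p q, η p (-(p + q)) = η p q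
  neg : ∀ p q, η (-p) (-q) = η p q
  bdd : ∀ p q, |η p q| ≤ 1

end Pool.Agent.Run7.h507.RT
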