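import Pool.Agent.Run7.h507.RT.Dya2

/-!
The local triads with random weights are subordinate of every order larger than one.
-/

set_option autoImplicit false

open MeasureTheory ProbabilityTheory Filter Topology

namespace Pool.Agent.Run7.h507.RT

variable {loc : Set (K3 × K3)} {Y : Sym2 (Multiset K3) → ℝ} {K : ℝ}

theorem exists_poly {δ : ℝ} (hδ : 0 < δ) :
    ∃ D : ℝ, 0 ≤ D ∧ ∀ j : ℕ, ((j : ℝ) + 2) ^ 6 ≤ D * ((2 : ℝ) ^ j) ^ δ := by
  have hr : (1 : ℝ) < 2 ^ δ := Real.one_lt_rpow (by norm_num) hδ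
  have hr0 : (0 : ℝ) < 2 ^ δ := by linarith
  have h1 := tendsto_pow_const_div_const_pow_of_one_lt 6 hr
  obtain ⟨D, hD⟩ := h1.bddAbove_range
  have hD' : ∀ n : ℕ, (n : ℝ) ^ 6 / ((2 : ℝ) ^ δ) ^ n ≤ D := fun n => hD ⟨n, rfl⟩
  have hD0 : 0 ≤ D := le_trans (by positivity) (hD' 0)
  refine ⟨D * ((2 : ℝ) ^ δ) ^ 2, by positivity, fun j => ?_⟩
  have h2 := hD' (j + 2)
  rw [div_le_iff₀ (by positivity)] at h2
  have h3 : ((2 : ℝ) ^ j) ^ δ = ((2 : ℝ) ^ δ) ^ j := by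
    rw [← Real.rpow_natCast, ← Real.rpow_natCast, ← Real.rpow_mul (by norm_num),
      ← Real.rpow_mul (by norm_num), mul_comm]
  rw [h3]
  push_cast at h2
  calc ((j : ℝ) + 2) ^ 6 ≤ D * ((2 : ℝ) ^ δ) ^ (j + 2) := h2
    _ = _ := by ring

/-- The sum over the shells. -/
theorem shells_le (B : Finset K3) (a : Cf) {s : ℝ} (hs : 0 ≤ s) {δ : ℝ} (hδ : 0 < δ) (M : ℕ)
    {D : ℝ} (hD : 0 ≤ D) (hp : ∀ j : ℕ, ((j : ℝ) + 2) ^ 6 ≤ D * ((2 : ℝ) ^ j) ^ δ) :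
    ∑ j ∈ Finset.range M, ((j : ℝ) + 2) ^ 2 * gg B a s j
      ≤ D * (4 : ℝ) ^ (2 * s + 1) * ∑ k ∈ B, jb k ^ (2 * s) * jb k ^ (1 + δ) * nsq (a k) := by
  classical
  have h1 : ∀ j : ℕ, ((j : ℝ) + 2) ^ 2 * gg B a s j
      ≤ D * (4 : ℝ) ^ (2 * s + 1)
        * ∑ k ∈ B.filter (fun k => k ≠ 0 ∧ sh k = j), jb k ^ (2 * s) * jb k ^ (1 + δ) * nsq (a k) := by
    intro j
    have hx : (0 : ℝ) < 2 ^ j := by positivity
    have e1 : ((2 : ℝ) ^ (j + 2)) ^ (2 * s + 1)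
        = 4 ^ (2 * s + 1) * ((2 : ℝ) ^ j) ^ (2 * s + 1) := by
      rw [pow_add, Real.mul_rpow (by positivity) (by norm_num), mul_comm]
      norm_num
    have e2 : ((j : ℝ) + 2) ^ 2 * gg B a s j
        = ((j : ℝ) + 2) ^ 6 * 4 ^ (2 * s + 1) * ((2 : ℝ) ^ j) ^ (2 * s + 1) * As B a j := by
      unfold gg
      rw [e1]
      ring
    rw [e2]
    have hA := As_nonneg B a j
    have hx4 : (0 : ℝ) ≤ 4 ^ (2 * s + 1) := Real.rpow_nonneg (by norm_num) _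
    have hx5 : (0 : ℝ) ≤ ((2 : ℝ) ^ j) ^ (2 * s + 1) := Real.rpow_nonneg hx.le _
    have e3 : ((2 : ℝ) ^ j) ^ δ * ((2 : ℝ) ^ j) ^ (2 * s + 1)
        = ((2 : ℝ) ^ j) ^ (2 * s) * ((2 : ℝ) ^ j) ^ (1 + δ) := by
      rw [← Real.rpow_add hx, ← Real.rpow_add hx]
      congr 1
      ring
    calc ((j : ℝ) + 2) ^ 6 * 4 ^ (2 * s + 1) * ((2 : ℝ) ^ j) ^ (2 * s + 1) * As B a j
        ≤ (D * ((2 : ℝ) ^ j) ^ δ) * 4 ^ (2 * s + 1) * ((2 : ℝ) ^ j) ^ (2 * s + 1) * As B a j := by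
          have := hp j
          gcongr
      _ = D * 4 ^ (2 * s + 1) * ((((2 : ℝ) ^ j) ^ δ * ((2 : ℝ) ^ j) ^ (2 * s + 1)) * As B a j) := by
          ring
      _ = D * 4 ^ (2 * s + 1)
          * ((((2 : ℝ) ^ j) ^ (2 * s) * ((2 : ℝ) ^ j) ^ (1 + δ)) * As B a j) := by rw [e3]
      _ ≤ _ := by
          refine mul_le_mul_of_nonneg_left ?_ (by positivity)
          unfold As
          rw [Finset.mul_sum]
          refine Finset.sum_le_sum fun k hk => ?_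
          rw [Finset.mem_filter] at hk
          have h5 : (2 : ℝ) ^ j ≤ jb k := by
            rw [← hk.2.2]
            exact (sh_le hk.2.1).trans (len_le_jb k)
          refine mul_le_mul_of_nonneg_right ?_ (nsq_nonneg _)
          exact mul_le_mul (Real.rpow_le_rpow hx.le h5 (by positivity))
            (Real.rpow_le_rpow hx.le h5 (by positivity)) (Real.rpow_nonneg hx.le _)
            (Real.rpow_nonneg (jb_pos k).le _)
  refine (Finset.sum_le_sum fun j _ => h1 j).trans ?_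
  rw [← Finset.mul_sum]
  refine mul_le_mul_of_nonneg_left ?_ (mul_nonneg hD (Real.rpow_nonneg (by norm_num) _))
  have h2 : ∀ j, ∑ k ∈ B.filter (fun k => k ≠ 0 ∧ sh k = j),
      jb k ^ (2 * s) * jb k ^ (1 + δ) * nsq (a k)
      = ∑ k ∈ B, if k ≠ 0 ∧ sh k = j then jb k ^ (2 * s) * jb k ^ (1 + δ) * nsq (a k) else 0 :=
    fun j => Finset.sum_filter _ _
  simp only [h2]
  rw [Finset.sum_comm]
  refine Finset.sum_le_sum fun k _ => ?_
  have hk0 : 0 ≤ jb k ^ (2 * s) * jb k ^ (1 + δ) * nsq (a k) :=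
    mul_nonneg (mul_nonneg (Real.rpow_nonneg (jb_pos k).le _) (Real.rpow_nonneg (jb_pos k).le _))
      (nsq_nonneg _)
  calc ∑ j ∈ Finset.range M, (if k ≠ 0 ∧ sh k = j then
        jb k ^ (2 * s) * jb k ^ (1 + δ) * nsq (a k) else 0)
      ≤ ∑ j ∈ Finset.range M, (if sh k = j then
        jb k ^ (2 * s) * jb k ^ (1 + δ) * nsq (a k) else 0) := by
        refine Finset.sum_le_sum fun j _ => ?_
        by_cases h3 : sh k = j
        · by_cases h4 : k ≠ 0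
          · rw [if_pos ⟨h4, h3⟩, if_pos h3]
          · rw [if_neg fun h => h4 h.1, if_pos h3]
            exact hk0
        · rw [if_neg fun h => h3 h.2, if_neg h3]
    _ ≤ _ := by
        rw [Finset.sum_ite_eq]
        split_ifs
        · exact le_rfl
        · exact hk0

/-- The local triads with random weights. -/
theorem local_sub (hK : 0 ≤ K) (h : FlatB loc Y K)
    (hloc : ∀ x ∈ loc, x.1 ≠ 0 ∧ x.2 ≠ 0 ∧ -(x.1 + x.2) ≠ 0) {δ : ℝ} (hδ : 0 < δ) (S : ℝ) :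
    ∃ C : ℝ, 0 ≤ C ∧ ∀ s ∈ Set.Icc 0 S, SubAt (el loc Y) (fun k => jb k ^ (1 + δ)) C s := by
  obtain ⟨D, hD, hp⟩ := exists_poly hδ
  refine ⟨3087 * K * (3 * (D * (4 : ℝ) ^ (2 * S + 1))), by positivity, fun s hs B _ a _ _ _ => ?_⟩
  classical
  set M := B.sup sh + 1 with hM
  have hsh : ∀ k ∈ B, sh k < M := fun k hk => Nat.lt_succ_of_le (Finset.le_sup hk)
  set R := Finset.range M ×ˢ Finset.range M ×ˢ Finset.range M with hR
  have h1 : ∑ x ∈ Tr B, ((jb (-(x.1 + x.2)) ^ (2 * s) : ℝ) : ℂ) * th (el loc Y) a a a x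
      = ∑ τ ∈ R, ∑ x ∈ Tr B, (if sh3 x = τ then
        ((jb (-(x.1 + x.2)) ^ (2 * s) : ℝ) : ℂ) * th (el loc Y) a a a x else 0) := by
    rw [Finset.sum_comm]
    refine Finset.sum_congr rfl fun x hx => ?_
    rw [Finset.sum_ite_eq, if_pos]
    rw [mem_Tr] at hx
    simp only [hR, Finset.mem_product, Finset.mem_range, sh3]
    exact ⟨hsh _ hx.1, hsh _ hx.2.1, hsh _ hx.2.2⟩
  rw [h1]
  refine (norm_sum_le _ _).trans ?_
  refine (Finset.sum_le_sum fun τ _ => fiber_GG hK h hloc B a hs.1 τ).trans ?_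
  rw [← Finset.mul_sum, ← Finset.mul_sum]
  have h2 := sum_GG B a s M
  have h3 := shells_le B a hs.1 hδ M hD hp
  have h4 : (4 : ℝ) ^ (2 * s + 1) ≤ 4 ^ (2 * S + 1) :=
    Real.rpow_le_rpow_of_exponent_le (by norm_num) (by linarith [hs.2])
  have h5 : 0 ≤ ∑ k ∈ B, jb k ^ (2 * s) * jb k ^ (1 + δ) * nsq (a k) :=
    Finset.sum_nonneg fun k _ => mul_nonneg (mul_nonneg (Real.rpow_nonneg (jb_pos k).le _)
      (Real.rpow_nonneg (jb_pos k).le _)) (nsq_nonneg _)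
  have hE := Real.sqrt_nonneg (∑ k ∈ B, nsq (a k))
  calc 3087 * K * (Real.sqrt (∑ k ∈ B, nsq (a k)) * ∑ τ ∈ R, GG B a s τ)
      ≤ 3087 * K * (Real.sqrt (∑ k ∈ B, nsq (a k)) * (3 * (D * (4 : ℝ) ^ (2 * S + 1)
        * ∑ k ∈ B, jb k ^ (2 * s) * jb k ^ (1 + δ) * nsq (a k)))) := by
        refine mul_le_mul_of_nonneg_left (mul_le_mul_of_nonneg_left ?_ hE) (by positivity)
        refine h2.trans (mul_le_mul_of_nonneg_left (h3.trans ?_) (by norm_num))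
        exact mul_le_mul_of_nonneg_right (mul_le_mul_of_nonneg_left h4 hD) h5
    _ = _ := by ring

end Pool.Agent.Run7.h507.RT
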