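import Pool.Agent.Run7.h507.RT.Lim

/-!
Existence of global solutions when the triads are subordinate to the dissipation.
-/

set_option autoImplicit false

open MeasureTheory Set Filter Topology
open scoped ContDiff ComplexConjugate NNReal

namespace Pool.Agent.Run7.h507.RT

theorem Gal.mono {η : K3 → K3 → ℝ} {ν α T T' : ℝ} {B : Finset K3} {a : ℝ → Cf}
    (hG : Gal η ν α B T a) (h : T' ≤ T) : Gal η ν α B T' a :=
  ⟨hG.supp, hG.herm, hG.div, fun t ht => hG.der t ⟨ht.1, ht.2.trans h⟩,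
    fun t ht => hG.energy t ⟨ht.1, ht.2.trans h⟩⟩

/-- The weight `η` is subordinate of order `Ψ`. -/
def Sub (η : K3 → K3 → ℝ) (Ψ : K3 → ℝ) : Prop :=
  ∀ S : ℝ, ∃ C : ℝ, 0 ≤ C ∧ ∀ s ∈ Icc 0 S, SubAt η Ψ C s

/-- `Ψ` is absorbed by the dissipation. -/
def Absb (ν α : ℝ) (Ψ : K3 → ℝ) : Prop :=
  ∀ σ c : ℝ, ∃ M : ℝ, 0 ≤ M ∧ ∀ k,
    2 * σ * Real.log (jb k) - 2 * lam ν α k + c * Ψ k ≤ M

theorem jb_rpow_le_sq {α : ℝ} (hα : 0 < α) (k : K3) : jb k ^ (2 * α) - 1 ≤ sq k ^ α := by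
  by_cases hk : k = 0
  · subst hk
    rw [jb_zero, Real.one_rpow, sq_zero', Real.zero_rpow hα.ne']
    norm_num
  · rw [jb_of_ne hk, ← len_sq, ← Real.rpow_natCast, ← Real.rpow_mul (len_nonneg k)]
    norm_num

theorem exists_bound {ν β γ : ℝ} (hν : 0 < ν) (hγ : 0 < γ) (hβ : β < γ) (σ c : ℝ) :
    ∃ M : ℝ, 0 ≤ M ∧ ∀ x : ℝ, 1 ≤ x → 2 * σ * Real.log x - 2 * (ν * (x ^ γ - 1)) + c * x ^ β ≤ M := by
  have h1 : ∀ᶠ x : ℝ in atTop, |2 * σ * Real.log x| ≤ ν * x ^ γ := by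
    have := (isLittleO_log_rpow_atTop hγ).const_mul_left (2 * σ)
    filter_upwards [this.bound hν, eventually_ge_atTop 0] with x hx hx0
    rwa [Real.norm_eq_abs, Real.norm_eq_abs, abs_of_nonneg (Real.rpow_nonneg hx0 _)] at hx
  have h2 : ∀ᶠ x : ℝ in atTop, |c * x ^ β| ≤ ν * x ^ γ := by
    filter_upwards [(tendsto_rpow_atTop (by linarith : 0 < γ - β)).eventually_ge_atTop (|c| / ν),
      eventually_gt_atTop 0] with x hx hx0
    rw [abs_mul, abs_of_nonneg (Real.rpow_nonneg hx0.le β)]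
    have e : x ^ γ = x ^ (γ - β) * x ^ β := by rw [← Real.rpow_add hx0]; congr 1; ring
    rw [e, ← mul_assoc]
    refine mul_le_mul_of_nonneg_right ?_ (Real.rpow_nonneg hx0.le β)
    rw [div_le_iff₀ hν] at hx
    linarith
  obtain ⟨X, hX⟩ := eventually_atTop.1 (h1.and h2)
  have hc : ContinuousOn (fun x : ℝ => 2 * σ * Real.log x - 2 * (ν * (x ^ γ - 1)) + c * x ^ β)
      (Icc 1 (max 1 X)) := by
    have hne : ∀ x ∈ Icc (1 : ℝ) (max 1 X), x ≠ 0 := fun x hx => by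
      have := hx.1
      intro h
      rw [h] at this
      norm_num at this
    refine ContinuousOn.add (ContinuousOn.sub ?_ ?_) ?_
    · exact continuousOn_const.mul (Real.continuousOn_log.mono fun x hx => hne x hx)
    · exact continuousOn_const.mul (continuousOn_const.mul
        ((continuousOn_id.rpow_const fun x hx => Or.inl (hne x hx)).sub continuousOn_const))
    · exact continuousOn_const.mul (continuousOn_id.rpow_const fun x hx => Or.inl (hne x hx))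
  obtain ⟨M, hM⟩ := isCompact_Icc.exists_bound_of_continuousOn hc
  refine ⟨max (max M 0) (2 * ν), le_max_of_le_left (le_max_right _ _), fun x hx => ?_⟩
  rcases le_total x (max 1 X) with h | h
  · exact ((le_abs_self _).trans (hM x ⟨hx, h⟩)).trans ((le_max_left _ _).trans (le_max_left _ _))
  · obtain ⟨e1, e2⟩ := hX x ((le_max_right _ _).trans h)
    have e3 := (abs_le.1 e1).2
    have e4 := (abs_le.1 e2).2
    refine le_trans ?_ (le_max_right _ _)
    nlinarith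

theorem absb_rpow {ν α β : ℝ} (hν : 0 < ν) (hα : 0 < α) (hβ : β < 2 * α) :
    Absb ν α (fun k => jb k ^ β) := by
  intro σ c
  obtain ⟨M, hM0, hM⟩ := exists_bound hν (by linarith : 0 < 2 * α) hβ σ c
  refine ⟨M, hM0, fun k => ?_⟩
  have h1 := hM (jb k) (one_le_jb k)
  have h2 := mul_le_mul_of_nonneg_left (jb_rpow_le_sq hα k) hν.le
  have h3 : lam ν α k = ν * sq k ^ α := rfl
  linarith

/-- A pointwise bound from a weighted sum. -/
theorem pt_bound {B : Finset K3} {a : Cf} (hs : ∀ k ∉ B, a k = 0) {m : ℕ} {r Q : ℝ}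
    (hr : (m : ℝ) ≤ r) (h : ∑ k ∈ B, jb k ^ (2 * r) * nsq (a k) ≤ Q) (k : K3) :
    jb k ^ m * ‖a k‖ ≤ Real.sqrt Q := by
  by_cases hk : k ∈ B
  · refine Real.le_sqrt_of_sq_le ?_
    have h1 : jb k ^ (2 * r) * nsq (a k) ≤ Q :=
      (Finset.single_le_sum (f := fun k => jb k ^ (2 * r) * nsq (a k))
        (fun k _ => mul_nonneg (Real.rpow_nonneg (jb_pos k).le _) (nsq_nonneg _)) hk).trans h
    refine le_trans ?_ h1
    rw [mul_pow]
    refine mul_le_mul ?_ (norm_sq_le_nsq _) (sq_nonneg _) (Real.rpow_nonneg (jb_pos k).le _)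
    rw [← Real.rpow_natCast, ← Real.rpow_natCast, ← Real.rpow_mul (jb_pos k).le]
    refine Real.rpow_le_rpow_of_exponent_le (one_le_jb k) ?_
    push_cast
    linarith
  · rw [hs k hk, norm_zero, mul_zero]
    exact Real.sqrt_nonneg _

theorem sum_ball {η : K3 → K3 → ℝ} {ν α T : ℝ} {n : ℕ} {c : Cf} {a : ℝ → Cf}
    (_hG : Gal η ν α (Bn n) T a) (h0 : ∀ k ∈ Bn n, a 0 k = c k) (w : K3 → ℝ) :
    ∑ k ∈ Bn n, w k * nsq (a 0 k) = ∑ k ∈ Bn n, w k * nsq (c k) :=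
  Finset.sum_congr rfl fun k hk => by rw [h0 k hk]

section

variable {η : K3 → K3 → ℝ} {ν α : ℝ} {Ψ : K3 → ℝ}

/-- Bounds for data in `L²`, at positive times. -/
theorem bound_pos (hΨ : ∀ k, 0 ≤ Ψ k) (hS : Sub η Ψ) (hA : Absb ν α Ψ) {c : Cf}
    (hc : Summable fun k => nsq (c k)) {s t : ℝ} (hs : 0 < s) (m : ℕ) :
    ∃ C : ℝ, ∀ n : ℕ, t ≤ n → ∀ a : ℝ → Cf, Gal η ν α (Bn n) n a →
      (∀ k ∈ Bn n, a 0 k = c k) → ∀ τ ∈ Icc s t, ∀ k, jb k ^ m * ‖a τ k‖ ≤ C := by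
  set E : ℝ := ∑' k, nsq (c k) with hE
  obtain ⟨C, hC0, hC⟩ := hS (m / s * t)
  obtain ⟨M, hM0, hM⟩ := hA (m / s) (2 * (C * Real.sqrt E))
  refine ⟨Real.sqrt (Real.exp (M * t) * E), fun n hn a hG h0 τ hτ k => ?_⟩
  have hE0 : 0 ≤ E := tsum_nonneg fun k => nsq_nonneg _
  have hle : ∑ k ∈ Bn n, nsq (a 0 k) ≤ E := by
    rw [Finset.sum_congr rfl fun k hk => by rw [h0 k hk]]
    exact hc.sum_le_tsum _ fun _ _ => nsq_nonneg _
  have h1 := apriori (hG.mono hn) Bn_neg hΨ (S := m / s * t) (s₀ := 0) (σ := m / s)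
    (R := Real.sqrt E) (M := M) hC0 hC
    (fun x hx => by
      rw [zero_add]
      exact ⟨mul_nonneg (by positivity) hx.1, mul_le_mul_of_nonneg_left hx.2 (by positivity)⟩)
    (Real.sqrt_le_sqrt hle) hM τ ⟨hs.le.trans hτ.1, hτ.2⟩
  refine pt_bound (hG.supp τ) (r := 0 + m / s * τ) ?_ (h1.trans ?_) k
  · rw [zero_add, div_mul_eq_mul_div, le_div_iff₀ hs]
    exact mul_le_mul_of_nonneg_left hτ.1 (Nat.cast_nonneg m)
  · refine mul_le_mul (Real.exp_le_exp.2 (mul_le_mul_of_nonneg_left hτ.2 hM0)) ?_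
      (Finset.sum_nonneg fun k _ => mul_nonneg (Real.rpow_nonneg (jb_pos k).le _) (nsq_nonneg _))
      (Real.exp_pos _).le
    simp only [mul_zero, Real.rpow_zero, one_mul]
    exact hle

/-- Bounds for smooth data. -/
theorem bound_smooth (hΨ : ∀ k, 0 ≤ Ψ k) (hS : Sub η Ψ) (hA : Absb ν α Ψ) {c : Cf}
    (hc : Rapid c) {s t : ℝ} (hs : 0 ≤ s) (m : ℕ) :
    ∃ C : ℝ, ∀ n : ℕ, t ≤ n → ∀ a : ℝ → Cf, Gal η ν α (Bn n) n a →
      (∀ k ∈ Bn n, a 0 k = c k) → ∀ τ ∈ Icc s t, ∀ k, jb k ^ m * ‖a τ k‖ ≤ C := by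
  have hsum : ∀ r : ℝ, Summable fun k => jb k ^ (2 * r) * nsq (c k) := by
    intro r
    obtain ⟨N, hN⟩ := exists_nat_ge r
    obtain ⟨C1, hC1⟩ := hc (N + 3)
    obtain ⟨C2, hC2⟩ := hc 0
    have h1 : ∀ k, jb k ^ (N + 3) * ‖c k‖ ≤ |C1| + |C2| := by
      intro k
      by_cases hk : k = 0
      · subst hk
        rw [jb_zero, one_pow, one_mul]
        have := hC2 0
        rw [pow_zero, one_mul] at this
        have := this.trans (le_abs_self C2)
        linarith [abs_nonneg C1]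
      · rw [jb_of_ne hk]
        have := (hC1 k).trans (le_abs_self C1)
        linarith [abs_nonneg C2]
    refine Summable.of_nonneg_of_le (fun k => mul_nonneg (Real.rpow_nonneg (jb_pos k).le _)
      (nsq_nonneg _)) (fun k => ?_) (summable_jb.mul_left (3 * (|C1| + |C2|) ^ 2))
    have h0 := jb_pos k
    have h2 : jb k ^ (2 * r) ≤ jb k ^ (2 * N) := by
      rw [← Real.rpow_natCast]
      refine Real.rpow_le_rpow_of_exponent_le (one_le_jb k) ?_
      push_cast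
      linarith
    rw [← div_eq_mul_inv, le_div_iff₀ (by positivity)]
    calc jb k ^ (2 * r) * nsq (c k) * jb k ^ 6
        ≤ jb k ^ (2 * N) * (3 * ‖c k‖ ^ 2) * jb k ^ 6 := by
          refine mul_le_mul_of_nonneg_right ?_ (by positivity)
          exact mul_le_mul h2 (nsq_le _) (nsq_nonneg _) (by positivity)
      _ = 3 * (jb k ^ (N + 3) * ‖c k‖) ^ 2 := by ring
      _ ≤ 3 * (|C1| + |C2|) ^ 2 := by
          have := pow_le_pow_left₀ (by positivity) (h1 k) 2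
          linarith
  have hsum0 : Summable fun k => nsq (c k) := by
    have := hsum 0
    simpa using this
  set E : ℝ := ∑' k, nsq (c k) with hE
  set Q : ℝ := ∑' k, jb k ^ (2 * (m : ℝ)) * nsq (c k) with hQ
  obtain ⟨C, hC0, hC⟩ := hS m
  obtain ⟨M, hM0, hM⟩ := hA 0 (2 * (C * Real.sqrt E))
  refine ⟨Real.sqrt (Real.exp (M * t) * Q), fun n hn a hG h0 τ hτ k => ?_⟩
  have hle : ∑ k ∈ Bn n, nsq (a 0 k) ≤ E := by
    rw [Finset.sum_congr rfl fun k hk => by rw [h0 k hk]]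
    exact hsum0.sum_le_tsum _ fun _ _ => nsq_nonneg _
  have h1 := apriori (hG.mono hn) Bn_neg hΨ (S := m) (s₀ := m) (σ := 0)
    (R := Real.sqrt E) (M := M) hC0 hC
    (fun x hx => by
      rw [zero_mul, add_zero]
      exact ⟨Nat.cast_nonneg m, le_rfl⟩)
    (Real.sqrt_le_sqrt hle) hM τ ⟨hs.trans hτ.1, hτ.2⟩
  refine pt_bound (hG.supp τ) (r := m + 0 * τ) (by simp) (h1.trans ?_) k
  refine mul_le_mul (Real.exp_le_exp.2 (mul_le_mul_of_nonneg_left hτ.2 hM0)) ?_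
    (Finset.sum_nonneg fun k _ => mul_nonneg (Real.rpow_nonneg (jb_pos k).le _) (nsq_nonneg _))
    (Real.exp_pos _).le
  rw [Finset.sum_congr rfl fun k hk => by rw [h0 k hk]]
  exact (hsum m).sum_le_tsum _ fun k _ =>
    mul_nonneg (Real.rpow_nonneg (jb_pos k).le _) (nsq_nonneg _)

theorem summable_of_rapid {c : Cf} (hc : Rapid c) : Summable fun k => nsq (c k) := by
  obtain ⟨C1, hC1⟩ := hc 3
  obtain ⟨C2, hC2⟩ := hc 0
  have h1 : ∀ k, jb k ^ 3 * ‖c k‖ ≤ |C1| + |C2| := by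
    intro k
    by_cases hk : k = 0
    · subst hk
      rw [jb_zero, one_pow, one_mul]
      have := hC2 0
      rw [pow_zero, one_mul] at this
      have := this.trans (le_abs_self C2)
      linarith [abs_nonneg C1]
    · rw [jb_of_ne hk]
      have := (hC1 k).trans (le_abs_self C1)
      linarith [abs_nonneg C2]
  refine Summable.of_nonneg_of_le (fun k => nsq_nonneg _) (fun k => ?_)
    (summable_jb.mul_left (3 * (|C1| + |C2|) ^ 2))
  have h0 := jb_pos k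
  rw [← div_eq_mul_inv, le_div_iff₀ (by positivity)]
  calc nsq (c k) * jb k ^ 6 ≤ 3 * ‖c k‖ ^ 2 * jb k ^ 6 :=
        mul_le_mul_of_nonneg_right (nsq_le _) (by positivity)
    _ = 3 * (jb k ^ 3 * ‖c k‖) ^ 2 := by ring
    _ ≤ 3 * (|C1| + |C2|) ^ 2 := by
        have := pow_le_pow_left₀ (by positivity) (h1 k) 2
        linarith

/-- Global smooth solutions for smooth data. -/
theorem exists_smooth (hη : IsWeight η) (hν : 0 ≤ ν) (hα : 0 ≤ α) (hΨ : ∀ k, 0 ≤ Ψ k)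
    (hS : Sub η Ψ) (hA : Absb ν α Ψ) {c : Cf} (hh : Herm c) (hd : Dv c) (hc : Rapid c) :
    ∃ L : ℝ → Cf, L 0 = c ∧ Sol η ν α (Ici 0) L := by
  obtain ⟨L, h0, h1, _⟩ := exists_sol hη hν hα hh hd (summable_of_rapid hc) (J := Ici 0)
    (fun t ht => ht)
    (fun t ht => ⟨0, self_mem_Ici, t + 1, by have : (0 : ℝ) ≤ t := ht; exact add_nonneg this zero_le_one,
      ⟨ht, by linarith⟩, by
        have : Ici (0 : ℝ) ∩ Iio (t + 1) ⊆ Icc 0 (t + 1) := fun s hs => ⟨hs.1, hs.2.le⟩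
        exact mem_of_superset (inter_mem self_mem_nhdsWithin
          (mem_nhdsWithin_of_mem_nhds (Iio_mem_nhds (by linarith)))) this⟩)
    (fun s hs t _ m => bound_smooth hΨ hS hA hc hs m)
  exact ⟨L, h0, h1⟩

/-- Global solutions for data in `L²`, smooth for positive times. -/
theorem exists_L2 (hη : IsWeight η) (hν : 0 ≤ ν) (hα : 0 ≤ α) (hΨ : ∀ k, 0 ≤ Ψ k)
    (hS : Sub η Ψ) (hA : Absb ν α Ψ) {c : Cf} (hh : Herm c) (hd : Dv c)
    (hc : Summable fun k => nsq (c k)) :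
    ∃ L : ℝ → Cf, L 0 = c ∧ Sol η ν α (Ioi 0) L ∧
      (∀ t, 0 ≤ t → ∀ F : Finset K3, ∑ k ∈ F, nsq (L t k) ≤ ∑' k, nsq (c k)) ∧
      ∀ k, ∃ C : ℝ, ∀ t, 0 ≤ t → ‖L t k - c k‖ ≤ C * t := by
  refine exists_sol hη hν hα hh hd hc (J := Ioi 0) (fun t ht => le_of_lt ht)
    (fun t ht => ?_) (fun s hs t _ m => bound_pos hΨ hS hA hc hs m)
  have h0 : (0 : ℝ) < t := ht
  refine ⟨t / 2, by simpa using h0, t + 1, ?_, ⟨by linarith, by linarith⟩, ?_⟩
  · show (0 : ℝ) < t + 1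
    linarith
  · exact mem_nhdsWithin_of_mem_nhds (Icc_mem_nhds (by linarith) (by linarith))

end

end Pool.Agent.Run7.h507.RT
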