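import Mathlib

/-!
A trilinear form which is small on the indicator functions of sets is bounded on `ℓ²` up to
logarithms.
-/

set_option autoImplicit false

open Finset

namespace Pool.Agent.Run7.h507.RT

variable {ι : Type*} [DecidableEq ι]

/-- Nonnegative values. -/
theorem flat_nonneg {f : ι → ℝ} {K : ℝ} (S : Finset ι)
    (h : ∀ A ⊆ S, |∑ i ∈ A, f i| ≤ K * Real.sqrt A.card) :
    ∀ (n : ℕ) (A : Finset ι), A ⊆ S → A.card = n → (∀ i ∈ A, 0 ≤ f i) →
      ∑ i ∈ A, f i ^ 2 ≤ K ^ 2 * (harmonic n : ℝ) := by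
  intro n
  induction n with
  | zero =>
    intro A _ hA _
    rw [Finset.card_eq_zero] at hA
    simp [hA]
  | succ n ih =>
    intro A hAS hA hf
    have hne : A.Nonempty := Finset.card_pos.1 (by omega)
    obtain ⟨i₀, hi₀, hmin⟩ := Finset.exists_min_image A f hne
    have h1 : (A.card : ℝ) * f i₀ ≤ ∑ i ∈ A, f i := by
      rw [← nsmul_eq_mul]
      exact Finset.card_nsmul_le_sum A f (f i₀) fun i hi => hmin i hi
    have h2 := (le_abs_self _).trans (h A hAS)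
    have h3 : (0 : ℝ) < n + 1 := by positivity
    have hc : (A.card : ℝ) = n + 1 := by rw [hA]; push_cast; ring
    rw [hc] at h1 h2
    have h4 : (n + 1) * f i₀ ≤ K * Real.sqrt (n + 1) := h1.trans h2
    have h5 : f i₀ ^ 2 ≤ K ^ 2 * (((n : ℝ) + 1)⁻¹) := by
      rw [← div_eq_mul_inv, le_div_iff₀ h3]
      have h6 := hf i₀ hi₀
      have h7 : ((n + 1) * f i₀) ^ 2 ≤ (K * Real.sqrt (n + 1)) ^ 2 :=
        pow_le_pow_left₀ (by positivity) h4 2
      rw [mul_pow, mul_pow, Real.sq_sqrt h3.le] at h7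
      have h8 : (n + 1 : ℝ) * ((n + 1) * f i₀ ^ 2) ≤ (n + 1) * K ^ 2 := by linarith
      have h9 := le_of_mul_le_mul_left h8 h3
      linarith
    have h10 := ih (A.erase i₀) ((Finset.erase_subset _ _).trans hAS)
      (by rw [Finset.card_erase_of_mem hi₀, hA]; omega) fun i hi => hf i (Finset.mem_of_mem_erase hi)
    rw [← Finset.add_sum_erase A (fun i => f i ^ 2) hi₀, harmonic_succ]
    push_cast
    rw [mul_add]
    linarith

theorem harmonic_mono' {m n : ℕ} (h : m ≤ n) : (harmonic m : ℝ) ≤ harmonic n := by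
  have : (harmonic m : ℚ) ≤ harmonic n := by
    unfold harmonic
    exact Finset.sum_le_sum_of_subset_of_nonneg (Finset.range_mono h) fun i _ _ => by positivity
  exact_mod_cast this

theorem flat_real {f : ι → ℝ} {K : ℝ} (S : Finset ι)
    (h : ∀ A ⊆ S, |∑ i ∈ A, f i| ≤ K * Real.sqrt A.card) :
    ∑ i ∈ S, f i ^ 2 ≤ 2 * (K ^ 2 * (harmonic S.card : ℝ)) := by
  have h1 := flat_nonneg S h _ (S.filter fun i => 0 ≤ f i) (Finset.filter_subset _ _) rfl
    fun i hi => (Finset.mem_filter.1 hi).2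
  have h2 := flat_nonneg (f := fun i => -f i) S (fun A hA => by
      rw [Finset.sum_neg_distrib, abs_neg]
      exact h A hA) _ (S.filter fun i => ¬0 ≤ f i) (Finset.filter_subset _ _) rfl
    fun i hi => by
      have := (Finset.mem_filter.1 hi).2
      linarith
  have h3 : (harmonic (S.filter fun i => 0 ≤ f i).card : ℝ) ≤ harmonic S.card :=
    harmonic_mono' (Finset.card_le_card (Finset.filter_subset _ _))
  have h4 : (harmonic (S.filter fun i => ¬0 ≤ f i).card : ℝ) ≤ harmonic S.card :=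
    harmonic_mono' (Finset.card_le_card (Finset.filter_subset _ _))
  rw [← Finset.sum_filter_add_sum_filter_not S (fun i => 0 ≤ f i)]
  simp only [neg_sq] at h2
  have h5 := mul_le_mul_of_nonneg_left h3 (sq_nonneg K)
  have h6 := mul_le_mul_of_nonneg_left h4 (sq_nonneg K)
  linarith

theorem flat_complex {f : ι → ℂ} {K : ℝ} (S : Finset ι)
    (h : ∀ A ⊆ S, ‖∑ i ∈ A, f i‖ ≤ K * Real.sqrt A.card) :
    ∑ i ∈ S, ‖f i‖ ^ 2 ≤ 4 * (K ^ 2 * (harmonic S.card : ℝ)) := by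
  have h1 := flat_real (f := fun i => (f i).re) S fun A hA => by
    rw [← Complex.re_sum]
    exact (Complex.abs_re_le_norm _).trans (h A hA)
  have h2 := flat_real (f := fun i => (f i).im) S fun A hA => by
    rw [← Complex.im_sum]
    exact (Complex.abs_im_le_norm _).trans (h A hA)
  have h3 : ∑ i ∈ S, ‖f i‖ ^ 2 = ∑ i ∈ S, (f i).re ^ 2 + ∑ i ∈ S, (f i).im ^ 2 := by
    rw [← Finset.sum_add_distrib]
    refine Finset.sum_congr rfl fun i _ => ?_
    rw [← Complex.normSq_eq_norm_sq, Complex.normSq_apply]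
    ring
  rw [h3]
  linarith

/-- The logarithmic factor. -/
noncomputable def Hl (S : Finset ι) : ℝ := Real.sqrt (4 * (harmonic S.card : ℝ))

theorem harmonic_nonneg' (n : ℕ) : (0 : ℝ) ≤ harmonic n := by
  have : (0 : ℚ) ≤ harmonic n := by
    unfold harmonic
    exact Finset.sum_nonneg fun i _ => by positivity
  exact_mod_cast this

theorem flat_lin {f : ι → ℂ} {K : ℝ} (hK : 0 ≤ K) (S : Finset ι)
    (h : ∀ A ⊆ S, ‖∑ i ∈ A, f i‖ ≤ K * Real.sqrt A.card) (u : ι → ℂ) :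
    ‖∑ i ∈ S, f i * u i‖ ≤ K * Hl S * Real.sqrt (∑ i ∈ S, ‖u i‖ ^ 2) := by
  have h1 := flat_complex S h
  calc ‖∑ i ∈ S, f i * u i‖ ≤ ∑ i ∈ S, ‖f i‖ * ‖u i‖ := by
        refine (norm_sum_le _ _).trans (le_of_eq ?_)
        exact Finset.sum_congr rfl fun i _ => norm_mul _ _
    _ ≤ Real.sqrt (∑ i ∈ S, ‖f i‖ ^ 2) * Real.sqrt (∑ i ∈ S, ‖u i‖ ^ 2) :=
        Real.sum_mul_le_sqrt_mul_sqrt _ _ _
    _ ≤ K * Hl S * Real.sqrt (∑ i ∈ S, ‖u i‖ ^ 2) := by
        refine mul_le_mul_of_nonneg_right ?_ (Real.sqrt_nonneg _)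
        rw [Hl]
        have h2 : K * Real.sqrt (4 * (harmonic S.card : ℝ))
            = Real.sqrt (4 * (K ^ 2 * (harmonic S.card : ℝ))) := by
          rw [show 4 * (K ^ 2 * (harmonic S.card : ℝ)) = K ^ 2 * (4 * (harmonic S.card : ℝ)) by ring,
            Real.sqrt_mul (sq_nonneg K), Real.sqrt_sq hK]
        rw [h2]
        exact Real.sqrt_le_sqrt h1

/-- The trilinear form. -/
theorem flat_tri {t : ι → ι → ι → ℂ} {K : ℝ} (hK : 0 ≤ K) (S : Finset ι)
    (h : ∀ A ⊆ S, ∀ B ⊆ S, ∀ C ⊆ S, ‖∑ i ∈ A, ∑ j ∈ B, ∑ k ∈ C, t i j k‖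
      ≤ K * Real.sqrt A.card * Real.sqrt B.card * Real.sqrt C.card) (u v w : ι → ℂ) :
    ‖∑ i ∈ S, ∑ j ∈ S, ∑ k ∈ S, t i j k * u i * v j * w k‖
      ≤ K * Hl S ^ 3 * Real.sqrt (∑ i ∈ S, ‖u i‖ ^ 2) * Real.sqrt (∑ i ∈ S, ‖v i‖ ^ 2)
        * Real.sqrt (∑ i ∈ S, ‖w i‖ ^ 2) := by
  have hH : 0 ≤ Hl S := Real.sqrt_nonneg _
  set U := Real.sqrt (∑ i ∈ S, ‖u i‖ ^ 2) with hU
  set W := Real.sqrt (∑ i ∈ S, ‖v i‖ ^ 2) with hW
  have hU0 : 0 ≤ U := Real.sqrt_nonneg _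
  have hW0 : 0 ≤ W := Real.sqrt_nonneg _
  have h1 : ∀ B ⊆ S, ∀ C ⊆ S, ‖∑ i ∈ S, ∑ j ∈ B, ∑ k ∈ C, t i j k * u i‖
      ≤ K * Hl S * U * Real.sqrt B.card * Real.sqrt C.card := by
    intro B hB C hC
    have h2 := flat_lin (f := fun i => ∑ j ∈ B, ∑ k ∈ C, t i j k)
      (K := K * Real.sqrt B.card * Real.sqrt C.card) (by positivity) S (fun A hA => by
        refine (h A hA B hB C hC).trans (le_of_eq ?_)
        ring) u
    simp only [Finset.sum_mul] at h2
    refine h2.trans (le_of_eq ?_)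
    ring
  have h2 : ∀ C ⊆ S, ‖∑ i ∈ S, ∑ j ∈ S, ∑ k ∈ C, t i j k * u i * v j‖
      ≤ K * Hl S ^ 2 * U * W * Real.sqrt C.card := by
    intro C hC
    have h3 := flat_lin (f := fun j => ∑ i ∈ S, ∑ k ∈ C, t i j k * u i)
      (K := K * Hl S * U * Real.sqrt C.card) (by positivity) S (fun B hB => by
        rw [Finset.sum_comm]
        refine (h1 B hB C hC).trans (le_of_eq ?_)
        ring) v
    simp only [Finset.sum_mul] at h3
    rw [Finset.sum_comm] at h3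
    refine h3.trans (le_of_eq ?_)
    ring
  have h3 := flat_lin (f := fun k => ∑ i ∈ S, ∑ j ∈ S, t i j k * u i * v j)
    (K := K * Hl S ^ 2 * U * W) (by positivity) S (fun C hC => by
      have e : ∑ k ∈ C, ∑ i ∈ S, ∑ j ∈ S, t i j k * u i * v j
          = ∑ i ∈ S, ∑ j ∈ S, ∑ k ∈ C, t i j k * u i * v j := by
        rw [Finset.sum_comm]
        exact Finset.sum_congr rfl fun i _ => Finset.sum_comm
      rw [e]
      exact h2 C hC) w
  simp only [Finset.sum_mul] at h3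
  have e : ∑ k ∈ S, ∑ i ∈ S, ∑ j ∈ S, t i j k * u i * v j * w k
      = ∑ i ∈ S, ∑ j ∈ S, ∑ k ∈ S, t i j k * u i * v j * w k := by
    rw [Finset.sum_comm]
    exact Finset.sum_congr rfl fun i _ => Finset.sum_comm
  rw [e] at h3
  refine h3.trans (le_of_eq ?_)
  ring

end Pool.Agent.Run7.h507.RT
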