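import Pool.Agent.Run7.h507.RT.Ode

/-!
The Galerkin approximations.
-/

set_option autoImplicit false

open MeasureTheory Set Filter Topology
open scoped ContDiff ComplexConjugate NNReal

namespace Pool.Agent.Run7.h507.RT

variable {B : Finset K3}

/-- The extension by zero. -/
noncomputable def ext (B : Finset K3) (x : ↥B → C3) : Cf :=
  fun k => if h : k ∈ B then x ⟨k, h⟩ else 0

theorem ext_mem {x : ↥B → C3} {k : K3} (h : k ∈ B) : ext B x k = x ⟨k, h⟩ := dif_pos h

theorem ext_not {x : ↥B → C3} {k : K3} (h : k ∉ B) : ext B x k = 0 := dif_neg h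

theorem ext_add (x y : ↥B → C3) : ext B (x + y) = ext B x + ext B y := by
  funext k
  by_cases h : k ∈ B
  · rw [Pi.add_apply, ext_mem h, ext_mem h, ext_mem h, Pi.add_apply]
  · rw [Pi.add_apply, ext_not h, ext_not h, ext_not h, add_zero]

theorem ext_smul (c : ℝ) (x : ↥B → C3) : ext B (c • x) = c • ext B x := by
  funext k
  by_cases h : k ∈ B
  · rw [Pi.smul_apply, ext_mem h, ext_mem h, Pi.smul_apply]
  · rw [Pi.smul_apply, ext_not h, ext_not h, smul_zero]

/-- The restriction to `B`. -/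
def rst (B : Finset K3) (a : Cf) : ↥B → C3 := fun k => a k

theorem ext_rst_mem {a : Cf} {k : K3} (h : k ∈ B) : ext B (rst B a) k = a k := ext_mem h

theorem ext_rst_of_supp {a : Cf} (h : ∀ k ∉ B, a k = 0) : ext B (rst B a) = a := by
  funext k
  by_cases hk : k ∈ B
  · exact ext_rst_mem hk
  · rw [ext_not hk, h k hk]

/-- The coefficients of real divergence free fields. -/
def HS (B : Finset K3) : Submodule ℝ (↥B → C3) where
  carrier := {x | Herm (ext B x) ∧ Dv (ext B x)}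
  add_mem' := by
    rintro x y ⟨hx1, hx2⟩ ⟨hy1, hy2⟩
    refine ⟨fun k i => ?_, fun k => ?_⟩
    · rw [ext_add, Pi.add_apply, Pi.add_apply, Pi.add_apply, Pi.add_apply, hx1 k i, hy1 k i, map_add]
    · rw [ext_add, Pi.add_apply, kd_add, hx2 k, hy2 k, add_zero]
  zero_mem' := by
    have : ext B (0 : ↥B → C3) = 0 := by
      funext k
      by_cases h : k ∈ B
      · rw [ext_mem h]; rfl
      · rw [ext_not h]; rfl
    refine ⟨fun k i => ?_, fun k => ?_⟩
    · rw [this]; simp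
    · rw [this]; exact kd_zero_right k
  smul_mem' := by
    rintro c x ⟨hx1, hx2⟩
    refine ⟨fun k i => ?_, fun k => ?_⟩
    · rw [ext_smul, Pi.smul_apply, Pi.smul_apply, Pi.smul_apply, Pi.smul_apply, hx1 k i]
      simp
    · rw [ext_smul, Pi.smul_apply, kd_rsmul, hx2 k, mul_zero]

theorem Herm.rst {a : Cf} (hs : ∀ k ∈ B, -k ∈ B) (ha : Herm a) : Herm (ext B (rst B a)) := by
  intro k i
  by_cases h : k ∈ B
  · rw [ext_rst_mem h, ext_rst_mem (hs k h), ha k i]
  · have h' : -k ∉ B := fun h' => h (by simpa using hs _ h')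
    rw [ext_not h, ext_not h']
    simp

theorem Dv.rst {a : Cf} (ha : Dv a) : Dv (ext B (rst B a)) := by
  intro k
  by_cases h : k ∈ B
  · rw [ext_rst_mem h, ha k]
  · rw [ext_not h, kd_zero_right]

theorem Herm.add {a b : Cf} (ha : Herm a) (hb : Herm b) : Herm (a + b) := fun k i => by
  rw [Pi.add_apply, Pi.add_apply, Pi.add_apply, Pi.add_apply, ha k i, hb k i, map_add]

theorem Herm.neg {a : Cf} (ha : Herm a) : Herm (-a) := fun k i => by
  rw [Pi.neg_apply, Pi.neg_apply, Pi.neg_apply, Pi.neg_apply, ha k i, map_neg]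

theorem Herm.sub {a b : Cf} (ha : Herm a) (hb : Herm b) : Herm (a - b) := by
  rw [sub_eq_add_neg]
  exact ha.add hb.neg

theorem Dv.add {a b : Cf} (ha : Dv a) (hb : Dv b) : Dv (a + b) := fun k => by
  rw [Pi.add_apply, kd_add, ha k, hb k, add_zero]

theorem Dv.neg {a : Cf} (ha : Dv a) : Dv (-a) := fun k => by
  rw [Pi.neg_apply, kd_neg_right, ha k, neg_zero]

theorem Dv.sub {a b : Cf} (ha : Dv a) (hb : Dv b) : Dv (a - b) := by
  rw [sub_eq_add_neg]
  exact ha.add hb.neg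

/-- The rate of the mode `k`. -/
noncomputable def lam (ν α : ℝ) (k : K3) : ℝ := ν * sq k ^ α

theorem lam_neg (ν α : ℝ) (k : K3) : lam ν α (-k) = lam ν α k := by rw [lam, lam, sq_neg]

theorem lam_nonneg {ν : ℝ} (hν : 0 ≤ ν) (α : ℝ) (k : K3) : 0 ≤ lam ν α k :=
  mul_nonneg hν (Real.rpow_nonneg (sq_nonneg' k) α)

/-- The dissipation. -/
noncomputable def dis (ν α : ℝ) (a : Cf) : Cf := fun k => lam ν α k • a k

theorem Herm.dis {a : Cf} (ha : Herm a) (ν α : ℝ) : Herm (dis ν α a) := fun k i => by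
  simp only [RT.dis, Pi.smul_apply]
  rw [lam_neg, ha k i]
  simp

theorem Dv.dis {a : Cf} (ha : Dv a) (ν α : ℝ) : Dv (dis ν α a) := fun k => by
  rw [RT.dis, kd_rsmul, ha k, mul_zero]

/-- The right hand side. -/
noncomputable def rhs (η : K3 → K3 → ℝ) (ν α : ℝ) (a : Cf) : Cf := -(dis ν α a) - nl η a a

theorem rhs_apply (η : K3 → K3 → ℝ) (ν α : ℝ) (a : Cf) (k : K3) :
    rhs η ν α a k = -((ν * sq k ^ α : ℝ) • a k) - nl η a a k := rfl

theorem herm_rhs {η : K3 → K3 → ℝ} (hη : IsWeight η) (ν α : ℝ) {a : Cf} (ha : Herm a) :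
    Herm (rhs η ν α a) := (ha.dis ν α).neg.sub (herm_nl hη.neg ha ha)

theorem dv_rhs (η : K3 → K3 → ℝ) (ν α : ℝ) {a : Cf} (ha : Dv a) :
    Dv (rhs η ν α a) := (ha.dis ν α).neg.sub (dv_nl η a a)

/-- The vector field. -/
noncomputable def vfl (η : K3 → K3 → ℝ) (ν α : ℝ) (B : Finset K3) (x : ↥B → C3) : ↥B → C3 :=
  rst B (rhs η ν α (ext B x))

theorem contDiff_ext (p : K3) (i : Fin 3) : ContDiff ℝ 1 (fun x : ↥B → C3 => ext B x p i) := by
  by_cases h : p ∈ B
  · simp only [ext_mem h]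
    fun_prop
  · simp only [ext_not h]
    exact contDiff_const

theorem contDiff_kd (k p : K3) : ContDiff ℝ 1 (fun x : ↥B → C3 => kd k (ext B x p)) := by
  unfold kd
  exact ContDiff.sum fun j _ => contDiff_const.mul (contDiff_ext p j)

theorem contDiff_vfl (η : K3 → K3 → ℝ) (ν α : ℝ) (B : Finset K3) :
    ContDiff ℝ 1 (vfl η ν α B) := by
  rw [contDiff_pi]
  intro k
  rw [contDiff_pi]
  intro i
  have hS : ∀ i : Fin 3, ContDiff ℝ 1 (fun x : ↥B → C3 =>
      (∑ p ∈ B, ((η p (k - p) : ℂ) * kd k (ext B x p)) • ext B x (k - p)) i) := by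
    intro i
    simp only [Finset.sum_apply, Pi.smul_apply, smul_eq_mul]
    exact ContDiff.sum fun p _ => (contDiff_const.mul (contDiff_kd _ _)).mul (contDiff_ext _ _)
  have hK : ContDiff ℝ 1 (fun x : ↥B → C3 =>
      kd k (∑ p ∈ B, ((η p (k - p) : ℂ) * kd k (ext B x p)) • ext B x (k - p))) := by
    unfold kd
    exact ContDiff.sum fun j _ => contDiff_const.mul (hS j)
  have he : (fun x : ↥B → C3 => vfl η ν α B x k i) = fun x =>
      -(((lam ν α k : ℝ) : ℂ) * ext B x k i) - Complex.I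
        * ((∑ p ∈ B, ((η p (k - p) : ℂ) * kd k (ext B x p)) • ext B x (k - p)) i
          - ((k : K3) i : ℂ)
            * (kd k (∑ p ∈ B, ((η p (k - p) : ℂ) * kd k (ext B x p)) • ext B x (k - p))
              * (sq k : ℂ)⁻¹)) := by
    funext x
    simp only [vfl, rst, rhs, Pi.sub_apply, Pi.neg_apply, dis, Pi.smul_apply]
    rw [nl_eq_sum η (fun p hp => ext_not hp)]
    simp only [Pi.smul_apply, prj, smul_eq_mul, Complex.real_smul, div_eq_mul_inv]
  rw [he]
  exact (contDiff_const.mul (contDiff_ext _ _)).neg.sub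
    (contDiff_const.mul ((hS i).sub (contDiff_const.mul (hK.mul contDiff_const))))

theorem vfl_mem {η : K3 → K3 → ℝ} (hη : IsWeight η) (ν α : ℝ) (hB : ∀ k ∈ B, -k ∈ B)
    {x : ↥B → C3} (hx : x ∈ HS B) : vfl η ν α B x ∈ HS B :=
  ⟨(herm_rhs hη ν α hx.1).rst hB, (dv_rhs η ν α hx.2).rst⟩

/-- The energy. -/
noncomputable def eng (B : Finset K3) (x : ↥B → C3) : ℝ := ∑ k, ∑ i, ‖x k i‖ ^ 2

theorem contDiff_eng (B : Finset K3) : ContDiff ℝ 1 (eng B) := by
  unfold eng
  refine ContDiff.sum fun k _ => ContDiff.sum fun i _ => ?_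
  have h : ContDiff ℝ 1 (fun x : ↥B → C3 => x k i) := by fun_prop
  exact h.norm_sq ℝ

theorem fderiv_eng (B : Finset K3) (x v : ↥B → C3) :
    fderiv ℝ (eng B) x v = ∑ k, 2 * ip (v k) (x k) := by
  have h1 : HasDerivAt (fun t : ℝ => eng B (x + t • v)) (fderiv ℝ (eng B) x v) 0 := by
    have e1 : HasFDerivAt (eng B) (fderiv ℝ (eng B) x) (x + (0 : ℝ) • v) := by
      rw [zero_smul, add_zero]
      exact ((contDiff_eng B).differentiable (by norm_num) x).hasFDerivAt
    have e2 : HasDerivAt (fun t : ℝ => x + t • v) v 0 := by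
      simpa using ((hasDerivAt_id (0 : ℝ)).smul_const v).const_add x
    exact e1.comp_hasDerivAt (0 : ℝ) e2
  have h2 : HasDerivAt (fun t : ℝ => eng B (x + t • v)) (∑ k, 2 * ip (v k) (x k)) 0 := by
    unfold eng ip
    have h3 : ∀ k : ↥B, ∀ i : Fin 3, HasDerivAt (fun t : ℝ => ‖(x + t • v) k i‖ ^ 2)
        (2 * (v k i * conj (x k i)).re) 0 := by
      intro k i
      have e1 : HasDerivAt (fun t : ℝ => x k i + t • v k i) (v k i) 0 := by
        simpa using ((hasDerivAt_id (0 : ℝ)).smul_const (v k i)).const_add (x k i)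
      have e2 := e1.norm_sq
      have e3 : (2 * inner ℝ (x k i + (0 : ℝ) • v k i) (v k i) : ℝ)
          = 2 * (v k i * conj (x k i)).re := by
        rw [zero_smul, add_zero, Complex.inner]
      rw [← e3]
      exact e2
    have h4 : (∑ k : ↥B, 2 * ∑ i, (v k i * conj (x k i)).re)
        = ∑ k : ↥B, ∑ i, 2 * (v k i * conj (x k i)).re := by
      simp only [Finset.mul_sum]
    rw [h4]
    exact HasDerivAt.fun_sum fun k _ => HasDerivAt.fun_sum fun i _ => h3 k i
  exact h1.unique h2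

theorem eng_eq (x : ↥B → C3) : eng B x = ∑ k ∈ B, nsq (ext B x k) := by
  rw [← Finset.sum_coe_sort]
  unfold eng nsq
  refine Finset.sum_congr rfl fun k _ => ?_
  rw [ext_mem k.2]

theorem compact_eng (B : Finset K3) (R : ℝ) : IsCompact {x : ↥B → C3 | eng B x ≤ R} := by
  have hc : IsClosed {x : ↥B → C3 | eng B x ≤ R} :=
    isClosed_le (contDiff_eng B).continuous continuous_const
  refine Metric.isCompact_of_isClosed_isBounded hc ?_
  refine (Metric.isBounded_closedBall (x := (0 : ↥B → C3)) (r := Real.sqrt R)).subset ?_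
  intro x hx
  rw [mem_closedBall_zero_iff, pi_norm_le_iff_of_nonneg (Real.sqrt_nonneg _)]
  intro k
  rw [pi_norm_le_iff_of_nonneg (Real.sqrt_nonneg _)]
  intro i
  refine Real.le_sqrt_of_sq_le (le_trans ?_ hx)
  unfold eng
  calc ‖x k i‖ ^ 2 ≤ ∑ i, ‖x k i‖ ^ 2 :=
        Finset.single_le_sum (f := fun i => ‖x k i‖ ^ 2) (fun _ _ => sq_nonneg _)
          (Finset.mem_univ i)
    _ ≤ _ := Finset.single_le_sum (f := fun k => ∑ i, ‖x k i‖ ^ 2)
          (fun _ _ => Finset.sum_nonneg fun _ _ => sq_nonneg _) (Finset.mem_univ k)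

/-- The nonlinear term does not change the energy. -/
theorem sum_ip_nl_one {η : K3 → K3 → ℝ} (hη : IsWeight η) {a : Cf} (hs : ∀ k ∉ B, a k = 0)
    (hB : ∀ k ∈ B, -k ∈ B) (hd : Dv a) (hh : Herm a) :
    ∑ k ∈ B, ip (nl η a a k) (a k) = 0 := by
  have h := sum_ip_nl η hs hs hB hd hh (fun _ => 1) (fun _ => rfl)
  simp only [one_mul, Complex.ofReal_one] at h
  have h2 := sum_th hη hd B (fun _ => 1)
  simp only [sub_self, zero_div, Complex.ofReal_zero, zero_mul, Finset.sum_const_zero,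
    Complex.ofReal_one, one_mul] at h2
  rw [h, h2]
  simp

/-- Galerkin approximations on `[0,T]`. -/
structure Gal (η : K3 → K3 → ℝ) (ν α : ℝ) (B : Finset K3) (T : ℝ) (a : ℝ → Cf) : Prop where
  supp : ∀ t, ∀ k ∉ B, a t k = 0
  herm : ∀ t, Herm (a t)
  div : ∀ t, Dv (a t)
  der : ∀ t ∈ Icc 0 T, ∀ k ∈ B, HasDerivAt (fun s => a s k) (rhs η ν α (a t) k) t
  energy : ∀ t ∈ Icc 0 T, ∑ k ∈ B, nsq (a t k) ≤ ∑ k ∈ B, nsq (a 0 k)

theorem exists_gal {η : K3 → K3 → ℝ} (hη : IsWeight η) {ν : ℝ} (hν : 0 ≤ ν) (α : ℝ)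
    (hB : ∀ k ∈ B, -k ∈ B) {T : ℝ} (hT : 0 ≤ T) {c : Cf} (hh : Herm c) (hd : Dv c) :
    ∃ a : ℝ → Cf, (∀ k ∈ B, a 0 k = c k) ∧ Gal η ν α B T a := by
  obtain ⟨x, h0, h1, h2, h3⟩ := exists_global_sub (HS B) (vfl η ν α B) (contDiff_vfl η ν α B)
    (fun x hx => vfl_mem hη ν α hB hx) (eng B) (contDiff_eng B) (compact_eng B)
    (fun x hx => by
      rw [fderiv_eng]
      have e1 : ∑ k : ↥B, 2 * ip (vfl η ν α B x k) (x k)
          = 2 * ∑ k ∈ B, ip (rhs η ν α (ext B x) k) (ext B x k) := by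
        rw [Finset.mul_sum,
          ← Finset.sum_coe_sort B (fun k => 2 * ip (rhs η ν α (ext B x) k) (ext B x k))]
        refine Finset.sum_congr rfl fun k _ => ?_
        rw [ext_mem k.2]
        rfl
      have e2 : ∀ k, ip (rhs η ν α (ext B x) k) (ext B x k)
          = -(lam ν α k * nsq (ext B x k)) - ip (nl η (ext B x) (ext B x) k) (ext B x k) := by
        intro k
        rw [rhs, Pi.sub_apply, ip_sub_left, Pi.neg_apply, ip_neg_left, dis, ip_smul_left, ip_self]
      rw [e1]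
      simp only [e2]
      rw [Finset.sum_sub_distrib, sum_ip_nl_one hη (fun k hk => ext_not hk) hB hx.2 hx.1, sub_zero,
        Finset.sum_neg_distrib]
      have : 0 ≤ ∑ k ∈ B, lam ν α k * nsq (ext B x k) :=
        Finset.sum_nonneg fun k _ => mul_nonneg (lam_nonneg hν α k) (nsq_nonneg _)
      linarith) (rst B c) ⟨hh.rst hB, hd.rst⟩ hT
  refine ⟨fun t => ext B (x t), fun k hk => ?_, fun t k hk => ext_not hk, fun t => (h1 t).1,
    fun t => (h1 t).2, fun t ht k hk => ?_, fun t ht => ?_⟩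
  · simp only [h0]
    exact ext_rst_mem hk
  · have e : HasDerivAt (fun s => x s ⟨k, hk⟩) (vfl η ν α B (x t) ⟨k, hk⟩) t :=
      (hasDerivAt_pi (φ := x)).1 (h2 t ht) ⟨k, hk⟩
    simp only [ext_mem hk]
    exact e
  · have := h3 t ht
    rw [eng_eq, eng_eq] at this
    simp only [h0]
    exact this

end Pool.Agent.Run7.h507.RT
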