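import Pool.Agent.Run7.h507.RT.Ex

/-!
The nonlocal triads.
-/

set_option autoImplicit false

open MeasureTheory Set Filter Topology
open scoped ContDiff ComplexConjugate NNReal

namespace Pool.Agent.Run7.h507.RT

/-- The shortest side of the triad. -/
noncomputable def mn (p q : K3) : ℝ := min (len p) (min (len q) (len (p + q)))

/-- The longest side of the triad. -/
noncomputable def mx (p q : K3) : ℝ := max (len p) (max (len q) (len (p + q)))

/-- Bernoulli. -/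
theorem abs_rpow_sub_le {x y c : ℝ} (hx : 0 < x) (hy : 0 < y) (hc : 0 ≤ c) :
    |x ^ c - y ^ c| ≤ max 1 c * |x - y| * max x y ^ (c - 1) := by
  wlog h : y ≤ x generalizing x y
  · have := this hy hx (le_of_not_ge h)
    rwa [abs_sub_comm, abs_sub_comm x y, max_comm x y]
  rw [max_eq_left h, abs_of_nonneg (sub_nonneg.2 (Real.rpow_le_rpow hy.le h hc)),
    abs_of_nonneg (sub_nonneg.2 h)]
  set z : ℝ := y / x with hz
  have hz0 : 0 < z := div_pos hy hx
  have hz1 : z ≤ 1 := (div_le_one hx).2 h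
  have hyz : y = z * x := by rw [hz, div_mul_cancel₀ _ hx.ne']
  have key : 1 - z ^ c ≤ max 1 c * (1 - z) := by
    rcases le_total c 1 with h1 | h1
    · rw [max_eq_left h1, one_mul]
      have : z ^ (1 : ℝ) ≤ z ^ c := Real.rpow_le_rpow_of_exponent_ge hz0 hz1 h1
      rw [Real.rpow_one] at this
      linarith
    · rw [max_eq_right h1]
      have := one_add_mul_self_le_rpow_one_add (s := z - 1) (by linarith) h1
      have e : 1 + (z - 1) = z := by ring
      rw [e] at this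
      linarith
  have e1 : x ^ c = x * x ^ (c - 1) := by
    rw [Real.rpow_sub_one hx.ne']
    field_simp
  have e2 : y ^ c = z ^ c * (x * x ^ (c - 1)) := by
    rw [hyz, Real.mul_rpow hz0.le hx.le, ← e1]
  have h3 : 0 ≤ x * x ^ (c - 1) := mul_nonneg hx.le (Real.rpow_nonneg hx.le _)
  calc x ^ c - y ^ c = (1 - z ^ c) * (x * x ^ (c - 1)) := by rw [e2, ← e1]; ring
    _ ≤ max 1 c * (1 - z) * (x * x ^ (c - 1)) := mul_le_mul_of_nonneg_right key h3
    _ = max 1 c * (x - y) * x ^ (c - 1) := by rw [hyz]; ring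

theorem card_ball (B : Finset K3) {ρ : ℝ} (hρ : 0 ≤ ρ) :
    ((B.filter fun m => len m ≤ ρ).card : ℝ) ≤ (2 * ρ + 1) ^ 3 := by
  have hsub : (B.filter fun m => len m ≤ ρ) ⊆ Bn ⌊ρ⌋₊ := by
    intro m hm
    rw [Finset.mem_filter] at hm
    rw [mem_Bn]
    intro i
    have h1 := (abs_le_len m i).trans hm.2
    have h2 : ((|m i| : ℤ) : ℝ) ≤ ρ := by
      rw [Int.cast_abs]
      exact h1
    have h3 : (|m i|).toNat ≤ ⌊ρ⌋₊ := by
      refine Nat.le_floor ?_
      have : (((|m i|).toNat : ℤ) : ℝ) = ((|m i| : ℤ) : ℝ) := by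
        rw [Int.toNat_of_nonneg (abs_nonneg _)]
      have h4 : (((|m i|).toNat : ℕ) : ℝ) = ((|m i| : ℤ) : ℝ) := by
        rw [← this]
        push_cast
        rfl
      rw [h4]
      exact h2
    have h5 : |m i| ≤ (⌊ρ⌋₊ : ℤ) := by
      rw [← Int.toNat_of_nonneg (abs_nonneg (m i))]
      exact_mod_cast h3
    exact abs_le.1 h5
  have h1 : (B.filter fun m => len m ≤ ρ).card ≤ (Bn ⌊ρ⌋₊).card := Finset.card_le_card hsub
  have h2 : ((Bn ⌊ρ⌋₊).card : ℝ) = (2 * (⌊ρ⌋₊ : ℝ) + 1) ^ 3 := by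
    rw [Bn, Fintype.card_piFinset]
    simp only [Int.card_Icc, Finset.prod_const, Finset.card_univ, Fintype.card_fin]
    have : ((⌊ρ⌋₊ : ℤ) + 1 - -(⌊ρ⌋₊ : ℤ)).toNat = 2 * ⌊ρ⌋₊ + 1 := by omega
    rw [this]
    push_cast
    ring
  have h3 : (⌊ρ⌋₊ : ℝ) ≤ ρ := Nat.floor_le hρ
  calc ((B.filter fun m => len m ≤ ρ).card : ℝ) ≤ ((Bn ⌊ρ⌋₊).card : ℝ) := by exact_mod_cast h1
    _ = (2 * (⌊ρ⌋₊ : ℝ) + 1) ^ 3 := h2
    _ ≤ (2 * ρ + 1) ^ 3 := by gcongr

/-- The low modes. -/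
theorem low_le (B : Finset K3) (a : Cf) {F : ℝ} (hF : 0 ≤ F) :
    ∑ m ∈ B.filter (fun m => len m ^ (5 / 2 : ℝ) ≤ F), len m * ‖a m‖
      ≤ 6 * F * Real.sqrt (∑ k ∈ B, nsq (a k)) := by
  classical
  set D : Finset K3 := B.filter (fun m => len m ^ (5 / 2 : ℝ) ≤ F ∧ m ≠ 0) with hD
  have h1 : ∑ m ∈ B.filter (fun m => len m ^ (5 / 2 : ℝ) ≤ F), len m * ‖a m‖
      = ∑ m ∈ D, len m * ‖a m‖ := by
    symm
    refine Finset.sum_subset (fun m hm => ?_) fun m hm hm2 => ?_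
    · rw [hD, Finset.mem_filter] at hm
      rw [Finset.mem_filter]
      exact ⟨hm.1, hm.2.1⟩
    · have : m = 0 := by
        by_contra h
        rw [Finset.mem_filter] at hm
        exact hm2 (Finset.mem_filter.2 ⟨hm.1, hm.2, h⟩)
      rw [this, len_zero, zero_mul]
  rw [h1]
  by_cases hne : D = ∅
  · rw [hne, Finset.sum_empty]
    positivity
  -- `F ≥ 1`
  obtain ⟨m₀, hm₀⟩ := Finset.nonempty_iff_ne_empty.2 hne
  rw [hD, Finset.mem_filter] at hm₀
  have hF1 : 1 ≤ F := le_trans (Real.one_le_rpow (one_le_len hm₀.2.2) (by norm_num)) hm₀.2.1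
  set ρ : ℝ := F ^ (2 / 5 : ℝ) with hρ
  have hρ1 : 1 ≤ ρ := Real.one_le_rpow hF1 (by norm_num)
  have hlen : ∀ m ∈ D, len m ≤ ρ := by
    intro m hm
    rw [hD, Finset.mem_filter] at hm
    have h2 := Real.rpow_le_rpow (Real.rpow_nonneg (len_nonneg m) _) hm.2.1
      (by norm_num : (0 : ℝ) ≤ 2 / 5)
    rw [← Real.rpow_mul (len_nonneg m)] at h2
    norm_num at h2
    exact h2
  have hcard : (D.card : ℝ) ≤ 27 * ρ ^ 3 := by
    have h2 : D ⊆ B.filter fun m => len m ≤ ρ := fun m hm => by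
      have h3 := hlen m hm
      rw [hD, Finset.mem_filter] at hm
      exact Finset.mem_filter.2 ⟨hm.1, h3⟩
    have h3 : (D.card : ℝ) ≤ ((B.filter fun m => len m ≤ ρ).card : ℝ) := by
      exact_mod_cast Finset.card_le_card h2
    refine h3.trans ((card_ball B (by linarith)).trans ?_)
    calc (2 * ρ + 1) ^ 3 ≤ (3 * ρ) ^ 3 := by
          refine pow_le_pow_left₀ (by linarith) (by linarith) 3
      _ = 27 * ρ ^ 3 := by ring
  have hsq : ∑ m ∈ D, len m ^ 2 ≤ 27 * F ^ 2 := by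
    calc ∑ m ∈ D, len m ^ 2 ≤ ∑ _m ∈ D, ρ ^ 2 :=
          Finset.sum_le_sum fun m hm => pow_le_pow_left₀ (len_nonneg m) (hlen m hm) 2
      _ = D.card * ρ ^ 2 := by rw [Finset.sum_const, nsmul_eq_mul]
      _ ≤ 27 * ρ ^ 3 * ρ ^ 2 := by gcongr
      _ = 27 * ρ ^ 5 := by ring
      _ = 27 * F ^ 2 := by
          rw [hρ, ← Real.rpow_natCast, ← Real.rpow_mul (by linarith)]
          norm_num
  have hE : ∑ m ∈ D, ‖a m‖ ^ 2 ≤ ∑ k ∈ B, nsq (a k) := by
    calc ∑ m ∈ D, ‖a m‖ ^ 2 ≤ ∑ m ∈ D, nsq (a m) :=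
          Finset.sum_le_sum fun m _ => norm_sq_le_nsq _
      _ ≤ _ := Finset.sum_le_sum_of_subset_of_nonneg (Finset.filter_subset _ _)
          fun _ _ _ => nsq_nonneg _
  have hcs := Real.sum_mul_le_sqrt_mul_sqrt D (fun m => len m) (fun m => ‖a m‖)
  refine hcs.trans ?_
  refine mul_le_mul ?_ (Real.sqrt_le_sqrt hE) (Real.sqrt_nonneg _) (by positivity)
  rw [Real.sqrt_le_left (by positivity)]
  nlinarith

/-- Sums over the triads of a function of two of the frequencies. -/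
theorem sum_inj_le {B : Finset K3} (f : K3 × K3 → K3 × K3) (hf : ∀ x ∈ Tr B, f x ∈ B ×ˢ B)
    (hi : Set.InjOn f (Tr B : Finset (K3 × K3))) {φ : K3 × K3 → ℝ} (hφ : ∀ y, 0 ≤ φ y) :
    ∑ x ∈ Tr B, φ (f x) ≤ ∑ y ∈ B ×ˢ B, φ y := by
  classical
  rw [← Finset.sum_image (f := φ) (s := Tr B) (g := f) hi]
  refine Finset.sum_le_sum_of_subset_of_nonneg (fun y hy => ?_) fun _ _ _ => hφ _
  obtain ⟨x, hx, rfl⟩ := Finset.mem_image.1 hy
  exact hf x hx

theorem sum_six {B : Finset K3} {φ : K3 × K3 → ℝ} (hφ : ∀ y, 0 ≤ φ y) :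
    ∑ x ∈ Tr B, (φ (x.1, x.2) + φ (x.1, -(x.1 + x.2)) + φ (x.2, x.1) + φ (x.2, -(x.1 + x.2))
      + φ (-(x.1 + x.2), x.1) + φ (-(x.1 + x.2), x.2)) ≤ 6 * ∑ y ∈ B ×ˢ B, φ y := by
  simp only [Finset.sum_add_distrib]
  have h1 := sum_inj_le (B := B) (fun x => (x.1, x.2))
    (fun x hx => by rw [mem_Tr] at hx; exact Finset.mem_product.2 ⟨hx.1, hx.2.1⟩)
    (fun x _ y _ h => by simpa [Prod.ext_iff] using h) hφ
  have h2 := sum_inj_le (B := B) (fun x => (x.1, -(x.1 + x.2)))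
    (fun x hx => by rw [mem_Tr] at hx; exact Finset.mem_product.2 ⟨hx.1, hx.2.2⟩)
    (fun x _ y _ h => by
      have h3 := congrArg Prod.fst h
      have h4 := congrArg Prod.snd h
      simp only at h3 h4
      rw [h3] at h4
      exact Prod.ext h3 (by simpa using h4)) hφ
  have h3 := sum_inj_le (B := B) (fun x => (x.2, x.1))
    (fun x hx => by rw [mem_Tr] at hx; exact Finset.mem_product.2 ⟨hx.2.1, hx.1⟩)
    (fun x _ y _ h => by
      have h3 := congrArg Prod.fst h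
      have h4 := congrArg Prod.snd h
      exact Prod.ext h4 h3) hφ
  have h4 := sum_inj_le (B := B) (fun x => (x.2, -(x.1 + x.2)))
    (fun x hx => by rw [mem_Tr] at hx; exact Finset.mem_product.2 ⟨hx.2.1, hx.2.2⟩)
    (fun x _ y _ h => by
      have h3 := congrArg Prod.fst h
      have h4 := congrArg Prod.snd h
      simp only at h3 h4
      rw [h3] at h4
      exact Prod.ext (by simpa using h4) h3) hφ
  have h5 := sum_inj_le (B := B) (fun x => (-(x.1 + x.2), x.1))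
    (fun x hx => by rw [mem_Tr] at hx; exact Finset.mem_product.2 ⟨hx.2.2, hx.1⟩)
    (fun x _ y _ h => by
      have h3 := congrArg Prod.snd h
      have h4 := congrArg Prod.fst h
      simp only at h3 h4
      rw [h3] at h4
      exact Prod.ext h3 (by simpa using h4)) hφ
  have h6 := sum_inj_le (B := B) (fun x => (-(x.1 + x.2), x.2))
    (fun x hx => by rw [mem_Tr] at hx; exact Finset.mem_product.2 ⟨hx.2.2, hx.2.1⟩)
    (fun x _ y _ h => by
      have h3 := congrArg Prod.snd h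
      have h4 := congrArg Prod.fst h
      simp only at h3 h4
      rw [h3] at h4
      exact Prod.ext (by simpa using h4) h3) hφ
  linarith

end Pool.Agent.Run7.h507.RT
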