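import Pool.Agent.Run7.h507.RT.NL

/-!
The nonlocal triads: the estimate.
-/

set_option autoImplicit false

open MeasureTheory Set Filter Topology
open scoped ContDiff ComplexConjugate NNReal

namespace Pool.Agent.Run7.h507.RT

theorem jb_le_two {p q : K3} (h : len p ≤ 2 * len q) : jb p ≤ 2 * jb q := by
  refine max_le ?_ (h.trans (mul_le_mul_of_nonneg_left (len_le_jb q) (by norm_num)))
  have := one_le_jb q
  linarith

theorem jb_mono {p q : K3} (h : len p ≤ len q) : jb p ≤ jb q := max_le_max le_rfl h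

theorem jb_rpow_le_two {p q : K3} (h : len p ≤ 2 * len q) {s : ℝ} (hs : 0 ≤ s) :
    jb p ^ (2 * s) ≤ 4 ^ s * jb q ^ (2 * s) := by
  calc jb p ^ (2 * s) ≤ (2 * jb q) ^ (2 * s) :=
        Real.rpow_le_rpow (jb_pos p).le (jb_le_two h) (by positivity)
    _ = 4 ^ s * jb q ^ (2 * s) := by
        rw [Real.mul_rpow (by norm_num) (jb_pos q).le, Real.rpow_mul (by norm_num : (0 : ℝ) ≤ 2)]
        norm_num

/-- The constant. -/
noncomputable def cs (s : ℝ) : ℝ := 9 * max 1 (2 * s) * 4 ^ s

theorem cs_nonneg (s : ℝ) : 0 ≤ cs s := by unfold cs; positivity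

/-- The weighted product of the mode `m` (low) and the mode `n` (high). -/
noncomputable def phi (Φ : ℝ → ℝ) (s : ℝ) (a : Cf) (y : K3 × K3) : ℝ :=
  if len y.1 ^ (5 / 2 : ℝ) ≤ Φ (2 * jb y.2) then
    len y.1 * ‖a y.1‖ * (jb y.2 ^ (2 * s) * ‖a y.2‖ ^ 2) else 0

theorem phi_nonneg (Φ : ℝ → ℝ) (s : ℝ) (a : Cf) (y : K3 × K3) : 0 ≤ phi Φ s a y := by
  unfold phi
  split_ifs
  · have := len_nonneg y.1
    have := Real.rpow_nonneg (jb_pos y.2).le (2 * s)
    positivity
  · exact le_rfl

theorem phi_sum {Φ : ℝ → ℝ} (hΦ : ∀ x, 0 ≤ Φ x) (s : ℝ) (a : Cf) (B : Finset K3) :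
    ∑ y ∈ B ×ˢ B, phi Φ s a y ≤ 6 * Real.sqrt (∑ k ∈ B, nsq (a k))
      * ∑ k ∈ B, jb k ^ (2 * s) * Φ (2 * jb k) * nsq (a k) := by
  rw [Finset.sum_product_right, Finset.mul_sum]
  refine Finset.sum_le_sum fun n _ => ?_
  have h1 : ∑ m ∈ B, phi Φ s a (m, n)
      = (∑ m ∈ B.filter (fun m => len m ^ (5 / 2 : ℝ) ≤ Φ (2 * jb n)), len m * ‖a m‖)
        * (jb n ^ (2 * s) * ‖a n‖ ^ 2) := by
    unfold phi
    rw [Finset.sum_mul, Finset.sum_filter]
  rw [h1]
  have h2 := low_le B a (hΦ (2 * jb n))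
  have h3 : 0 ≤ jb n ^ (2 * s) := Real.rpow_nonneg (jb_pos n).le _
  have h4 := norm_sq_le_nsq (a n)
  have h5 := hΦ (2 * jb n)
  calc _ ≤ (6 * Φ (2 * jb n) * Real.sqrt (∑ k ∈ B, nsq (a k))) * (jb n ^ (2 * s) * nsq (a n)) := by
        refine mul_le_mul h2 (mul_le_mul_of_nonneg_left h4 h3) (by positivity) (by positivity)
    _ = _ := by ring

theorem yng {x y w : ℝ} (hw : 0 ≤ w) : w * (x * y) ≤ w * x ^ 2 / 2 + w * y ^ 2 / 2 := by
  nlinarith [mul_nonneg hw (sq_nonneg (x - y))]

/-- A nonlocal triad with shortest side `m`; `u`, `v` are the other two. -/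
theorem phi_pair {Φ : ℝ → ℝ} {s : ℝ} (hs : 0 ≤ s) (a : Cf) {m u v : K3} {W : ℝ}
    (h1 : len u ≤ 2 * len v) (h2 : len v ≤ 2 * len u)
    (hu : len m ^ (5 / 2 : ℝ) ≤ Φ (2 * jb u)) (hv : len m ^ (5 / 2 : ℝ) ≤ Φ (2 * jb v))
    (hW : W ≤ max (jb u) (jb v) ^ (2 * s)) :
    len m * ‖a m‖ * W * (‖a u‖ * ‖a v‖) ≤ 4 ^ s * (phi Φ s a (m, u) + phi Φ s a (m, v)) := by
  unfold phi
  rw [if_pos hu, if_pos hv]
  simp only
  have hm := len_nonneg m
  have hju := Real.rpow_nonneg (jb_pos u).le (2 * s)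
  have hjv := Real.rpow_nonneg (jb_pos v).le (2 * s)
  have h4 : (1 : ℝ) ≤ 4 ^ s := Real.one_le_rpow (by norm_num) hs
  have e1 : max (jb u) (jb v) ^ (2 * s) ≤ 4 ^ s * jb u ^ (2 * s) := by
    rcases le_total (jb u) (jb v) with h | h
    · rw [max_eq_right h]; exact jb_rpow_le_two h2 hs
    · rw [max_eq_left h]; nlinarith
  have e2 : max (jb u) (jb v) ^ (2 * s) ≤ 4 ^ s * jb v ^ (2 * s) := by
    rcases le_total (jb u) (jb v) with h | h
    · rw [max_eq_right h]; nlinarith
    · rw [max_eq_left h]; exact jb_rpow_le_two h1 hs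
  have hX : 0 ≤ max (jb u) (jb v) ^ (2 * s) :=
    Real.rpow_nonneg ((jb_pos u).le.trans (le_max_left _ _)) _
  set X := max (jb u) (jb v) ^ (2 * s) with hXd
  have hy := yng (x := ‖a u‖) (y := ‖a v‖) hX
  have e3 : X * ‖a u‖ ^ 2 ≤ 4 ^ s * jb u ^ (2 * s) * ‖a u‖ ^ 2 :=
    mul_le_mul_of_nonneg_right e1 (sq_nonneg _)
  have e4 : X * ‖a v‖ ^ 2 ≤ 4 ^ s * jb v ^ (2 * s) * ‖a v‖ ^ 2 :=
    mul_le_mul_of_nonneg_right e2 (sq_nonneg _)
  have hu2 : 0 ≤ 4 ^ s * jb u ^ (2 * s) * ‖a u‖ ^ 2 := by positivity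
  have hv2 : 0 ≤ 4 ^ s * jb v ^ (2 * s) * ‖a v‖ ^ 2 := by positivity
  have hL : 0 ≤ len m * ‖a m‖ := by positivity
  calc len m * ‖a m‖ * W * (‖a u‖ * ‖a v‖) ≤ len m * ‖a m‖ * X * (‖a u‖ * ‖a v‖) := by
        gcongr
    _ = len m * ‖a m‖ * (X * (‖a u‖ * ‖a v‖)) := by ring
    _ ≤ len m * ‖a m‖ * (4 ^ s * jb u ^ (2 * s) * ‖a u‖ ^ 2 + 4 ^ s * jb v ^ (2 * s) * ‖a v‖ ^ 2) := by
        refine mul_le_mul_of_nonneg_left ?_ hL
        linarith
    _ = _ := by ring

/-- The bound of the contribution of one nonlocal triad. -/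
theorem nl_term {η : K3 → K3 → ℝ} (hη : ∀ p q, |η p q| ≤ 1) {Φ : ℝ → ℝ} (hΦm : Monotone Φ)
    (hloc : ∀ p q, η p q ≠ 0 → mn p q ^ (5 / 2 : ℝ) ≤ Φ (mx p q)) {s : ℝ} (hs : 0 ≤ s)
    {a : Cf} (hd : Dv a) (x : K3 × K3) :
    ‖(((jb (-(x.1 + x.2)) ^ (2 * s) - jb x.2 ^ (2 * s)) / 2 : ℝ) : ℂ) * th η a a a x‖
      ≤ cs s * (phi Φ s a (x.1, x.2) + phi Φ s a (x.1, -(x.1 + x.2)) + phi Φ s a (x.2, x.1)
        + phi Φ s a (x.2, -(x.1 + x.2)) + phi Φ s a (-(x.1 + x.2), x.1)
        + phi Φ s a (-(x.1 + x.2), x.2)) := by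
  obtain ⟨p, q⟩ := x
  simp only
  set r : K3 := -(p + q) with hr
  have hcs0 := cs_nonneg s
  have hpn := phi_nonneg Φ s a
  by_cases h0 : η p q = 0
  · have : th η a a a (p, q) = 0 := by simp [th, h0]
    rw [this, mul_zero, norm_zero]
    have := hpn (p, q); have := hpn (p, r); have := hpn (q, p); have := hpn (q, r)
    have := hpn (r, p); have := hpn (r, q)
    positivity
  have hl := hloc p q h0
  have hlr : len r = len (p + q) := by rw [hr, len_neg]
  have tr : len r ≤ len p + len q := by rw [hlr]; exact len_add_le p q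
  have tp : len p ≤ len q + len r := by
    have e : p = -q + -r := by rw [hr]; abel
    calc len p = len (-q + -r) := by rw [← e]
      _ ≤ len (-q) + len (-r) := len_add_le _ _
      _ = _ := by rw [len_neg, len_neg]
  have tq : len q ≤ len p + len r := by
    have e : q = -p + -r := by rw [hr]; abel
    calc len q = len (-p + -r) := by rw [← e]
      _ ≤ len (-p) + len (-r) := len_add_le _ _
      _ = _ := by rw [len_neg, len_neg]
  have hp0 := len_nonneg p
  have hq0 := len_nonneg q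
  have hr0 := len_nonneg r
  -- the norm of `th`
  have hth : ‖th η a a a (p, q)‖ ≤ ‖kd r (a p)‖ * (3 * (‖a q‖ * ‖a r‖)) := by
    simp only [th]
    rw [norm_mul, norm_mul, Complex.norm_real, Real.norm_eq_abs]
    calc |η p q| * (‖kd (-(p + q)) (a p)‖ * ‖dc (a q) (a (-(p + q)))‖)
        ≤ 1 * (‖kd r (a p)‖ * (3 * (‖a q‖ * ‖a r‖))) := by
          refine mul_le_mul (hη p q) ?_ (by positivity) zero_le_one
          exact mul_le_mul_of_nonneg_left (norm_dc_le _ _) (norm_nonneg _)
      _ = _ := one_mul _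
  have hkd1 : ‖kd r (a p)‖ ≤ 3 * len r * ‖a p‖ := norm_kd_le r (a p)
  have hkd2 : ‖kd r (a p)‖ ≤ 3 * len q * ‖a p‖ := by
    have e : kd r (a p) = -kd q (a p) := by
      rw [hr, kd_neg_left, kd_add_left, hd p, zero_add]
    rw [e, norm_neg]
    exact norm_kd_le q (a p)
  rw [norm_mul, Complex.norm_real, Real.norm_eq_abs, abs_div, abs_two]
  have hwq := Real.rpow_nonneg (jb_pos q).le (2 * s)
  have hwr := Real.rpow_nonneg (jb_pos r).le (2 * s)
  have hmul4 : (0 : ℝ) < 4 ^ s := Real.rpow_pos_of_pos (by norm_num) s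
  have hmx1 : (1 : ℝ) ≤ max 1 (2 * s) := le_max_left _ _
  -- the condition for the high modes
  have cond : ∀ {m u : K3}, len m ≤ mn p q → mx p q ≤ 2 * len u →
      len m ^ (5 / 2 : ℝ) ≤ Φ (2 * jb u) := by
    intro m u hm hu
    refine ((Real.rpow_le_rpow (len_nonneg m) hm (by norm_num)).trans hl).trans (hΦm ?_)
    exact hu.trans (mul_le_mul_of_nonneg_left (len_le_jb u) (by norm_num))
  have hmn : mn p q = min (len p) (min (len q) (len r)) := by rw [mn, hlr]
  have hmx : mx p q = max (len p) (max (len q) (len r)) := by rw [mx, hlr]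
  rcases le_total (len p) (len q) with h1 | h1
  · rcases le_total (len p) (len r) with h2 | h2
    · -- `p` is the shortest side
      have c1 : len q ≤ 2 * len r := by linarith
      have c2 : len r ≤ 2 * len q := by linarith
      have hm : len p ≤ mn p q := by rw [hmn]; exact le_min le_rfl (le_min h1 h2)
      have hq : mx p q ≤ 2 * len q := by
        rw [hmx]; exact max_le (by linarith) (max_le (by linarith) c2)
      have hr' : mx p q ≤ 2 * len r := by
        rw [hmx]; exact max_le (by linarith) (max_le c1 (by linarith))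
      have hb := abs_rpow_sub_le (jb_pos r) (jb_pos q) (by positivity : 0 ≤ 2 * s)
      have hjd : |jb r - jb q| ≤ len p := by
        refine (abs_jb_sub_le r q).trans ?_
        rw [abs_le]
        constructor <;> linarith
      set X : ℝ := max (jb q) (jb r) with hX
      have hX1 : 1 ≤ X := (one_le_jb q).trans (le_max_left _ _)
      have hXr : len r ≤ X := (len_le_jb r).trans (le_max_right _ _)
      have hXp : 0 ≤ X ^ (2 * s - 1) := Real.rpow_nonneg (by linarith) _
      rw [max_comm (jb r) (jb q), ← hX] at hb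
      have e1 : X * X ^ (2 * s - 1) = X ^ (2 * s) := by
        rw [Real.rpow_sub_one (by linarith : X ≠ 0)]
        field_simp
      have hW : |jb r ^ (2 * s) - jb q ^ (2 * s)| ≤ max 1 (2 * s) * len p * X ^ (2 * s - 1) := by
        refine hb.trans ?_
        gcongr
      have key := phi_pair (Φ := Φ) hs a (m := p) (u := q) (v := r) (W := X ^ (2 * s)) c1 c2
        (cond hm hq) (cond hm hr') le_rfl
      have hq2 := hpn (q, p); have hq3 := hpn (q, r); have hr2 := hpn (r, p); have hr3 := hpn (r, q)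
      calc |jb r ^ (2 * s) - jb q ^ (2 * s)| / 2 * ‖th η a a a (p, q)‖
          ≤ (max 1 (2 * s) * len p * X ^ (2 * s - 1)) / 2
            * ((3 * X * ‖a p‖) * (3 * (‖a q‖ * ‖a r‖))) := by
            refine mul_le_mul (div_le_div_of_nonneg_right hW (by norm_num)) ?_ (norm_nonneg _)
              (by positivity)
            refine hth.trans (mul_le_mul_of_nonneg_right (hkd1.trans ?_) (by positivity))
            gcongr
        _ = 9 / 2 * max 1 (2 * s) * (len p * ‖a p‖ * (X * X ^ (2 * s - 1)) * (‖a q‖ * ‖a r‖)) := by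
            ring
        _ = 9 / 2 * max 1 (2 * s) * (len p * ‖a p‖ * X ^ (2 * s) * (‖a q‖ * ‖a r‖)) := by rw [e1]
        _ ≤ 9 / 2 * max 1 (2 * s) * (4 ^ s * (phi Φ s a (p, q) + phi Φ s a (p, r))) := by gcongr
        _ ≤ 9 * max 1 (2 * s) * (4 ^ s * (phi Φ s a (p, q) + phi Φ s a (p, r))) := by
            have := hpn (p, q); have := hpn (p, r)
            gcongr
            norm_num
        _ = cs s * (phi Φ s a (p, q) + phi Φ s a (p, r)) := by rw [cs]; ring
        _ ≤ _ := by
            refine mul_le_mul_of_nonneg_left ?_ hcs0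
            linarith
    · -- `r` is the shortest side
      have c1 : len p ≤ 2 * len q := by linarith
      have c2 : len q ≤ 2 * len p := by linarith
      have hm : len r ≤ mn p q := by rw [hmn]; exact le_min h2 (le_min (by linarith) le_rfl)
      have hp' : mx p q ≤ 2 * len p := by
        rw [hmx]; exact max_le (by linarith) (max_le c2 (by linarith))
      have hq' : mx p q ≤ 2 * len q := by
        rw [hmx]; exact max_le c1 (max_le (by linarith) (by linarith))
      have hW : |jb r ^ (2 * s) - jb q ^ (2 * s)| ≤ max (jb p) (jb q) ^ (2 * s) := by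
        have e1 : jb r ^ (2 * s) ≤ jb q ^ (2 * s) :=
          Real.rpow_le_rpow (jb_pos r).le (jb_mono (h2.trans h1)) (by positivity)
        rw [abs_sub_comm, abs_of_nonneg (sub_nonneg.2 e1)]
        have e2 : jb q ^ (2 * s) ≤ max (jb p) (jb q) ^ (2 * s) :=
          Real.rpow_le_rpow (jb_pos q).le (le_max_right _ _) (by positivity)
        linarith
      have key := phi_pair (Φ := Φ) hs a (m := r) (u := p) (v := q)
        (W := |jb r ^ (2 * s) - jb q ^ (2 * s)|) c1 c2 (cond hm hp') (cond hm hq') hW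
      have hq2 := hpn (q, p); have hq3 := hpn (q, r); have hr2 := hpn (p, q); have hr3 := hpn (p, r)
      have hr4 := hpn (r, p); have hr5 := hpn (r, q)
      calc |jb r ^ (2 * s) - jb q ^ (2 * s)| / 2 * ‖th η a a a (p, q)‖
          ≤ |jb r ^ (2 * s) - jb q ^ (2 * s)| / 2
            * ((3 * len r * ‖a p‖) * (3 * (‖a q‖ * ‖a r‖))) := by
            refine mul_le_mul_of_nonneg_left ?_ (by positivity)
            exact hth.trans (mul_le_mul_of_nonneg_right hkd1 (by positivity))
        _ = 9 / 2 * (len r * ‖a r‖ * |jb r ^ (2 * s) - jb q ^ (2 * s)| * (‖a p‖ * ‖a q‖)) := by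
            ring
        _ ≤ 9 / 2 * (4 ^ s * (phi Φ s a (r, p) + phi Φ s a (r, q))) := by gcongr
        _ ≤ 9 * max 1 (2 * s) * (4 ^ s * (phi Φ s a (r, p) + phi Φ s a (r, q))) := by
            refine mul_le_mul_of_nonneg_right ?_ (by positivity)
            linarith
        _ = cs s * (phi Φ s a (r, p) + phi Φ s a (r, q)) := by rw [cs]; ring
        _ ≤ _ := by
            refine mul_le_mul_of_nonneg_left ?_ hcs0
            linarith
  · rcases le_total (len q) (len r) with h2 | h2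
    · -- `q` is the shortest side
      have c1 : len p ≤ 2 * len r := by linarith
      have c2 : len r ≤ 2 * len p := by linarith
      have hm : len q ≤ mn p q := by rw [hmn]; exact le_min h1 (le_min le_rfl h2)
      have hp' : mx p q ≤ 2 * len p := by
        rw [hmx]; exact max_le (by linarith) (max_le (by linarith) c2)
      have hr' : mx p q ≤ 2 * len r := by
        rw [hmx]; exact max_le c1 (max_le (by linarith) (by linarith))
      have hW : |jb r ^ (2 * s) - jb q ^ (2 * s)| ≤ max (jb p) (jb r) ^ (2 * s) := by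
        have e1 : jb q ^ (2 * s) ≤ jb r ^ (2 * s) :=
          Real.rpow_le_rpow (jb_pos q).le (jb_mono h2) (by positivity)
        rw [abs_of_nonneg (sub_nonneg.2 e1)]
        have e2 : jb r ^ (2 * s) ≤ max (jb p) (jb r) ^ (2 * s) :=
          Real.rpow_le_rpow (jb_pos r).le (le_max_right _ _) (by positivity)
        linarith
      have key := phi_pair (Φ := Φ) hs a (m := q) (u := p) (v := r)
        (W := |jb r ^ (2 * s) - jb q ^ (2 * s)|) c1 c2 (cond hm hp') (cond hm hr') hW
      have hq2 := hpn (q, p); have hq3 := hpn (q, r); have hr2 := hpn (p, q); have hr3 := hpn (p, r)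
      have hr4 := hpn (r, p); have hr5 := hpn (r, q)
      calc |jb r ^ (2 * s) - jb q ^ (2 * s)| / 2 * ‖th η a a a (p, q)‖
          ≤ |jb r ^ (2 * s) - jb q ^ (2 * s)| / 2
            * ((3 * len q * ‖a p‖) * (3 * (‖a q‖ * ‖a r‖))) := by
            refine mul_le_mul_of_nonneg_left ?_ (by positivity)
            exact hth.trans (mul_le_mul_of_nonneg_right hkd2 (by positivity))
        _ = 9 / 2 * (len q * ‖a q‖ * |jb r ^ (2 * s) - jb q ^ (2 * s)| * (‖a p‖ * ‖a r‖)) := by
            ring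
        _ ≤ 9 / 2 * (4 ^ s * (phi Φ s a (q, p) + phi Φ s a (q, r))) := by gcongr
        _ ≤ 9 * max 1 (2 * s) * (4 ^ s * (phi Φ s a (q, p) + phi Φ s a (q, r))) := by
            refine mul_le_mul_of_nonneg_right ?_ (by positivity)
            linarith
        _ = cs s * (phi Φ s a (q, p) + phi Φ s a (q, r)) := by rw [cs]; ring
        _ ≤ _ := by
            refine mul_le_mul_of_nonneg_left ?_ hcs0
            linarith
    · -- `r` is the shortest side
      have c1 : len p ≤ 2 * len q := by linarith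
      have c2 : len q ≤ 2 * len p := by linarith
      have hm : len r ≤ mn p q := by
        rw [hmn]; exact le_min (by linarith) (le_min h2 le_rfl)
      have hp' : mx p q ≤ 2 * len p := by
        rw [hmx]; exact max_le (by linarith) (max_le c2 (by linarith))
      have hq' : mx p q ≤ 2 * len q := by
        rw [hmx]; exact max_le c1 (max_le (by linarith) (by linarith))
      have hW : |jb r ^ (2 * s) - jb q ^ (2 * s)| ≤ max (jb p) (jb q) ^ (2 * s) := by
        have e1 : jb r ^ (2 * s) ≤ jb q ^ (2 * s) :=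
          Real.rpow_le_rpow (jb_pos r).le (jb_mono h2) (by positivity)
        rw [abs_sub_comm, abs_of_nonneg (sub_nonneg.2 e1)]
        have e2 : jb q ^ (2 * s) ≤ max (jb p) (jb q) ^ (2 * s) :=
          Real.rpow_le_rpow (jb_pos q).le (le_max_right _ _) (by positivity)
        linarith
      have key := phi_pair (Φ := Φ) hs a (m := r) (u := p) (v := q)
        (W := |jb r ^ (2 * s) - jb q ^ (2 * s)|) c1 c2 (cond hm hp') (cond hm hq') hW
      have hq2 := hpn (q, p); have hq3 := hpn (q, r); have hr2 := hpn (p, q); have hr3 := hpn (p, r)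
      have hr4 := hpn (r, p); have hr5 := hpn (r, q)
      calc |jb r ^ (2 * s) - jb q ^ (2 * s)| / 2 * ‖th η a a a (p, q)‖
          ≤ |jb r ^ (2 * s) - jb q ^ (2 * s)| / 2
            * ((3 * len r * ‖a p‖) * (3 * (‖a q‖ * ‖a r‖))) := by
            refine mul_le_mul_of_nonneg_left ?_ (by positivity)
            exact hth.trans (mul_le_mul_of_nonneg_right hkd1 (by positivity))
        _ = 9 / 2 * (len r * ‖a r‖ * |jb r ^ (2 * s) - jb q ^ (2 * s)| * (‖a p‖ * ‖a q‖)) := by
            ring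
        _ ≤ 9 / 2 * (4 ^ s * (phi Φ s a (r, p) + phi Φ s a (r, q))) := by gcongr
        _ ≤ 9 * max 1 (2 * s) * (4 ^ s * (phi Φ s a (r, p) + phi Φ s a (r, q))) := by
            refine mul_le_mul_of_nonneg_right ?_ (by positivity)
            linarith
        _ = cs s * (phi Φ s a (r, p) + phi Φ s a (r, q)) := by rw [cs]; ring
        _ ≤ _ := by
            refine mul_le_mul_of_nonneg_left ?_ hcs0
            linarith

/-- The nonlocal triads are subordinate. -/
theorem nonlocal {η : K3 → K3 → ℝ} (hη : IsWeight η) {Φ : ℝ → ℝ} (hΦm : Monotone Φ)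
    (hΦ : ∀ x, 0 ≤ Φ x)
    (hloc : ∀ p q, η p q ≠ 0 → mn p q ^ (5 / 2 : ℝ) ≤ Φ (mx p q)) {s : ℝ} (hs : 0 ≤ s) :
    SubAt η (fun k => Φ (2 * jb k)) (36 * cs s) s := by
  intro B _ a _ _ hd
  rw [sum_th hη hd B (fun k => jb k ^ (2 * s))]
  refine (norm_sum_le _ _).trans ?_
  refine (Finset.sum_le_sum fun x _ => nl_term hη.bdd hΦm hloc hs hd x).trans ?_
  rw [← Finset.mul_sum]
  have h1 := sum_six (B := B) (phi_nonneg Φ s a)
  have h2 := phi_sum hΦ s a B
  have h3 := cs_nonneg s
  calc _ ≤ cs s * (6 * (6 * Real.sqrt (∑ k ∈ B, nsq (a k))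
          * ∑ k ∈ B, jb k ^ (2 * s) * Φ (2 * jb k) * nsq (a k))) := by
        refine mul_le_mul_of_nonneg_left (h1.trans ?_) h3
        exact mul_le_mul_of_nonneg_left h2 (by norm_num)
    _ = _ := by ring

end Pool.Agent.Run7.h507.RT
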