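import Mathlib

/-!
Hoeffding's inequality for sums with bounded multiplicities, and a union bound over triples of
finite sets.
-/

set_option autoImplicit false

open MeasureTheory ProbabilityTheory Finset
open scoped NNReal ENNReal

namespace Pool.Agent.Run7.h507.RT

variable {Ω : Type*} [MeasurableSpace Ω] {P : Measure Ω} [IsProbabilityMeasure P]

/-- Independent random variables with mean zero and values in `[-1, 1]`. -/
structure Signs {L : Type*} (P : Measure Ω) (X : L → Ω → ℝ) : Prop where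
  indep : iIndepFun X P
  meas : ∀ l, Measurable (X l)
  bdd : ∀ l ω, |X l ω| ≤ 1
  mean : ∀ l, ∫ ω, X l ω ∂P = 0

omit [IsProbabilityMeasure P] in
theorem Signs.neg {L : Type*} {X : L → Ω → ℝ} (h : Signs P X) : Signs P (fun l ω => -X l ω) :=
  ⟨h.indep.comp (fun _ x => -x) fun _ => measurable_neg, fun l => (h.meas l).neg,
    fun l ω => by rw [abs_neg]; exact h.bdd l ω,
    fun l => by rw [integral_neg, h.mean l, neg_zero]⟩

theorem hoeff_one {L α : Type*} [DecidableEq L] {X : L → Ω → ℝ} (h : Signs P X)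
    (G : Finset α) (lab : α → L) {m : ℝ} (hm : ∀ l, ((G.filter fun x => lab x = l).card : ℝ) ≤ m)
    (hG : 0 < G.card) {t : ℝ} (ht : 0 ≤ t) :
    P.real {ω | t ≤ ∑ x ∈ G, X (lab x) ω} ≤ Real.exp (-(t ^ 2 / (2 * m * G.card))) := by
  classical
  set d : L → ℝ := fun l => ((G.filter fun x => lab x = l).card : ℝ) with hd
  have h1 : ∀ ω, ∑ x ∈ G, X (lab x) ω = ∑ l ∈ G.image lab, d l * X l ω := by
    intro ω
    rw [← Finset.sum_fiberwise_of_maps_to (t := G.image lab) (g := lab)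
      (fun x hx => Finset.mem_image_of_mem lab hx)]
    refine Finset.sum_congr rfl fun l _ => ?_
    rw [Finset.sum_congr rfl fun x hx => by rw [(Finset.mem_filter.1 hx).2], Finset.sum_const,
      nsmul_eq_mul]
  have h2 : ∀ l, HasSubgaussianMGF (fun ω => d l * X l ω) (‖d l‖₊ ^ 2) P := by
    intro l
    have e := hasSubgaussianMGF_of_mem_Icc_of_integral_eq_zero (μ := P) (X := X l) (a := -1)
      (b := 1) (h.meas l).aemeasurable
      (Filter.Eventually.of_forall fun ω => abs_le.1 (h.bdd l ω)) (h.mean l)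
    have e2 := e.const_mul (d l)
    refine ⟨e2.integrable_exp_mul, fun t => (e2.mgf_le t).trans (le_of_eq ?_)⟩
    congr 3
    change d l ^ 2 * (((‖(1 : ℝ) - -1‖₊ / 2) ^ 2 : ℝ≥0) : ℝ) = ((‖d l‖₊ ^ 2 : ℝ≥0) : ℝ)
    have e4 : ‖(1 : ℝ) - -1‖₊ = 2 := by
      ext
      simp
      norm_num
    rw [e4]
    simp
  have h3 : iIndepFun (fun l ω => d l * X l ω) P :=
    h.indep.comp (fun l x => d l * x) fun l => measurable_const_mul _
  have h4 := HasSubgaussianMGF.measure_sum_ge_le_of_iIndepFun h3 (s := G.image lab)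
    (fun l _ => h2 l) ht
  have h5 : {ω | t ≤ ∑ x ∈ G, X (lab x) ω} = {ω | t ≤ ∑ l ∈ G.image lab, d l * X l ω} := by
    ext ω
    simp only [Set.mem_ofPred_eq]
    rw [h1]
  rw [h5]
  refine h4.trans (Real.exp_le_exp.2 ?_)
  have h6 : ((∑ l ∈ G.image lab, ‖d l‖₊ ^ 2 : ℝ≥0) : ℝ) = ∑ l ∈ G.image lab, d l ^ 2 := by
    rw [NNReal.coe_sum]
    refine Finset.sum_congr rfl fun l _ => ?_
    simp
  have h7 : ∑ l ∈ G.image lab, d l = G.card := by
    rw [hd]
    rw [← Nat.cast_sum, Finset.card_eq_sum_card_image lab G]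
  have hm0 : 0 ≤ m := by
    obtain ⟨x, hx⟩ := Finset.card_pos.1 hG
    exact (Nat.cast_nonneg _).trans (hm (lab x))
  have h8 : ∑ l ∈ G.image lab, d l ^ 2 ≤ m * G.card := by
    rw [← h7, Finset.mul_sum]
    refine Finset.sum_le_sum fun l _ => ?_
    rw [sq]
    exact mul_le_mul_of_nonneg_right (hm l) (Nat.cast_nonneg _)
  have h9 : 0 < ∑ l ∈ G.image lab, d l ^ 2 := by
    obtain ⟨x, hx⟩ := Finset.card_pos.1 hG
    refine Finset.sum_pos' (fun l _ => sq_nonneg _) ⟨lab x, Finset.mem_image_of_mem _ hx, ?_⟩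
    have : 0 < (G.filter fun y => lab y = lab x).card :=
      Finset.card_pos.2 ⟨x, Finset.mem_filter.2 ⟨hx, rfl⟩⟩
    positivity
  rw [h6, neg_div]
  refine neg_le_neg ?_
  refine div_le_div_of_nonneg_left (sq_nonneg t) (mul_pos two_pos h9) ?_
  calc 2 * ∑ l ∈ G.image lab, d l ^ 2 ≤ 2 * (m * G.card) := by linarith
    _ = _ := by ring

theorem hoeff {L α : Type*} [DecidableEq L] {X : L → Ω → ℝ} (h : Signs P X)
    (G : Finset α) (lab : α → L) {m : ℝ} (hm : ∀ l, ((G.filter fun x => lab x = l).card : ℝ) ≤ m)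
    (hG : 0 < G.card) {t : ℝ} (ht : 0 ≤ t) :
    P.real {ω | t ≤ |∑ x ∈ G, X (lab x) ω|} ≤ 2 * Real.exp (-(t ^ 2 / (2 * m * G.card))) := by
  have h1 := hoeff_one h G lab hm hG ht
  have h2 := hoeff_one h.neg G lab hm hG ht
  simp only [Finset.sum_neg_distrib] at h2
  have h3 : {ω | t ≤ |∑ x ∈ G, X (lab x) ω|}
      ⊆ {ω | t ≤ ∑ x ∈ G, X (lab x) ω} ∪ {ω | t ≤ -∑ x ∈ G, X (lab x) ω} := by
    intro ω hω
    simp only [Set.mem_ofPred_eq] at hω
    rcases le_abs.1 hω with h4 | h4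
    · exact Or.inl h4
    · exact Or.inr h4
  calc _ ≤ P.real ({ω | t ≤ ∑ x ∈ G, X (lab x) ω} ∪ {ω | t ≤ -∑ x ∈ G, X (lab x) ω}) :=
        measureReal_mono h3 (measure_ne_top _ _)
    _ ≤ _ := measureReal_union_le _ _
    _ ≤ _ := by linarith

/-- The union bound over triples of nonempty subsets. -/
theorem union_bound {β : Type*} [DecidableEq β] (Q : Finset β) (S : Finset β → Finset β →
    Finset β → Ω → ℝ) {lam' L' : ℝ} (hD : 1 ≤ Q.card)
    (hL : Real.exp (-L') ≤ 1 / (Q.card : ℝ) ^ 2)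
    (h : ∀ A B C, A ⊆ Q → B ⊆ Q → C ⊆ Q → A.Nonempty → B.Nonempty → C.Nonempty →
      P.real {ω | lam' * (Real.sqrt A.card * Real.sqrt B.card * Real.sqrt C.card)
        < |S A B C ω|} ≤ 2 * Real.exp (-(L' * (A.card + B.card + C.card)))) :
    P {ω | ∃ A B C, A ⊆ Q ∧ B ⊆ Q ∧ C ⊆ Q ∧ A.Nonempty ∧ B.Nonempty ∧ C.Nonempty ∧
      lam' * (Real.sqrt A.card * Real.sqrt B.card * Real.sqrt C.card) < |S A B C ω|}
      ≤ ENNReal.ofReal (16 / (Q.card : ℝ) ^ 3) := by
  classical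
  set N : Finset (Finset β) := Q.powerset.erase ∅ with hN
  have hmem : ∀ A, A ∈ N ↔ A ⊆ Q ∧ A.Nonempty := by
    intro A
    rw [hN, Finset.mem_erase, Finset.mem_powerset, Finset.nonempty_iff_ne_empty]
    tauto
  set x : ℝ := Real.exp (-L') with hx
  have hx0 : 0 < x := Real.exp_pos _
  have hsum : ∑ A ∈ N, x ^ A.card = (x + 1) ^ Q.card - 1 := by
    have h1 := Finset.sum_pow_mul_eq_add_pow x 1 Q
    simp only [one_pow, mul_one] at h1
    rw [← h1, hN, ← Finset.add_sum_erase Q.powerset (fun A => x ^ A.card)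
      (Finset.empty_mem_powerset Q)]
    simp
  have hDpos : (0 : ℝ) < Q.card := by exact_mod_cast hD
  have hsmall : (x + 1) ^ Q.card - 1 ≤ 2 / Q.card := by
    have h1 : x + 1 ≤ Real.exp x := Real.add_one_le_exp x
    have h2 : (x + 1) ^ Q.card ≤ Real.exp (Q.card * x) := by
      rw [Real.exp_nat_mul]
      exact pow_le_pow_left₀ (by positivity) h1 _
    have h3 : Q.card * x ≤ 1 / Q.card := by
      calc (Q.card : ℝ) * x ≤ Q.card * (1 / (Q.card : ℝ) ^ 2) :=
            mul_le_mul_of_nonneg_left hL hDpos.le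
        _ = 1 / Q.card := by field_simp
    have h4 : (1 : ℝ) / Q.card ≤ 1 := by
      rw [div_le_one hDpos]
      exact_mod_cast hD
    have h5 : Real.exp (1 / Q.card) ≤ 1 + 2 * (1 / Q.card) := by
      have h6 : (0 : ℝ) ≤ 1 / Q.card := by positivity
      have h7 := Real.exp_bound' h6 h4 (n := 2) (by norm_num)
      simp only [Finset.sum_range_succ, Finset.sum_range_zero, pow_zero, Nat.factorial,
        Nat.cast_one, div_one, pow_one] at h7
      norm_num at h7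
      have h8 : ((Q.card : ℝ) ^ 2)⁻¹ ≤ (Q.card : ℝ)⁻¹ := by
        refine inv_anti₀ hDpos ?_
        have : (1 : ℝ) ≤ Q.card := by exact_mod_cast hD
        nlinarith
      have h11 : (0 : ℝ) ≤ (Q.card : ℝ)⁻¹ := by positivity
      rw [one_div]
      linarith
    have h9 := h2.trans ((Real.exp_le_exp.2 h3).trans h5)
    have h10 : 2 * (1 / (Q.card : ℝ)) = 2 / Q.card := by ring
    linarith
  have hsub : {ω | ∃ A B C, A ⊆ Q ∧ B ⊆ Q ∧ C ⊆ Q ∧ A.Nonempty ∧ B.Nonempty ∧ C.Nonempty ∧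
      lam' * (Real.sqrt A.card * Real.sqrt B.card * Real.sqrt C.card) < |S A B C ω|}
      ⊆ ⋃ y ∈ N ×ˢ N ×ˢ N, {ω | lam' * (Real.sqrt y.1.card * Real.sqrt y.2.1.card
        * Real.sqrt y.2.2.card) < |S y.1 y.2.1 y.2.2 ω|} := by
    rintro ω ⟨A, B, C, hA, hB, hC, hA', hB', hC', hω⟩
    simp only [Set.mem_iUnion]
    refine ⟨(A, B, C), ?_, hω⟩
    simp only [Finset.mem_product]
    exact ⟨(hmem A).2 ⟨hA, hA'⟩, (hmem B).2 ⟨hB, hB'⟩, (hmem C).2 ⟨hC, hC'⟩⟩
  refine (measure_mono hsub).trans ((measure_biUnion_finset_le _ _).trans ?_)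
  have h1 : ∀ y ∈ N ×ˢ N ×ˢ N, P {ω | lam' * (Real.sqrt y.1.card * Real.sqrt y.2.1.card
        * Real.sqrt y.2.2.card) < |S y.1 y.2.1 y.2.2 ω|}
      ≤ ENNReal.ofReal (2 * (x ^ y.1.card * (x ^ y.2.1.card * x ^ y.2.2.card))) := by
    intro y hy
    simp only [Finset.mem_product] at hy
    have h2 := h y.1 y.2.1 y.2.2 ((hmem _).1 hy.1).1 ((hmem _).1 hy.2.1).1 ((hmem _).1 hy.2.2).1
      ((hmem _).1 hy.1).2 ((hmem _).1 hy.2.1).2 ((hmem _).1 hy.2.2).2
    rw [← ofReal_measureReal (measure_ne_top _ _)]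
    refine ENNReal.ofReal_le_ofReal (h2.trans (le_of_eq ?_))
    rw [hx, ← Real.exp_nat_mul, ← Real.exp_nat_mul, ← Real.exp_nat_mul, ← Real.exp_add,
      ← Real.exp_add]
    congr 2
    ring
  refine (Finset.sum_le_sum h1).trans ?_
  rw [← ENNReal.ofReal_sum_of_nonneg (fun y _ => by positivity)]
  refine ENNReal.ofReal_le_ofReal ?_
  rw [← Finset.mul_sum]
  have h3 : ∑ y ∈ N ×ˢ N ×ˢ N, x ^ y.1.card * (x ^ y.2.1.card * x ^ y.2.2.card)
      = (∑ A ∈ N, x ^ A.card) ^ 3 := by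
    rw [Finset.sum_product]
    simp only [Finset.sum_product]
    rw [pow_succ, pow_two, Finset.sum_mul_sum, Finset.sum_mul]
    refine Finset.sum_congr rfl fun A _ => ?_
    rw [Finset.sum_mul]
    refine Finset.sum_congr rfl fun B _ => ?_
    rw [Finset.mul_sum]
    refine Finset.sum_congr rfl fun C _ => ?_
    ring
  rw [h3, hsum]
  have h4 : 0 ≤ (x + 1) ^ Q.card - 1 := by
    have : (1 : ℝ) ≤ (x + 1) ^ Q.card := one_le_pow₀ (by linarith)
    linarith
  calc 2 * ((x + 1) ^ Q.card - 1) ^ 3 ≤ 2 * (2 / Q.card) ^ 3 :=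
        mul_le_mul_of_nonneg_left (pow_le_pow_left₀ h4 hsmall 3) (by norm_num)
    _ = 16 / (Q.card : ℝ) ^ 3 := by ring

end Pool.Agent.Run7.h507.RT
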