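import Pool.Agent.Run7.h507.RT.NL2
import Pool.Agent.Run7.h507.RT.Flat
import Pool.Agent.Run7.h507.RT.Prob

/-!
The random trilinear form of the local triads.
-/

set_option autoImplicit false

open MeasureTheory ProbabilityTheory Filter Topology
open scoped NNReal ENNReal

namespace Pool.Agent.Run7.h507.RT

/-- The label of the triad of `p` and `q`: the multiset of the three frequencies, up to a common
sign. -/
def lab (p q : K3) : Sym2 (Multiset K3) :=
  s(({p, q, -(p + q)} : Multiset K3), ({-p, -q, p + q} : Multiset K3))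

theorem lab_symm (p q : K3) : lab q p = lab p q := by
  unfold lab
  have e1 : ({q, p, -(q + p)} : Multiset K3) = {p, q, -(p + q)} := by
    rw [add_comm q p]
    exact Multiset.cons_swap q p {-(p + q)}
  have e2 : ({-q, -p, q + p} : Multiset K3) = {-p, -q, p + q} := by
    rw [add_comm q p]
    exact Multiset.cons_swap (-q) (-p) {p + q}
  rw [e1, e2]

theorem lab_third (p q : K3) : lab p (-(p + q)) = lab p q := by
  unfold lab
  have e0 : -(p + -(p + q)) = q := by abel
  have e0' : p + -(p + q) = -q := by abel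
  have e1 : ({p, -(p + q), -(p + -(p + q))} : Multiset K3) = {p, q, -(p + q)} := by
    rw [e0]
    exact congrArg (Multiset.cons p) (Multiset.pair_comm _ _)
  have e2 : ({-p, - -(p + q), p + -(p + q)} : Multiset K3) = {-p, -q, p + q} := by
    rw [e0', neg_neg]
    exact congrArg (Multiset.cons (-p)) (Multiset.pair_comm _ _)
  rw [e1, e2]

theorem lab_neg (p q : K3) : lab (-p) (-q) = lab p q := by
  unfold lab
  have e0 : -(-p + -q) = p + q := by abel
  have e1 : -p + -q = -(p + q) := by abel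
  rw [e0, neg_neg, neg_neg, e1]
  exact Sym2.eq_swap

theorem lab_fiber (G : Finset (K3 × K3)) (l : Sym2 (Multiset K3)) [DecidableEq (Sym2 (Multiset K3))] :
    ((G.filter fun x => lab x.1 x.2 = l).card : ℝ) ≤ 18 := by
  rcases (G.filter fun x => lab x.1 x.2 = l).eq_empty_or_nonempty with h | ⟨x₀, hx₀⟩
  · rw [h]; simp
  have h0 : lab x₀.1 x₀.2 = l := (Finset.mem_filter.1 hx₀).2
  set T : Finset K3 := {x₀.1, x₀.2, -(x₀.1 + x₀.2)} with hT
  set T' : Finset K3 := {-x₀.1, -x₀.2, x₀.1 + x₀.2} with hT'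
  have hsub : (G.filter fun x => lab x.1 x.2 = l) ⊆ (T ×ˢ T) ∪ (T' ×ˢ T') := by
    intro x hx
    have h1 : lab x.1 x.2 = lab x₀.1 x₀.2 := by rw [h0]; exact (Finset.mem_filter.1 hx).2
    unfold lab at h1
    rw [Sym2.eq_iff] at h1
    rcases h1 with ⟨h2, _⟩ | ⟨h2, _⟩
    · have e1 : x.1 ∈ ({x₀.1, x₀.2, -(x₀.1 + x₀.2)} : Multiset K3) := by
        rw [← h2]; simp
      have e2 : x.2 ∈ ({x₀.1, x₀.2, -(x₀.1 + x₀.2)} : Multiset K3) := by
        rw [← h2]; simp
      refine Finset.mem_union_left _ (Finset.mem_product.2 ⟨?_, ?_⟩)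
      · rw [hT]; simpa using e1
      · rw [hT]; simpa using e2
    · have e1 : x.1 ∈ ({-x₀.1, -x₀.2, x₀.1 + x₀.2} : Multiset K3) := by
        rw [← h2]; simp
      have e2 : x.2 ∈ ({-x₀.1, -x₀.2, x₀.1 + x₀.2} : Multiset K3) := by
        rw [← h2]; simp
      refine Finset.mem_union_right _ (Finset.mem_product.2 ⟨?_, ?_⟩)
      · rw [hT']; simpa using e1
      · rw [hT']; simpa using e2
  have hT3 : T.card ≤ 3 := Finset.card_le_three
  have hT3' : T'.card ≤ 3 := Finset.card_le_three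
  have h1 := (Finset.card_le_card hsub).trans (Finset.card_union_le _ _)
  rw [Finset.card_product, Finset.card_product] at h1
  have h2 : T.card * T.card ≤ 3 * 3 := Nat.mul_le_mul hT3 hT3
  have h3 : T'.card * T'.card ≤ 3 * 3 := Nat.mul_le_mul hT3' hT3'
  have h4 : (G.filter fun x => lab x.1 x.2 = l).card ≤ 18 := by omega
  exact_mod_cast h4

/-- The pairs in `A × B` with third frequency in `C`, in the set `loc`. -/
noncomputable def Gs (loc : Set (K3 × K3)) (A B C : Finset K3) : Finset (K3 × K3) := by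
  classical
  exact (A ×ˢ B).filter fun x => -(x.1 + x.2) ∈ C ∧ x ∈ loc

theorem mem_Gs {loc : Set (K3 × K3)} {A B C : Finset K3} {x : K3 × K3} :
    x ∈ Gs loc A B C ↔ x.1 ∈ A ∧ x.2 ∈ B ∧ -(x.1 + x.2) ∈ C ∧ x ∈ loc := by
  classical
  simp [Gs, and_assoc]

theorem card_Gs1 (loc : Set (K3 × K3)) (A B C : Finset K3) :
    (Gs loc A B C).card ≤ A.card * B.card := by
  rw [← Finset.card_product]
  refine Finset.card_le_card fun x hx => ?_
  rw [mem_Gs] at hx
  exact Finset.mem_product.2 ⟨hx.1, hx.2.1⟩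

theorem card_Gs2 (loc : Set (K3 × K3)) (A B C : Finset K3) :
    (Gs loc A B C).card ≤ B.card * C.card := by
  rw [← Finset.card_product]
  refine Finset.card_le_card_of_injOn (fun x => (x.2, -(x.1 + x.2))) (fun x hx => ?_) ?_
  · have hx' : x ∈ Gs loc A B C := hx
    rw [mem_Gs] at hx'
    exact Finset.mem_coe.2 (Finset.mem_product.2 ⟨hx'.2.1, hx'.2.2.1⟩)
  · intro x _ y _ h
    have h3 := congrArg Prod.fst h
    have h4 := congrArg Prod.snd h
    simp only at h3 h4
    rw [h3] at h4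
    exact Prod.ext (by simpa using h4) h3

theorem card_Gs3 (loc : Set (K3 × K3)) (A B C : Finset K3) :
    (Gs loc A B C).card ≤ A.card * C.card := by
  rw [← Finset.card_product]
  refine Finset.card_le_card_of_injOn (fun x => (x.1, -(x.1 + x.2))) (fun x hx => ?_) ?_
  · have hx' : x ∈ Gs loc A B C := hx
    rw [mem_Gs] at hx'
    exact Finset.mem_coe.2 (Finset.mem_product.2 ⟨hx'.1, hx'.2.2.1⟩)
  · intro x _ y _ h
    have h3 := congrArg Prod.fst h
    have h4 := congrArg Prod.snd h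
    simp only at h3 h4
    rw [h3] at h4
    exact Prod.ext h3 (by simpa using h4)

/-- The sum over the local triads. -/
noncomputable def Sm {Ω : Type*} (loc : Set (K3 × K3)) (X : Sym2 (Multiset K3) → Ω → ℝ)
    (A B C : Finset K3) (ω : Ω) : ℝ := ∑ x ∈ Gs loc A B C, X (lab x.1 x.2) ω

section

variable {Ω : Type*} [MeasurableSpace Ω] {P : Measure Ω} [IsProbabilityMeasure P]
  {X : Sym2 (Multiset K3) → Ω → ℝ}

theorem Sm_le (hX : Signs P X) (loc : Set (K3 × K3)) (A B C : Finset K3) (ω : Ω) :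
    |Sm loc X A B C ω| ≤ A.card * B.card := by
  unfold Sm
  refine (Finset.abs_sum_le_sum_abs _ _).trans ?_
  calc ∑ x ∈ Gs loc A B C, |X (lab x.1 x.2) ω| ≤ ∑ _x ∈ Gs loc A B C, (1 : ℝ) :=
        Finset.sum_le_sum fun x _ => hX.bdd _ ω
    _ = (Gs loc A B C).card := by simp
    _ ≤ A.card * B.card := by exact_mod_cast card_Gs1 loc A B C

theorem Sm_tail (hX : Signs P X) (loc : Set (K3 × K3)) {L' : ℝ} (hL : 0 ≤ L') {A B C : Finset K3}
    (_hA : A.Nonempty) (_hB : B.Nonempty) (_hC : C.Nonempty) :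
    P.real {ω | Real.sqrt (108 * L') * (Real.sqrt A.card * Real.sqrt B.card * Real.sqrt C.card)
      < |Sm loc X A B C ω|} ≤ 2 * Real.exp (-(L' * (A.card + B.card + C.card))) := by
  classical
  rcases (Gs loc A B C).eq_empty_or_nonempty with h | h
  · have : {ω | Real.sqrt (108 * L') * (Real.sqrt A.card * Real.sqrt B.card * Real.sqrt C.card)
        < |Sm loc X A B C ω|} = ∅ := by
      ext ω
      simp only [Set.mem_ofPred_eq, Set.mem_empty_iff_false, iff_false, not_lt]
      unfold Sm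
      rw [h, Finset.sum_empty, abs_zero]
      positivity
    rw [this, measureReal_empty]
    positivity
  have hpos : 0 < (Gs loc A B C).card := Finset.card_pos.2 h
  set t : ℝ := Real.sqrt (108 * L') * (Real.sqrt A.card * Real.sqrt B.card * Real.sqrt C.card)
    with ht
  have ht0 : 0 ≤ t := by positivity
  have h1 := hoeff hX (Gs loc A B C) (fun x => lab x.1 x.2) (m := 18)
    (fun l => lab_fiber (Gs loc A B C) l) hpos ht0
  have h2 : P.real {ω | t < |Sm loc X A B C ω|}
      ≤ P.real {ω | t ≤ |∑ x ∈ Gs loc A B C, X (lab x.1 x.2) ω|} :=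
    measureReal_mono (fun ω hω => by
      have h3 : t < |Sm loc X A B C ω| := hω
      exact h3.le) (measure_ne_top _ _)
  refine h2.trans (h1.trans ?_)
  refine mul_le_mul_of_nonneg_left (Real.exp_le_exp.2 (neg_le_neg ?_)) (by norm_num)
  have hg : (0 : ℝ) < (Gs loc A B C).card := by exact_mod_cast hpos
  rw [le_div_iff₀ (by positivity)]
  have ht2 : t ^ 2 = 108 * L' * (A.card * B.card * C.card) := by
    rw [ht, mul_pow, mul_pow, mul_pow, Real.sq_sqrt (by positivity), Real.sq_sqrt (by positivity),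
      Real.sq_sqrt (by positivity), Real.sq_sqrt (by positivity)]
  rw [ht2]
  have g1 : ((Gs loc A B C).card : ℝ) ≤ A.card * B.card := by exact_mod_cast card_Gs1 loc A B C
  have g2 : ((Gs loc A B C).card : ℝ) ≤ B.card * C.card := by exact_mod_cast card_Gs2 loc A B C
  have g3 : ((Gs loc A B C).card : ℝ) ≤ A.card * C.card := by exact_mod_cast card_Gs3 loc A B C
  have a0 : (0 : ℝ) ≤ A.card := Nat.cast_nonneg _
  have b0 : (0 : ℝ) ≤ B.card := Nat.cast_nonneg _
  have c0 : (0 : ℝ) ≤ C.card := Nat.cast_nonneg _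
  have k1 := mul_le_mul_of_nonneg_right g1 c0
  have k2 := mul_le_mul_of_nonneg_right g2 a0
  have k3 := mul_le_mul_of_nonneg_right g3 b0
  have k4 : ((A.card : ℝ) + B.card + C.card) * (Gs loc A B C).card
      ≤ 3 * (A.card * B.card * C.card) := by nlinarith
  have k5 := mul_le_mul_of_nonneg_left k4 (by positivity : 0 ≤ 36 * L')
  nlinarith

/-- The number of the frequencies in the box. -/
theorem card_Bn (n : ℕ) : (Bn n).card = (2 * n + 1) ^ 3 := by
  rw [Bn, Fintype.card_piFinset]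
  simp only [Int.card_Icc, Finset.prod_const, Finset.card_univ, Fintype.card_fin]
  congr 1
  omega

theorem card_Bn_le (j : ℕ) : ((Bn (2 ^ (j + 1))).card : ℝ) ≤ 2 ^ (3 * (j + 3)) := by
  have h1 : 1 ≤ 2 ^ (j + 1) := Nat.one_le_two_pow
  have h : (2 * 2 ^ (j + 1) + 1) ^ 3 ≤ 2 ^ (3 * (j + 3)) := by
    calc (2 * 2 ^ (j + 1) + 1) ^ 3 ≤ (2 ^ (j + 3)) ^ 3 := by
          refine Nat.pow_le_pow_left ?_ 3
          have e : 2 ^ (j + 3) = 4 * 2 ^ (j + 1) := by ring
          rw [e]
          omega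
      _ = 2 ^ (3 * (j + 3)) := by rw [← pow_mul, mul_comm]
  rw [card_Bn]
  exact_mod_cast h

theorem le_card_Bn (j : ℕ) : (2 : ℝ) ^ j ≤ (Bn (2 ^ (j + 1))).card := by
  have h : 2 ^ j ≤ (2 * 2 ^ (j + 1) + 1) ^ 3 := by
    calc 2 ^ j ≤ 2 * 2 ^ (j + 1) + 1 := by
          have e : 2 ^ (j + 1) = 2 * 2 ^ j := by ring
          omega
      _ ≤ (2 * 2 ^ (j + 1) + 1) ^ 3 := Nat.le_self_pow (by norm_num) _
  rw [card_Bn]
  exact_mod_cast h

/-- The bad event at the scale `j`. -/
def Bad (loc : Set (K3 × K3)) (X : Sym2 (Multiset K3) → Ω → ℝ) (j : ℕ) : Set Ω :=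
  {ω | ∃ A B C, A ⊆ Bn (2 ^ (j + 1)) ∧ B ⊆ Bn (2 ^ (j + 1)) ∧ C ⊆ Bn (2 ^ (j + 1)) ∧
    A.Nonempty ∧ B.Nonempty ∧ C.Nonempty ∧
    Real.sqrt (108 * (2 * Real.log (Bn (2 ^ (j + 1))).card))
      * (Real.sqrt A.card * Real.sqrt B.card * Real.sqrt C.card) < |Sm loc X A B C ω|}

theorem measure_Bad (hX : Signs P X) (loc : Set (K3 × K3)) (j : ℕ) :
    P (Bad loc X j) ≤ ENNReal.ofReal (16 * (1 / 2) ^ j) := by
  classical
  have h2 := le_card_Bn j
  have hD1 : (1 : ℝ) ≤ (Bn (2 ^ (j + 1))).card := le_trans (one_le_pow₀ (by norm_num)) h2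
  have hD0 : (0 : ℝ) < (Bn (2 ^ (j + 1))).card := by linarith
  have h := union_bound (P := P) (Bn (2 ^ (j + 1))) (fun A B C ω => Sm loc X A B C ω)
    (lam' := Real.sqrt (108 * (2 * Real.log (Bn (2 ^ (j + 1))).card)))
    (L' := 2 * Real.log (Bn (2 ^ (j + 1))).card) (by exact_mod_cast hD1)
    (by
      rw [← neg_mul, mul_comm, Real.exp_mul, Real.exp_log hD0, Real.rpow_neg hD0.le, one_div]
      norm_num)
    (fun A B C _ _ _ hA hB hC => Sm_tail hX loc (by
      have := Real.log_nonneg hD1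
      positivity) hA hB hC)
  refine le_trans h (ENNReal.ofReal_le_ofReal ?_)
  have h3 : (2 : ℝ) ^ j ≤ ((Bn (2 ^ (j + 1))).card : ℝ) ^ 3 :=
    h2.trans (le_self_pow₀ hD1 (by norm_num))
  rw [one_div, inv_pow, ← div_eq_mul_inv]
  exact div_le_div_of_nonneg_left (by norm_num) (by positivity) h3

/-- Almost surely the random form is small on the indicator functions at all scales. -/
theorem ae_flat (hX : Signs P X) (loc : Set (K3 × K3)) :
    ∀ᵐ ω ∂P, ∃ K : ℝ, 0 ≤ K ∧ ∀ j : ℕ, ∀ A B C : Finset K3, A ⊆ Bn (2 ^ (j + 1)) →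
      B ⊆ Bn (2 ^ (j + 1)) → C ⊆ Bn (2 ^ (j + 1)) →
      |Sm loc X A B C ω| ≤ K * (j + 1) * (Real.sqrt A.card * Real.sqrt B.card * Real.sqrt C.card) := by
  have hs : (∑' j, P (Bad loc X j)) ≠ ∞ := by
    have h1 : Summable fun j : ℕ => (16 : ℝ) * (1 / 2) ^ j :=
      (summable_geometric_of_lt_one (by norm_num) (by norm_num)).mul_left 16
    exact ne_top_of_le_ne_top h1.tsum_ofReal_ne_top
      (ENNReal.tsum_le_tsum fun j => measure_Bad hX loc j)
  filter_upwards [ae_eventually_notMem hs] with ω hω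
  obtain ⟨j₀, hj₀⟩ := eventually_atTop.1 hω
  refine ⟨max 78 ((Bn (2 ^ (j₀ + 1))).card * (Bn (2 ^ (j₀ + 1))).card), by positivity,
    fun j A B C hA hB hC => ?_⟩
  rcases A.eq_empty_or_nonempty with h | hA'
  · have := Sm_le hX loc A B C ω
    rw [h] at this ⊢
    simp only [Finset.card_empty, Nat.cast_zero, zero_mul] at this
    simpa using this
  rcases B.eq_empty_or_nonempty with h | hB'
  · have := Sm_le hX loc A B C ω
    rw [h] at this ⊢
    simp only [Finset.card_empty, Nat.cast_zero, mul_zero] at this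
    simpa using this
  rcases C.eq_empty_or_nonempty with h | hC'
  · have : Sm loc X A B C ω = 0 := by
      unfold Sm
      have h2 : Gs loc A B C = ∅ := by
        refine Finset.eq_empty_of_forall_notMem fun x hx => ?_
        rw [mem_Gs, h] at hx
        simp at hx
      rw [h2, Finset.sum_empty]
    rw [this, abs_zero, h]
    simp
  have hA1 : (1 : ℝ) ≤ A.card := by exact_mod_cast Finset.card_pos.2 hA'
  have hB1 : (1 : ℝ) ≤ B.card := by exact_mod_cast Finset.card_pos.2 hB'
  have hC1 : (1 : ℝ) ≤ C.card := by exact_mod_cast Finset.card_pos.2 hC'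
  set W := Real.sqrt A.card * Real.sqrt B.card * Real.sqrt C.card with hW
  have hW1 : 1 ≤ W := by
    have e1 := Real.one_le_sqrt.2 hA1
    have e2 := Real.one_le_sqrt.2 hB1
    have e3 := Real.one_le_sqrt.2 hC1
    have e4 : 1 ≤ Real.sqrt A.card * Real.sqrt B.card := one_le_mul_of_one_le_of_one_le e1 e2
    exact one_le_mul_of_one_le_of_one_le e4 e3
  rcases le_total j₀ j with hj | hj
  · have h1 := hj₀ j hj
    have h2 : |Sm loc X A B C ω| ≤ Real.sqrt (108 * (2 * Real.log (Bn (2 ^ (j + 1))).card)) * W := by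
      by_contra hcon
      exact h1 ⟨A, B, C, hA, hB, hC, hA', hB', hC', not_le.1 hcon⟩
    refine h2.trans (mul_le_mul_of_nonneg_right ?_ (by linarith))
    have h3 : Real.log (Bn (2 ^ (j + 1))).card ≤ 3 * (j + 3) := by
      have h4 := le_card_Bn j
      have h5 : (0 : ℝ) < (Bn (2 ^ (j + 1))).card := lt_of_lt_of_le (by positivity) h4
      calc Real.log (Bn (2 ^ (j + 1))).card ≤ Real.log (2 ^ (3 * (j + 3))) :=
            Real.log_le_log h5 (card_Bn_le j)
        _ = (3 * (j + 3) : ℕ) * Real.log 2 := Real.log_pow _ _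
        _ ≤ (3 * (j + 3) : ℕ) * 1 := by
            refine mul_le_mul_of_nonneg_left ?_ (Nat.cast_nonneg _)
            have := Real.log_two_lt_d9
            linarith
        _ = 3 * (j + 3) := by push_cast; ring
    have h6 : Real.sqrt (108 * (2 * Real.log (Bn (2 ^ (j + 1))).card)) ≤ 78 * (j + 1) := by
      rw [Real.sqrt_le_left (by positivity)]
      have hj0 : (0 : ℝ) ≤ j := Nat.cast_nonneg j
      nlinarith
    refine h6.trans (mul_le_mul_of_nonneg_right (le_max_left _ _) (by positivity))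
  · have hle : ∀ D : Finset K3, D ⊆ Bn (2 ^ (j + 1)) → (D.card : ℝ) ≤ (Bn (2 ^ (j₀ + 1))).card := by
      intro D hD
      have e1 : (Bn (2 ^ (j + 1))).card ≤ (Bn (2 ^ (j₀ + 1))).card := by
        rw [card_Bn, card_Bn]
        have : 2 ^ (j + 1) ≤ 2 ^ (j₀ + 1) := Nat.pow_le_pow_right (by norm_num) (by omega)
        gcongr
      exact_mod_cast (Finset.card_le_card hD).trans e1
    have h1 := Sm_le hX loc A B C ω
    have h2 : (A.card : ℝ) * B.card ≤ (Bn (2 ^ (j₀ + 1))).card * (Bn (2 ^ (j₀ + 1))).card :=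
      mul_le_mul (hle A hA) (hle B hB) (by positivity) (by positivity)
    have h3 := h2.trans (le_max_right 78 _)
    have hj0 : (0 : ℝ) ≤ j := Nat.cast_nonneg j
    set K := max (78 : ℝ) ((Bn (2 ^ (j₀ + 1))).card * (Bn (2 ^ (j₀ + 1))).card) with hK
    have hK0 : 0 ≤ K := by positivity
    calc |Sm loc X A B C ω| ≤ K := h1.trans h3
      _ = K * 1 * 1 := by ring
      _ ≤ K * (j + 1) * W := by
          refine mul_le_mul (mul_le_mul_of_nonneg_left (by linarith) hK0) hW1 (by norm_num)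
            (by positivity)

end

end Pool.Agent.Run7.h507.RT
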