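import Pool.Agent.Run7.h507.RT.Bas

/-!
Sums over the triads in a finite set of frequencies; the energy identity.
-/

set_option autoImplicit false

open MeasureTheory Set Filter Topology
open scoped ContDiff ComplexConjugate

namespace Pool.Agent.Run7.h507.RT

/-- The bilinear product of complex vectors. -/
noncomputable def dc (v w : C3) : ℂ := ∑ i, v i * w i

/-- The squared Euclidean norm. -/
noncomputable def nsq (v : C3) : ℝ := ∑ i, ‖v i‖ ^ 2

/-- The real inner product. -/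
noncomputable def ip (v w : C3) : ℝ := ∑ i, (v i * conj (w i)).re

theorem nsq_nonneg (v : C3) : 0 ≤ nsq v := Finset.sum_nonneg fun _ _ => sq_nonneg _

theorem nsq_zero : nsq 0 = 0 := by simp [nsq]

theorem ip_self (v : C3) : ip v v = nsq v := by
  unfold ip nsq
  refine Finset.sum_congr rfl fun i _ => ?_
  rw [Complex.mul_conj, Complex.ofReal_re, Complex.normSq_eq_norm_sq]

theorem ip_add_left (u v w : C3) : ip (u + v) w = ip u w + ip v w := by
  simp only [ip, Pi.add_apply, add_mul, Complex.add_re, Finset.sum_add_distrib]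

theorem ip_neg_left (u w : C3) : ip (-u) w = -ip u w := by
  simp only [ip, Pi.neg_apply, neg_mul, Complex.neg_re, Finset.sum_neg_distrib]

theorem ip_sub_left (u v w : C3) : ip (u - v) w = ip u w - ip v w := by
  rw [sub_eq_add_neg, ip_add_left, ip_neg_left, ← sub_eq_add_neg]

theorem ip_smul_left (c : ℝ) (u w : C3) : ip (c • u) w = c * ip u w := by
  simp only [ip, Pi.smul_apply, Finset.mul_sum]
  refine Finset.sum_congr rfl fun i _ => ?_
  rw [smul_mul_assoc, Complex.smul_re, smul_eq_mul]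

theorem ip_comm (v w : C3) : ip v w = ip w v := by
  unfold ip
  refine Finset.sum_congr rfl fun i _ => ?_
  simp only [Complex.mul_re, Complex.conj_re, Complex.conj_im]
  ring

theorem norm_sq_le_nsq (v : C3) : ‖v‖ ^ 2 ≤ nsq v := by
  obtain ⟨i, hi⟩ : ∃ i, ‖v‖ = ‖v i‖ := by
    obtain ⟨i, _, hi⟩ := Finset.exists_mem_eq_sup' (Finset.univ_nonempty (α := Fin 3))
      (fun i => ‖v i‖₊)
    refine ⟨i, ?_⟩
    have : ‖v‖₊ = ‖v i‖₊ := by
      rw [Pi.nnnorm_def, ← hi, Finset.sup'_eq_sup]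
    exact congrArg NNReal.toReal this
  rw [hi]
  exact Finset.single_le_sum (f := fun i => ‖v i‖ ^ 2) (fun _ _ => sq_nonneg _) (Finset.mem_univ i)

theorem nsq_le (v : C3) : nsq v ≤ 3 * ‖v‖ ^ 2 := by
  unfold nsq
  calc ∑ i, ‖v i‖ ^ 2 ≤ ∑ _i : Fin 3, ‖v‖ ^ 2 :=
        Finset.sum_le_sum fun i _ => pow_le_pow_left₀ (norm_nonneg _) (norm_le_pi_norm v i) 2
    _ = 3 * ‖v‖ ^ 2 := by simp

theorem norm_le_sqrt_nsq (v : C3) : ‖v‖ ≤ Real.sqrt (nsq v) :=
  Real.le_sqrt_of_sq_le (norm_sq_le_nsq v)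

theorem norm_apply_sq_le (v : C3) (i : Fin 3) : ‖v i‖ ^ 2 ≤ nsq v :=
  Finset.single_le_sum (f := fun i => ‖v i‖ ^ 2) (fun _ _ => sq_nonneg _) (Finset.mem_univ i)

theorem abs_ip_le (v w : C3) : |ip v w| ≤ 3 * (‖v‖ * ‖w‖) := by
  unfold ip
  refine (Finset.abs_sum_le_sum_abs _ _).trans ?_
  calc ∑ i, |(v i * conj (w i)).re| ≤ ∑ _i : Fin 3, ‖v‖ * ‖w‖ := by
        refine Finset.sum_le_sum fun i _ => (Complex.abs_re_le_norm _).trans ?_
        rw [norm_mul, RCLike.norm_conj]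
        exact mul_le_mul (norm_le_pi_norm v i) (norm_le_pi_norm w i) (norm_nonneg _) (norm_nonneg _)
    _ = 3 * (‖v‖ * ‖w‖) := by simp

theorem norm_dc_le (v w : C3) : ‖dc v w‖ ≤ 3 * (‖v‖ * ‖w‖) := by
  unfold dc
  refine (norm_sum_le _ _).trans ?_
  calc ∑ i, ‖v i * w i‖ ≤ ∑ _i : Fin 3, ‖v‖ * ‖w‖ := by
        refine Finset.sum_le_sum fun i _ => ?_
        rw [norm_mul]
        exact mul_le_mul (norm_le_pi_norm v i) (norm_le_pi_norm w i) (norm_nonneg _) (norm_nonneg _)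
    _ = 3 * (‖v‖ * ‖w‖) := by simp

theorem dc_comm (v w : C3) : dc v w = dc w v := by
  unfold dc
  exact Finset.sum_congr rfl fun i _ => mul_comm _ _

/-- The pairs `(p, q)` with `p`, `q` and `-(p + q)` in `B`. -/
def Tr (B : Finset K3) : Finset (K3 × K3) := (B ×ˢ B).filter fun x => -(x.1 + x.2) ∈ B

theorem mem_Tr {B : Finset K3} {x : K3 × K3} :
    x ∈ Tr B ↔ x.1 ∈ B ∧ x.2 ∈ B ∧ -(x.1 + x.2) ∈ B := by
  simp [Tr, and_assoc]

/-- The contribution of the triad `(p, q, -(p + q))`. -/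
noncomputable def th (η : K3 → K3 → ℝ) (a b c : Cf) (x : K3 × K3) : ℂ :=
  (η x.1 x.2 : ℂ) * (kd (-(x.1 + x.2)) (a x.1) * dc (b x.2) (c (-(x.1 + x.2))))

theorem th_swap {η : K3 → K3 → ℝ} (hη : IsWeight η) {a : Cf} (ha : Dv a) (b c : Cf) (x : K3 × K3) :
    th η a b c (x.1, -(x.1 + x.2)) = -th η a c b x := by
  have e : -(x.1 + -(x.1 + x.2)) = x.2 := by abel
  simp only [th]
  rw [hη.third, e, dc_comm (b (-(x.1 + x.2))) (c x.2), kd_neg_left, kd_add_left, ha x.1]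
  ring

theorem sum_Tr_third {M : Type*} [AddCommMonoid M] (B : Finset K3) (f : K3 × K3 → M) :
    ∑ x ∈ Tr B, f x = ∑ x ∈ Tr B, f (x.1, -(x.1 + x.2)) := by
  refine Finset.sum_nbij' (fun x => (x.1, -(x.1 + x.2))) (fun x => (x.1, -(x.1 + x.2)))
    (fun x hx => ?_) (fun x hx => ?_) (fun x _ => ?_) (fun x _ => ?_) (fun x _ => ?_)
  · rw [mem_Tr] at hx ⊢
    exact ⟨hx.1, hx.2.2, by simpa using hx.2.1⟩
  · rw [mem_Tr] at hx ⊢
    exact ⟨hx.1, hx.2.2, by simpa using hx.2.1⟩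
  · simp
  · simp
  · simp

/-- The antisymmetry. -/
theorem sum_th {η : K3 → K3 → ℝ} (hη : IsWeight η) {a : Cf} (ha : Dv a) (B : Finset K3)
    (g : K3 → ℝ) :
    ∑ x ∈ Tr B, (g (-(x.1 + x.2)) : ℂ) * th η a a a x
      = ∑ x ∈ Tr B, (((g (-(x.1 + x.2)) - g x.2) / 2 : ℝ) : ℂ) * th η a a a x := by
  have h1 : ∑ x ∈ Tr B, (g (-(x.1 + x.2)) : ℂ) * th η a a a x
      = ∑ x ∈ Tr B, -((g x.2 : ℂ) * th η a a a x) := by
    rw [sum_Tr_third]
    refine Finset.sum_congr rfl fun x _ => ?_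
    have e : -(x.1 + -(x.1 + x.2)) = x.2 := by abel
    rw [th_swap hη ha]
    simp only [e]
    ring
  have h2 : ∑ x ∈ Tr B, (((g (-(x.1 + x.2)) - g x.2) / 2 : ℝ) : ℂ) * th η a a a x
      = (∑ x ∈ Tr B, (g (-(x.1 + x.2)) : ℂ) * th η a a a x
        + ∑ x ∈ Tr B, -((g x.2 : ℂ) * th η a a a x)) / 2 := by
    rw [← Finset.sum_add_distrib, Finset.sum_div]
    refine Finset.sum_congr rfl fun x _ => ?_
    push_cast
    ring
  rw [h2, ← h1]
  ring

theorem ip_prj {k : K3} {w : C3} (hw : kd k w = 0) (v : C3) : ip (prj k v) w = ip v w := by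
  have h : ip (prj k v) w = ip v w - ((kd k v / (sq k : ℂ)) * conj (kd k w)).re := by
    unfold ip prj
    rw [← Complex.re_sum, ← Complex.re_sum, ← Complex.sub_re]
    congr 1
    rw [← kd_conj]
    unfold kd
    rw [Finset.mul_sum, ← Finset.sum_sub_distrib]
    refine Finset.sum_congr rfl fun i _ => ?_
    ring
  rw [h, hw]
  simp

/-- The contribution of the nonlinear term to the energy of the mode `k`. -/
theorem ip_nl (η : K3 → K3 → ℝ) {a : Cf} {B : Finset K3} (hs : ∀ k ∉ B, a k = 0) (b : Cf)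
    {c : Cf} (hc : Dv c) (hh : Herm c) (k : K3) :
    ip (nl η a b k) (c k)
      = (Complex.I * ∑ p ∈ B, (η p (k - p) : ℂ) * (kd k (a p) * dc (b (k - p)) (c (-k)))).re := by
  rw [nl_eq_sum η hs]
  have h1 : ip (Complex.I • prj k (∑ p ∈ B, ((η p (k - p) : ℂ) * kd k (a p)) • b (k - p))) (c k)
      = ip (Complex.I • (∑ p ∈ B, ((η p (k - p) : ℂ) * kd k (a p)) • b (k - p))) (c k) := by
    rw [← prj_smul, ip_prj (hc k)]
  rw [h1]
  unfold ip
  rw [← Complex.re_sum]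
  congr 1
  simp only [Pi.smul_apply, Finset.sum_apply, smul_eq_mul, dc, Finset.mul_sum, Finset.sum_mul]
  rw [Finset.sum_comm]
  refine Finset.sum_congr rfl fun p _ => Finset.sum_congr rfl fun i _ => ?_
  rw [← hh k i]
  ring

/-- The contribution of the nonlinear term to the weighted energy. -/
theorem sum_ip_nl (η : K3 → K3 → ℝ) {a b : Cf} {B : Finset K3} (hs : ∀ k ∉ B, a k = 0)
    (hb : ∀ k ∉ B, b k = 0) (hB : ∀ k ∈ B, -k ∈ B) {c : Cf} (hc : Dv c) (hh : Herm c) (g : K3 → ℝ)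
    (hg : ∀ k, g (-k) = g k) :
    ∑ k ∈ B, g k * ip (nl η a b k) (c k)
      = -(Complex.I * ∑ x ∈ Tr B, (g (-(x.1 + x.2)) : ℂ) * th η a b c x).re := by
  set f : K3 × K3 → ℂ := fun y => (g y.1 : ℂ) * ((η y.2 (y.1 - y.2) : ℂ)
    * (kd y.1 (a y.2) * dc (b (y.1 - y.2)) (c (-y.1)))) with hf
  have h1 : ∑ k ∈ B, g k * ip (nl η a b k) (c k) = (Complex.I * ∑ y ∈ B ×ˢ B, f y).re := by
    rw [Finset.sum_product, Finset.mul_sum, Complex.re_sum]
    refine Finset.sum_congr rfl fun k _ => ?_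
    rw [ip_nl η hs b hc hh k, ← Complex.re_ofReal_mul]
    congr 1
    simp only [hf, Finset.mul_sum]
    refine Finset.sum_congr rfl fun p _ => ?_
    ring
  have h2 : ∑ y ∈ B ×ˢ B, f y = ∑ y ∈ (B ×ˢ B).filter (fun y => y.1 - y.2 ∈ B), f y := by
    rw [Finset.sum_filter_of_ne]
    intro y _ hy
    by_contra hcon
    apply hy
    simp only [hf]
    rw [hb _ hcon]
    simp [dc]
  have h3 : ∑ y ∈ (B ×ˢ B).filter (fun y => y.1 - y.2 ∈ B), f y
      = ∑ x ∈ Tr B, -((g (-(x.1 + x.2)) : ℂ) * th η a b c x) := by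
    refine Finset.sum_nbij' (fun y => (y.2, y.1 - y.2)) (fun x => (x.1 + x.2, x.1))
      (fun y hy => ?_) (fun x hx => ?_) (fun y _ => ?_) (fun x _ => ?_) (fun y _ => ?_)
    · rw [Finset.mem_filter, Finset.mem_product] at hy
      rw [mem_Tr]
      refine ⟨hy.1.2, hy.2, ?_⟩
      have e : -(y.2 + (y.1 - y.2)) = -y.1 := by abel
      simp only [e]
      exact hB _ hy.1.1
    · rw [mem_Tr] at hx
      rw [Finset.mem_filter, Finset.mem_product]
      refine ⟨⟨?_, hx.1⟩, ?_⟩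
      · have := hB _ hx.2.2
        simpa using this
      · simpa using hx.2.1
    · simp
    · simp
    · have e : -(y.2 + (y.1 - y.2)) = -y.1 := by abel
      simp only [hf, th, e, kd_neg_left, hg]
      ring
  rw [h1, h2, h3, Finset.sum_neg_distrib, mul_neg, Complex.neg_re]

end Pool.Agent.Run7.h507.RT
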