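import Pool.Agent.Run7.h507.RT.Lim

/-!
Uniqueness of smooth solutions, for every weight.
-/

set_option autoImplicit false

open MeasureTheory Set Filter Topology
open scoped ContDiff ComplexConjugate NNReal

namespace Pool.Agent.Run7.h507.RT

variable {η : K3 → K3 → ℝ}

theorem sum_th_zero (hη : IsWeight η) {b : Cf} (hb : Dv b) (w : Cf) (B : Finset K3) :
    ∑ x ∈ Tr B, th η b w w x = 0 := by
  have h1 : ∑ x ∈ Tr B, th η b w w x = -∑ x ∈ Tr B, th η b w w x := by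
    conv_lhs => rw [sum_Tr_third]
    rw [← Finset.sum_neg_distrib]
    exact Finset.sum_congr rfl fun x _ => th_swap hη hb w w x
  have h2 : (2 : ℂ) * ∑ x ∈ Tr B, th η b w w x = 0 := by
    calc (2 : ℂ) * ∑ x ∈ Tr B, th η b w w x
        = ∑ x ∈ Tr B, th η b w w x + ∑ x ∈ Tr B, th η b w w x := by ring
      _ = 0 := by
          conv_lhs => arg 1; rw [h1]
          ring
  rcases mul_eq_zero.1 h2 with h | h
  · norm_num at h
  · exact h

theorem transport_zero (hη : IsWeight η) {B : Finset K3} (hB : ∀ k ∈ B, -k ∈ B) {b w : Cf}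
    (hbs : ∀ k ∉ B, b k = 0) (hws : ∀ k ∉ B, w k = 0) (hb : Dv b) (hw : Dv w) (hwh : Herm w) :
    ∑ k ∈ B, ip (nl η b w k) (w k) = 0 := by
  have h := sum_ip_nl η hbs hws hB hw hwh (fun _ => 1) (fun _ => rfl)
  simp only [one_mul, Complex.ofReal_one] at h
  rw [h, sum_th_zero hη hb]
  simp

/-- The truncation. -/
noncomputable def cut (n : ℕ) (a : Cf) : Cf := by
  classical
  exact fun k => if k ∈ Bn n then a k else 0

theorem cut_mem {n : ℕ} {a : Cf} {k : K3} (h : k ∈ Bn n) : cut n a k = a k := by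
  unfold cut; rw [if_pos h]

theorem cut_not {n : ℕ} {a : Cf} {k : K3} (h : k ∉ Bn n) : cut n a k = 0 := by
  unfold cut; rw [if_neg h]

theorem cut_dv {n : ℕ} {a : Cf} (h : Dv a) : Dv (cut n a) := by
  intro k
  by_cases hk : k ∈ Bn n
  · rw [cut_mem hk, h k]
  · rw [cut_not hk, kd_zero_right]

theorem cut_herm {n : ℕ} {a : Cf} (h : Herm a) : Herm (cut n a) := by
  intro k i
  by_cases hk : k ∈ Bn n
  · rw [cut_mem hk, cut_mem (Bn_neg k hk), h k i]
  · have h' : -k ∉ Bn n := fun h' => hk (by simpa using Bn_neg _ h')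
    rw [cut_not hk, cut_not h']
    simp

theorem lt_jb_of_not {n : ℕ} {k : K3} (h : k ∉ Bn n) : (n : ℝ) ≤ jb k := by
  rw [mem_Bn] at h
  push Not at h
  obtain ⟨i, hi⟩ := h
  have h1 : (n : ℤ) ≤ |k i| := by
    by_cases h2 : -(n : ℤ) ≤ k i
    · exact (hi h2).le.trans (le_abs_self _)
    · push Not at h2
      rw [← abs_neg]
      exact (by omega : (n : ℤ) ≤ -k i).trans (le_abs_self _)
  have h2 : ((n : ℤ) : ℝ) ≤ ((|k i| : ℤ) : ℝ) := by exact_mod_cast h1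
  rw [Int.cast_abs] at h2
  push_cast at h2
  exact h2.trans ((abs_le_len k i).trans (len_le_jb k))

theorem tail_le {m n : ℕ} (hn : 0 < n) {a : Cf} {A : ℝ} (ha : ∀ k, jb k ^ (m + 1) * ‖a k‖ ≤ A)
    (k : K3) : jb k ^ m * ‖(a - cut n a) k‖ ≤ A / n := by
  have hA : 0 ≤ A := le_trans (mul_nonneg (pow_nonneg (jb_pos 0).le _) (norm_nonneg _)) (ha 0)
  have hn0 : (0 : ℝ) < n := by exact_mod_cast hn
  rw [Pi.sub_apply]
  by_cases hk : k ∈ Bn n
  · rw [cut_mem hk, sub_self, norm_zero, mul_zero]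
    positivity
  · rw [cut_not hk, sub_zero, le_div_iff₀ hn0]
    have h1 := lt_jb_of_not hk
    have h0 := jb_pos k
    calc jb k ^ m * ‖a k‖ * n ≤ jb k ^ m * ‖a k‖ * jb k :=
          mul_le_mul_of_nonneg_left h1 (by positivity)
      _ = jb k ^ (m + 1) * ‖a k‖ := by ring
      _ ≤ A := ha k

theorem cut_bound {m n : ℕ} {a : Cf} {A : ℝ} (ha : ∀ k, jb k ^ m * ‖a k‖ ≤ A) (k : K3) :
    jb k ^ m * ‖cut n a k‖ ≤ A := by
  by_cases hk : k ∈ Bn n
  · rw [cut_mem hk]; exact ha k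
  · rw [cut_not hk, norm_zero, mul_zero]
    exact le_trans (mul_nonneg (pow_nonneg (jb_pos 0).le _) (norm_nonneg _)) (ha 0)

theorem sum_norm_le {w : Cf} {A : ℝ} (hw : ∀ k, jb k ^ 6 * ‖w k‖ ≤ A) (F : Finset K3) :
    ∑ k ∈ F, ‖w k‖ ≤ A * Z6 := by
  have h1 : ∀ k, ‖w k‖ ≤ A * (jb k ^ 6)⁻¹ := by
    intro k
    have h0 := jb_pos k
    rw [← div_eq_mul_inv, le_div_iff₀ (by positivity), mul_comm]
    exact hw k
  have hA : 0 ≤ A := le_trans (mul_nonneg (pow_nonneg (jb_pos 0).le _) (norm_nonneg _)) (hw 0)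
  calc ∑ k ∈ F, ‖w k‖ ≤ ∑ k ∈ F, A * (jb k ^ 6)⁻¹ := Finset.sum_le_sum fun k _ => h1 k
    _ = A * ∑ k ∈ F, (jb k ^ 6)⁻¹ := by rw [Finset.mul_sum]
    _ ≤ A * Z6 := mul_le_mul_of_nonneg_left
        (summable_jb.sum_le_tsum F fun k _ => by have := jb_pos k; positivity) hA

/-- The transport term is small. -/
theorem transport_small (hη : IsWeight η) {b w : Cf} {A : ℝ} (hb : ∀ k, jb k ^ 8 * ‖b k‖ ≤ A)
    (hw : ∀ k, jb k ^ 8 * ‖w k‖ ≤ A) (hbd : Dv b) (hwd : Dv w) (hwh : Herm w) {n : ℕ}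
    (hn : 0 < n) :
    |∑ k ∈ Bn n, ip (nl η b w k) (w k)| ≤ 144 * A ^ 3 * Z6 ^ 2 / n := by
  have hA : 0 ≤ A := le_trans (mul_nonneg (pow_nonneg (jb_pos 0).le _) (norm_nonneg _)) (hb 0)
  have hZ := Z6_nonneg
  have hn0 : (0 : ℝ) < n := by exact_mod_cast hn
  have hz := transport_zero hη (B := Bn n) Bn_neg (b := cut n b) (w := cut n w)
    (fun k hk => cut_not hk) (fun k hk => cut_not hk) (cut_dv hbd) (cut_dv hwd) (cut_herm hwh)
  have hb7 : ∀ k, jb k ^ 7 * ‖b k‖ ≤ A := fun k => (pow_mono (by omega)).trans (hb k)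
  have hw7 : ∀ k, jb k ^ 7 * ‖w k‖ ≤ A := fun k => (pow_mono (by omega)).trans (hw k)
  have hw6 : ∀ k, jb k ^ 6 * ‖w k‖ ≤ A := fun k => (pow_mono (by omega)).trans (hw k)
  have hb6 : ∀ k, jb k ^ 6 * ‖b k‖ ≤ A := fun k => (pow_mono (by omega)).trans (hb k)
  have hw1 : ∀ k, jb k ^ 1 * ‖w k‖ ≤ A := fun k => (pow_mono (by omega)).trans (hw k)
  have hw2 : ∀ k, jb k ^ (1 + 1) * ‖w k‖ ≤ A := fun k => (pow_mono (by omega)).trans (hw k)
  have e1 : ∀ k, ‖nl η (b - cut n b) w k‖ ≤ 24 * (A / n) * A * Z6 := by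
    intro k
    have := nl_bound hη.bdd (m := 0) (a := b - cut n b) (b := w) (A := A / n) (A' := A)
      (fun k => tail_le (m := 7) hn hb k) hw1 k
    simp only [pow_zero, one_mul, zero_add, pow_one] at this
    linarith
  have e2 : ∀ k, ‖nl η (cut n b) (w - cut n w) k‖ ≤ 24 * (A / n) * A * Z6 := by
    intro k
    have := nl_bound hη.bdd (m := 0) (a := cut n b) (b := w - cut n w) (A := A) (A' := A / n)
      (fun k => cut_bound (m := 7) hb7 k) (fun k => tail_le (m := 1) hn hw2 k) k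
    simp only [pow_zero, one_mul, zero_add, pow_one] at this
    linarith
  have L1b := L1_of hb6
  have L1w := L1_of hw6
  have L1cb := L1_of (a := cut n b) (A := A) fun k => cut_bound hb6 k
  have L1cw := L1_of (a := cut n w) (A := A) fun k => cut_bound hw6 k
  have e3 : ∀ k, nl η b w k = nl η (cut n b) (cut n w) k
      + (nl η (b - cut n b) w k + nl η (cut n b) (w - cut n w) k) := by
    intro k
    rw [nl_sub_left hη.bdd L1b L1cb L1w, nl_sub_right hη.bdd L1cb L1w L1cw]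
    abel
  have e4 : ∑ k ∈ Bn n, ip (nl η b w k) (w k)
      = ∑ k ∈ Bn n, ip (nl η (b - cut n b) w k + nl η (cut n b) (w - cut n w) k) (w k) := by
    have h1 : ∑ k ∈ Bn n, ip (nl η b w k) (w k)
        = ∑ k ∈ Bn n, (ip (nl η (cut n b) (cut n w) k) (cut n w k)
          + ip (nl η (b - cut n b) w k + nl η (cut n b) (w - cut n w) k) (w k)) := by
      refine Finset.sum_congr rfl fun k hk => ?_
      rw [cut_mem hk, ← ip_add_left, ← e3]
    rw [h1, Finset.sum_add_distrib, hz, zero_add]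
  rw [e4]
  refine (Finset.abs_sum_le_sum_abs _ _).trans ?_
  calc ∑ k ∈ Bn n, |ip (nl η (b - cut n b) w k + nl η (cut n b) (w - cut n w) k) (w k)|
      ≤ ∑ k ∈ Bn n, (144 * (A / n) * A * Z6) * ‖w k‖ := by
        refine Finset.sum_le_sum fun k _ => ?_
        refine (abs_ip_le _ _).trans ?_
        have h1 := norm_add_le (nl η (b - cut n b) w k) (nl η (cut n b) (w - cut n w) k)
        have h2 := e1 k
        have h3 := e2 k
        have h4 := norm_nonneg (w k)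
        nlinarith
    _ = (144 * (A / n) * A * Z6) * ∑ k ∈ Bn n, ‖w k‖ := by rw [Finset.mul_sum]
    _ ≤ (144 * (A / n) * A * Z6) * (A * Z6) :=
        mul_le_mul_of_nonneg_left (sum_norm_le hw6 _) (by positivity)
    _ = _ := by ring

/-- The stretching term. -/
theorem norm_nl_stretch (hη : ∀ p q, |η p q| ≤ 1) {w a : Cf} (hw : Dv w) {A A' : ℝ}
    (hw6 : ∀ k, jb k ^ 6 * ‖w k‖ ≤ A') (ha7 : ∀ k, jb k ^ 7 * ‖a k‖ ≤ A) (k : K3) :
    (Summable fun p => ‖w p‖ * (len (k - p) * ‖a (k - p)‖)) ∧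
    ‖nl η w a k‖ ≤ 12 * ∑' p, ‖w p‖ * (len (k - p) * ‖a (k - p)‖) := by
  have hg : Summable fun m => len m * ‖a m‖ := by
    refine Summable.of_nonneg_of_le (fun m => mul_nonneg (len_nonneg m) (norm_nonneg _))
      (fun m => ?_) (summable_jb.mul_left A)
    have h0 := jb_pos m
    rw [← div_eq_mul_inv, le_div_iff₀ (by positivity)]
    calc len m * ‖a m‖ * jb m ^ 6 ≤ jb m * ‖a m‖ * jb m ^ 6 := by
          have := len_le_jb m
          gcongr
      _ = jb m ^ 7 * ‖a m‖ := by ring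
      _ ≤ A := ha7 m
  have hc : Summable fun p => ‖w p‖ * (len (k - p) * ‖a (k - p)‖) :=
    summable_conv (f := fun p => ‖w p‖) (g := fun m => len m * ‖a m‖) (fun _ => norm_nonneg _)
      (fun m => mul_nonneg (len_nonneg m) (norm_nonneg _)) (L1_of hw6) hg k
  refine ⟨hc, ?_⟩
  have h1 : ∀ p, ‖((η p (k - p) : ℂ) * kd k (w p)) • a (k - p)‖
      ≤ 3 * (‖w p‖ * (len (k - p) * ‖a (k - p)‖)) := by
    intro p
    have e : kd k (w p) = kd (k - p) (w p) := by rw [kd_sub_left, hw p, sub_zero]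
    rw [e, norm_smul, norm_mul, Complex.norm_real, Real.norm_eq_abs]
    calc |η p (k - p)| * ‖kd (k - p) (w p)‖ * ‖a (k - p)‖
        ≤ 1 * (3 * len (k - p) * ‖w p‖) * ‖a (k - p)‖ := by
          refine mul_le_mul_of_nonneg_right ?_ (norm_nonneg _)
          exact mul_le_mul (hη _ _) (norm_kd_le _ _) (norm_nonneg _) zero_le_one
      _ = _ := by ring
  have h2 : ‖∑' p, ((η p (k - p) : ℂ) * kd k (w p)) • a (k - p)‖
      ≤ 3 * ∑' p, ‖w p‖ * (len (k - p) * ‖a (k - p)‖) := by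
    rw [← tsum_mul_left]
    exact tsum_of_norm_bounded ((hc.mul_left 3).hasSum) h1
  rw [nl, norm_smul, Complex.norm_I, one_mul]
  refine (norm_prj_le k _).trans ?_
  linarith

theorem stretch_le (hη : ∀ p q, |η p q| ≤ 1) {w a : Cf} (hw : Dv w) {A A' : ℝ}
    (hw6 : ∀ k, jb k ^ 6 * ‖w k‖ ≤ A') (ha7 : ∀ k, jb k ^ 7 * ‖a k‖ ≤ A)
    (hws : Summable fun k => nsq (w k)) (F : Finset K3) :
    ∑ k ∈ F, |ip (nl η w a k) (w k)| ≤ 36 * (A * Z6) * ∑' k, nsq (w k) := by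
  have hA : 0 ≤ A := le_trans (mul_nonneg (pow_nonneg (jb_pos 0).le _) (norm_nonneg _)) (ha7 0)
  set g : K3 → ℝ := fun m => len m * ‖a m‖ with hgd
  have hg0 : ∀ m, 0 ≤ g m := fun m => mul_nonneg (len_nonneg m) (norm_nonneg _)
  have hgle : ∀ m, g m ≤ A * (jb m ^ 6)⁻¹ := by
    intro m
    have h0 := jb_pos m
    rw [← div_eq_mul_inv, le_div_iff₀ (by positivity)]
    calc len m * ‖a m‖ * jb m ^ 6 ≤ jb m * ‖a m‖ * jb m ^ 6 := by
          have := len_le_jb m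
          gcongr
      _ = jb m ^ 7 * ‖a m‖ := by ring
      _ ≤ A := ha7 m
  have hgs : Summable g := Summable.of_nonneg_of_le hg0 hgle (summable_jb.mul_left A)
  have hG : ∑' m, g m ≤ A * Z6 := by
    have := hgs.tsum_le_tsum hgle (summable_jb.mul_left A)
    rwa [tsum_mul_left] at this
  have hn : Summable fun k => ‖w k‖ ^ 2 :=
    Summable.of_nonneg_of_le (fun _ => sq_nonneg _) (fun k => norm_sq_le_nsq _) hws
  have hnle : ∑' k, ‖w k‖ ^ 2 ≤ ∑' k, nsq (w k) := hn.tsum_le_tsum (fun k => norm_sq_le_nsq _) hws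
  have hN0 : 0 ≤ ∑' k, ‖w k‖ ^ 2 := tsum_nonneg fun k => sq_nonneg _
  have hG0 : 0 ≤ ∑' m, g m := tsum_nonneg hg0
  -- one mode
  have h1 : ∀ k, |ip (nl η w a k) (w k)|
      ≤ 18 * (‖w k‖ ^ 2 * ∑' m, g m) + 18 * ∑' p, ‖w p‖ ^ 2 * g (k - p) := by
    intro k
    obtain ⟨hc, hb⟩ := norm_nl_stretch hη hw hw6 ha7 k
    have hc2 : Summable fun p => ‖w p‖ ^ 2 * g (k - p) :=
      summable_conv (f := fun p => ‖w p‖ ^ 2) (g := g) (fun _ => sq_nonneg _) hg0 hn hgs k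
    have hgk : Summable fun p => g (k - p) := (Equiv.subLeft k).summable_iff.2 hgs
    have hgt : ∑' p, g (k - p) = ∑' m, g m := (Equiv.subLeft k).tsum_eq g
    have h2 : ‖w k‖ * ∑' p, ‖w p‖ * g (k - p)
        ≤ ∑' p, (‖w k‖ ^ 2 / 2 * g (k - p) + 1 / 2 * (‖w p‖ ^ 2 * g (k - p))) := by
      rw [← tsum_mul_left]
      refine Summable.tsum_le_tsum (fun p => ?_) (hc.mul_left _)
        ((hgk.mul_left _).add (hc2.mul_left _))
      have h3 := hg0 (k - p)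
      nlinarith [mul_nonneg (sq_nonneg (‖w k‖ - ‖w p‖)) h3]
    rw [(hgk.mul_left _).tsum_add (hc2.mul_left _), tsum_mul_left, tsum_mul_left, hgt] at h2
    calc |ip (nl η w a k) (w k)| ≤ 3 * (‖nl η w a k‖ * ‖w k‖) := abs_ip_le _ _
      _ ≤ 3 * ((12 * ∑' p, ‖w p‖ * g (k - p)) * ‖w k‖) := by
          have := norm_nonneg (w k)
          gcongr
      _ = 36 * (‖w k‖ * ∑' p, ‖w p‖ * g (k - p)) := by ring
      _ ≤ 36 * (‖w k‖ ^ 2 / 2 * ∑' m, g m + 1 / 2 * ∑' p, ‖w p‖ ^ 2 * g (k - p)) := by linarith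
      _ = _ := by ring
  refine (Finset.sum_le_sum fun k _ => h1 k).trans ?_
  rw [Finset.sum_add_distrib, ← Finset.mul_sum, ← Finset.mul_sum, ← Finset.sum_mul]
  have h2 : ∑ k ∈ F, ‖w k‖ ^ 2 ≤ ∑' k, ‖w k‖ ^ 2 := hn.sum_le_tsum F fun _ _ => sq_nonneg _
  have h3 : ∑ k ∈ F, ∑' p, ‖w p‖ ^ 2 * g (k - p) ≤ (∑' k, ‖w k‖ ^ 2) * ∑' m, g m := by
    rw [← Summable.tsum_finsetSum fun k _ => summable_conv (f := fun p => ‖w p‖ ^ 2) (g := g)
      (fun _ => sq_nonneg _) hg0 hn hgs k, ← tsum_mul_right]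
    refine Summable.tsum_le_tsum (fun p => ?_)
      (summable_sum fun k _ => summable_conv (f := fun p => ‖w p‖ ^ 2) (g := g)
        (fun _ => sq_nonneg _) hg0 hn hgs k) (hn.mul_right _)
    rw [← Finset.mul_sum]
    refine mul_le_mul_of_nonneg_left ?_ (sq_nonneg _)
    have e : ∑ k ∈ F, g (k - p) = ∑ m ∈ F.map (Equiv.subRight p).toEmbedding, g m := by
      rw [Finset.sum_map]
      rfl
    rw [e]
    exact hgs.sum_le_tsum _ fun _ _ => hg0 _
  have h4 : (∑' k, ‖w k‖ ^ 2) * ∑' m, g m ≤ (∑' k, nsq (w k)) * (A * Z6) :=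
    mul_le_mul hnle hG hG0 (hN0.trans hnle)
  have h5 : (∑ k ∈ F, ‖w k‖ ^ 2) * ∑' m, g m ≤ (∑' k, ‖w k‖ ^ 2) * ∑' m, g m :=
    mul_le_mul_of_nonneg_right h2 hG0
  linarith

theorem Sol.mono {ν α : ℝ} {I J : Set ℝ} {a : ℝ → Cf} (h : Sol η ν α J a) (hIJ : I ⊆ J) :
    Sol η ν α I a :=
  ⟨fun t ht => h.herm t (hIJ ht), fun t ht => h.div t (hIJ ht),
    fun s hs t ht m => h.rapid s (hIJ hs) t (hIJ ht) m,
    fun t ht k => (h.der t (hIJ ht) k).mono hIJ⟩

theorem Sol.bound {ν α : ℝ} {I : Set ℝ} {a : ℝ → Cf} (h : Sol η ν α I a) {s t : ℝ} (hs : s ∈ I)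
    (ht : t ∈ I) (m : ℕ) : ∃ C : ℝ, ∀ τ ∈ Icc s t, ∀ k, jb k ^ m * ‖a τ k‖ ≤ C := by
  obtain ⟨C1, hC1⟩ := h.rapid s hs t ht m
  obtain ⟨C2, hC2⟩ := h.rapid s hs t ht 0
  refine ⟨|C1| + |C2|, fun τ hτ k => ?_⟩
  by_cases hk : k = 0
  · subst hk
    rw [jb_zero, one_pow, one_mul]
    have := hC2 τ hτ 0
    rw [pow_zero, one_mul] at this
    have := this.trans (le_abs_self C2)
    linarith [abs_nonneg C1]
  · rw [jb_of_ne hk]
    have := (hC1 τ hτ k).trans (le_abs_self C1)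
    linarith [abs_nonneg C2]

end Pool.Agent.Run7.h507.RT
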